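import Pool.Agent.H74.ProgC

set_option linter.unusedSectionVars false
set_option linter.unusedVariables false

namespace H74

noncomputable section
variable {K : ℕ} {Q : Type} [DecidableEq Q]

def Rel (x : ℤ) (T : ℕ) (f : Fin (K+1) → Option ℤ) (g : Fin K → ℕ) : Prop :=
  f 0 = some (x + T) ∧ ∀ i : Fin K, f i.succ = some (x + g i)

theorem Rel.upd_succ {x : ℤ} {T : ℕ} {f : Fin (K+1) → Option ℤ} {g : Fin K → ℕ}
    (h : Rel x T f g) (i : Fin K) (v : ℕ) :
    Rel x T (Function.update f i.succ (some (x + v))) (Function.update g i v) := by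
  constructor
  · rw [Function.update_of_ne (Fin.succ_ne_zero i).symm]; exact h.1
  · intro j
    by_cases e : j = i
    · subst e; simp
    · rw [Function.update_of_ne e, Function.update_of_ne (fun h => e (Fin.succ_injective _ h))]
      exact h.2 j

theorem Rel.tick {x : ℤ} {T : ℕ} {f : Fin (K+1) → Option ℤ} {g : Fin K → ℕ}
    (h : Rel x T f g) : Rel x (T+1) (Function.update f 0 (some (x + T + 1))) g := by
  constructor
  · rw [Function.update_self]; push_cast; ring_nf
  · intro j
    rw [Function.update_of_ne (Fin.succ_ne_zero j)]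
    exact h.2 j

variable (prog : Q → UI (Fin K) Q) (e : Q) (w : ℤ → Bool) (x : ℤ) (N : ℕ)

theorem clear_ok : ∀ (k : ℕ) (j : Fin (K+2)), j.val = k → ∀ f : Fin (K+1) → Option ℤ,
    (∀ i : Fin (K+1), k ≤ i.val → f i = none) → AOk (tcode prog e) w x N (.inr j, f) := by
  intro k
  induction k with
  | zero =>
    intro j hj f hf
    have hj0 : j = 0 := Fin.ext hj
    subst hj0
    refine ⟨.inr 0, ?_, by simp [tcode, tprog]⟩
    have : f = fun _ => none := by funext i; exact hf i (by simp)
    rw [this]
    exact Relation.ReflTransGen.refl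
  | succ k ih =>
    intro j hj f hf
    have hj0 : j ≠ 0 := by intro h; rw [h] at hj; simp at hj
    have hs : astep (tcode prog e) w x N (.inr j, f) =
        some (.inr (j.pred hj0).castSucc, Function.update f (j.pred hj0) none) := by
      simp [astep, tcode, tprog, hj0]
    rw [AOk_step hs]
    apply ih
    · simp; omega
    · intro i hi
      by_cases e1 : i = j.pred hj0
      · rw [e1]; simp
      · rw [Function.update_of_ne e1]
        apply hf
        have : i.val ≠ j.val - 1 := by
          intro h; apply e1; apply Fin.ext; simp [h]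
        omega

theorem ov_ok (f : Fin (K+1) → Option ℤ) : AOk (tcode prog e) w x N ((tcode prog e).qov, f) := by
  apply clear_ok (k := K+1)
  · simp
  · intro i hi
    have := i.isLt
    omega

/-- timer tick -/
theorem tick_ok {s : Q} {T : ℕ} {f : Fin (K+1) → Option ℤ} {g : Fin K → ℕ} (h : Rel x T f g)
    (hk : ∀ f', T + 1 < N → Rel x (T+1) f' g → AOk (tcode prog e) w x N (.inl (s, false), f')) :
    AOk (tcode prog e) w x N (.inl (s, true), f) := by
  by_cases hT : T + 1 < N
  · have hs : astep (tcode prog e) w x N (.inl (s, true), f) =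
        some (.inl (s, false), Function.update f 0 (some (x + T + 1))) := by
      simp only [astep, tcode, tprog, h.1]
      rw [if_pos (by omega)]
    rw [AOk_step hs]
    exact hk _ hT h.tick
  · have hs : astep (tcode prog e) w x N (.inl (s, true), f) =
        some ((tcode prog e).qov, Function.update f 0 none) := by
      simp only [astep, tcode, tprog, h.1]
      rw [if_neg (by omega)]
    rw [AOk_step hs]
    exact ov_ok _ _ _ _ _ _

theorem followOk {u : ℕ → Option Bool} (hu : ∀ k b, u k = some b → w (x+k) = b) {s s' : Q}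
    {T : ℕ} {f : Fin (K+1) → Option ℤ} {g g' : Fin K → ℕ} (h : Rel x T f g)
    (hs : ustep u (prog s) g = some (s', g'))
    (hk : ∀ f', T + 1 < N → Rel x (T+1) f' g' → AOk (tcode prog e) w x N (.inl (s', false), f')) :
    AOk (tcode prog e) w x N (.inl (s, false), f) := by
  cases hp : prog s with
  | inc i q =>
    simp only [hp, ustep, Option.some.injEq, Prod.mk.injEq] at hs
    obtain ⟨rfl, rfl⟩ := hs
    by_cases hT : g i + 1 < N
    · have h1 : astep (tcode prog e) w x N (.inl (s, false), f) =
          some (.inl (q, true), Function.update f i.succ (some (x + (g i + 1 : ℕ)))) := by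
        simp only [astep, tcode, tprog, hp, h.2]
        rw [if_pos (by omega)]
        congr 3
        push_cast; ring_nf
      rw [AOk_step h1]
      exact tick_ok _ _ _ _ _ (h.upd_succ i (g i + 1)) hk
    · have h1 : astep (tcode prog e) w x N (.inl (s, false), f) =
          some ((tcode prog e).qov, Function.update f i.succ none) := by
        simp only [astep, tcode, tprog, hp, h.2]
        rw [if_neg (by omega)]
      rw [AOk_step h1]
      exact ov_ok _ _ _ _ _ _
  | dec i q q' =>
    simp only [hp, ustep] at hs
    split_ifs at hs with hz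
    · simp only [Option.some.injEq, Prod.mk.injEq] at hs
      obtain ⟨rfl, rfl⟩ := hs
      have h1 : astep (tcode prog e) w x N (.inl (s, false), f) =
          some (.inl (q', true), f) := by
        simp only [astep, tcode, tprog, hp, h.2]
        rw [if_pos (by omega)]
      rw [AOk_step h1]
      exact tick_ok _ _ _ _ _ h hk
    · simp only [Option.some.injEq, Prod.mk.injEq] at hs
      obtain ⟨rfl, rfl⟩ := hs
      have h1 : astep (tcode prog e) w x N (.inl (s, false), f) =
          some (.inl (q, true), Function.update f i.succ (some (x + (g i - 1 : ℕ)))) := by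
        simp only [astep, tcode, tprog, hp, h.2]
        rw [if_neg (by omega)]
        congr 3
        have : 1 ≤ g i := by omega
        push_cast [Nat.cast_sub this]; ring_nf
      rw [AOk_step h1]
      exact tick_ok _ _ _ _ _ (h.upd_succ i (g i - 1)) hk
  | read i q q' =>
    simp only [hp, ustep] at hs
    cases hb : u (g i) with
    | none => simp [hb] at hs
    | some b =>
      simp only [hb, Option.some.injEq, Prod.mk.injEq] at hs
      obtain ⟨rfl, rfl⟩ := hs
      have hw := hu _ _ hb
      have h1 : astep (tcode prog e) w x N (.inl (s, false), f) =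
          some (.inl ((if b then q else q'), true), f) := by
        simp only [astep, tcode, tprog, hp, h.2, hw]
        cases b <;> simp
      rw [AOk_step h1]
      exact tick_ok _ _ _ _ _ h hk
  | rej => simp [hp, ustep] at hs

theorem follow1 {u : ℕ → Option Bool} (hu : ∀ k b, u k = some b → w (x+k) = b) {s s' : Q}
    {T : ℕ} {f : Fin (K+1) → Option ℤ} {g g' : Fin K → ℕ} (h : Rel x T f g)
    (hs : ustep u (prog s) g = some (s', g')) (hT : T + 1 < N) (hg : ∀ i, g i + 1 < N) :
    ∃ f', Rel x (T+1) f' g' ∧
      AR (tcode prog e) w x N (.inl (s, false), f) (.inl (s', false), f') := by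
  have tick : ∀ (s : Q) (f : Fin (K+1) → Option ℤ) (g : Fin K → ℕ), Rel x T f g →
      ∃ f', Rel x (T+1) f' g ∧ astep (tcode prog e) w x N (.inl (s, true), f) =
        some (.inl (s, false), f') := by
    intro s f g h
    refine ⟨_, h.tick, ?_⟩
    simp only [astep, tcode, tprog, h.1]
    rw [if_pos (by omega)]
  cases hp : prog s with
  | inc i q =>
    simp only [hp, ustep, Option.some.injEq, Prod.mk.injEq] at hs
    obtain ⟨rfl, rfl⟩ := hs
    have h1 : astep (tcode prog e) w x N (.inl (s, false), f) =
          some (.inl (q, true), Function.update f i.succ (some (x + (g i + 1 : ℕ)))) := by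
      simp only [astep, tcode, tprog, hp, h.2]
      rw [if_pos (by have := hg i; omega)]
      congr 3
      push_cast; ring_nf
    obtain ⟨f', h2, h3⟩ := tick q _ _ (h.upd_succ i (g i + 1))
    exact ⟨f', h2, Relation.ReflTransGen.head h1 (Relation.ReflTransGen.single h3)⟩
  | dec i q q' =>
    simp only [hp, ustep] at hs
    split_ifs at hs with hz
    · simp only [Option.some.injEq, Prod.mk.injEq] at hs
      obtain ⟨rfl, rfl⟩ := hs
      have h1 : astep (tcode prog e) w x N (.inl (s, false), f) =
          some (.inl (q', true), f) := by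
        simp only [astep, tcode, tprog, hp, h.2]
        rw [if_pos (by omega)]
      obtain ⟨f', h2, h3⟩ := tick q' _ _ h
      exact ⟨f', h2, Relation.ReflTransGen.head h1 (Relation.ReflTransGen.single h3)⟩
    · simp only [Option.some.injEq, Prod.mk.injEq] at hs
      obtain ⟨rfl, rfl⟩ := hs
      have h1 : astep (tcode prog e) w x N (.inl (s, false), f) =
          some (.inl (q, true), Function.update f i.succ (some (x + (g i - 1 : ℕ)))) := by
        simp only [astep, tcode, tprog, hp, h.2]
        rw [if_neg (by omega)]
        congr 3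
        have : 1 ≤ g i := by omega
        push_cast [Nat.cast_sub this]; ring_nf
      obtain ⟨f', h2, h3⟩ := tick q _ _ (h.upd_succ i (g i - 1))
      exact ⟨f', h2, Relation.ReflTransGen.head h1 (Relation.ReflTransGen.single h3)⟩
  | read i q q' =>
    simp only [hp, ustep] at hs
    cases hb : u (g i) with
    | none => simp [hb] at hs
    | some b =>
      simp only [hb, Option.some.injEq, Prod.mk.injEq] at hs
      obtain ⟨rfl, rfl⟩ := hs
      have hw := hu _ _ hb
      have h1 : astep (tcode prog e) w x N (.inl (s, false), f) =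
          some (.inl ((if b then q else q'), true), f) := by
        simp only [astep, tcode, tprog, hp, h.2, hw]
        cases b <;> simp
      obtain ⟨f', h2, h3⟩ := tick (if b then q else q') _ _ h
      exact ⟨f', h2, Relation.ReflTransGen.head h1 (Relation.ReflTransGen.single h3)⟩
  | rej => simp [hp, ustep] at hs

end

noncomputable section
open Classical
variable {K : ℕ}

theorem Rel_init (x : ℤ) : Rel (K := K) x 0 (fun _ => some x) (fun _ => 0) := by
  constructor
  · simp
  · intro i; simp

theorem specA (body : Cmd (Fin K)) (w : ℤ → Bool) (x : ℤ) (N : ℕ) {u : ℕ → Option Bool}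
    (hu : ∀ k b, u k = some b → w (x+k) = b) {n : ℕ} {s : body.Q} {g : Fin K → ℕ}
    (hr : urun body u n = some (s, g)) (hrej : fprog body s = .rej) (hn : n < N) :
    ¬ compok (tcode (fprog body) body.entry) w x N := by
  have key : ∀ m s g, urun body u m = some (s, g) → m < N →
      ∃ f, Rel x m f g ∧ AR (tcode (fprog body) body.entry) w x N
        (.inl (body.entry, false), fun _ => some x) (.inl (s, false), f) := by
    intro m
    induction m with
    | zero =>
      intro s g h _
      simp only [urun, Option.some.injEq, Prod.mk.injEq] at h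
      obtain ⟨rfl, rfl⟩ := h
      exact ⟨_, Rel_init x, Relation.ReflTransGen.refl⟩
    | succ m ih =>
      intro s g h hm
      simp only [urun, Option.bind_eq_some_iff] at h
      obtain ⟨⟨s0, g0⟩, h1, h2⟩ := h
      obtain ⟨f0, h3, h4⟩ := ih s0 g0 h1 (by omega)
      have hb := urun_bound body u m _ h1
      obtain ⟨f', h5, h6⟩ := follow1 (fprog body) body.entry w x N hu h3 h2 hm
        (fun i => by have := hb i; simp only at this; omega)
      exact ⟨f', h5, Relation.ReflTransGen.trans h4 h6⟩
  obtain ⟨f, h1, h2⟩ := key n s g hr hn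
  intro hok
  have h3 : AOk (tcode (fprog body) body.entry) w x N (.inl (s, false), f) := by
    have : ∀ c, AR (tcode (fprog body) body.entry) w x N
        (.inl (body.entry, false), fun _ => some x) c →
        AOk (tcode (fprog body) body.entry) w x N c := by
      intro c hc
      induction hc with
      | refl => exact hok
      | tail _ hs ih => exact (AOk_step hs).1 ih
    exact this _ h2
  obtain ⟨q, h4, h5⟩ := h3
  rcases Relation.ReflTransGen.cases_head h4 with h6 | ⟨z, hz, _⟩
  · simp only [Prod.mk.injEq] at h6
    rw [← h6.1] at h5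
    simp [tcode, tprog, hrej] at h5
  · simp [astep, tcode, tprog, hrej] at hz

theorem specB (body : Cmd (Fin K)) (w : ℤ → Bool) (x : ℤ) (N : ℕ) (hN : 0 < N)
    (hnr : ∀ n s g, urun body (fun k => some (w (x+k))) n = some (s, g) → fprog body s ≠ .rej) :
    compok (tcode (fprog body) body.entry) w x N := by
  have key : ∀ m n s g f, N - n ≤ m → n < N →
      urun body (fun k => some (w (x+k))) n = some (s, g) → Rel x n f g →
      AOk (tcode (fprog body) body.entry) w x N (.inl (s, false), f) := by
    intro m
    induction m with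
    | zero => intro n s g f h1 h2; omega
    | succ m ih =>
      intro n s g f h1 h2 h3 h4
      have hne := hnr n s g h3
      cases hs : ustep (fun k => some (w (x+k))) (fprog body s) g with
      | none =>
        exfalso
        cases hp : fprog body s with
        | inc i q => simp [hp, ustep] at hs
        | dec i q q' => simp only [hp, ustep] at hs; split_ifs at hs
        | read i q q' => simp [hp, ustep] at hs
        | rej => exact hne hp
      | some c =>
        obtain ⟨s', g'⟩ := c
        apply followOk (fprog body) body.entry w x N (u := fun k => some (w (x+k)))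
          (fun k b hb => by simpa using hb) h4 hs
        intro f' h5 h6
        exact ih (n+1) s' g' f' (by omega) h5 (by simp [urun, h3, hs]) h6
  exact key N 0 body.entry (fun _ => 0) _ (by omega) hN rfl (Rel_init x)

theorem tr_congr (h : Bool → ℕ → ℕ) {β β' : ℕ → Bool} : ∀ {ℓ : ℕ}, (∀ i < ℓ, β i = β' i) →
    tr h β ℓ = tr h β' ℓ := by
  intro ℓ
  induction ℓ with
  | zero => intro _; rfl
  | succ ℓ ih =>
    intro hb
    simp only [tr]
    rw [ih (fun i hi => hb i (by omega)), hb ℓ (by omega)]

theorem tr_none {h : Bool → ℕ → ℕ} {β : ℕ → Bool} : ∀ {ℓ : ℕ}, tr h β ℓ = none →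
    ∃ ℓ0 < ℓ, ∃ v, tr h β ℓ0 = some v ∧ h (β ℓ0) v = 0 := by
  intro ℓ
  induction ℓ with
  | zero => intro h; simp [tr] at h
  | succ ℓ ih =>
    intro hn
    cases ht : tr h β ℓ with
    | none =>
      obtain ⟨ℓ0, h1, h2⟩ := ih ht
      exact ⟨ℓ0, by omega, h2⟩
    | some v =>
      refine ⟨ℓ, by omega, v, ht, ?_⟩
      simp only [tr, ht, Option.bind_some] at hn
      cases hh : h (β ℓ) v with
      | zero => rfl
      | succ v' => simp [hh] at hn

theorem exists_prog (h : Bool → ℕ → ℕ)
    (h1 : Compiles (fun v : List.Vector ℕ 1 => h true v.head))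
    (h0 : Compiles (fun v : List.Vector ℕ 1 => h false v.head)) :
    ∃ (K : ℕ) (Q : Type) (_ : Fintype Q) (C : Code (Fin (K+1)) Q) (ρ : Q → ℕ), ProgOK C 0 ρ ∧
      (∀ ℓ, ∃ M, ∀ (w : ℤ → Bool) (x : ℤ) (N : ℕ), M ≤ N → compok C w x N →
        (tr h (fun i => w (x+i)) ℓ).isSome) ∧
      (∀ (w : ℤ → Bool) (x : ℤ) (N : ℕ), (∀ ℓ, (tr h (fun i => w (x+i)) ℓ).isSome) → 0 < N →
        compok C w x N) := by
  obtain ⟨K, body, hA, hB⟩ := exists_body h h1 h0
  refine ⟨K, (body.Q × Bool) ⊕ Fin (K+2), inferInstance, tcode (fprog body) body.entry,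
    trank K, tprog_ok _ _, ?_, ?_⟩
  · intro ℓ
    let ext : (Fin ℓ → Bool) → ℕ → Bool := fun β i => if hi : i < ℓ then β ⟨i, hi⟩ else false
    let ub : (Fin ℓ → Bool) → ℕ → Option Bool := fun β i => if hi : i < ℓ then some (β ⟨i, hi⟩) else none
    have hex : ∀ β : Fin ℓ → Bool, ∃ nb : ℕ, tr h (ext β) ℓ = none →
        ∃ n < nb, ∃ s g, urun body (ub β) n = some (s, g) ∧ fprog body s = .rej := by
      intro β
      by_cases ht : tr h (ext β) ℓ = none
      · obtain ⟨ℓ0, hl, v, h2, h3⟩ := tr_none ht
        obtain ⟨n, s, g, h4, h5⟩ := hB (ub β) (ext β) ℓ0 v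
          (fun i hi => by simp [ub, ext, show i < ℓ by omega]) h2 h3
        exact ⟨n+1, fun _ => ⟨n, by omega, s, g, h4, h5⟩⟩
      · exact ⟨0, fun h => absurd h ht⟩
    choose nb hnb using hex
    refine ⟨Finset.univ.sup nb, ?_⟩
    intro w x N hN hok
    by_contra hcon
    let β : Fin ℓ → Bool := fun i => w (x + (i.val : ℤ))
    have hc : tr h (fun i => w (x+i)) ℓ = tr h (ext β) ℓ := by
      apply tr_congr
      intro i hi
      simp [ext, β, hi]
    have ht : tr h (ext β) ℓ = none := by
      rw [← hc]
      cases hh : tr h (fun i => w (x+i)) ℓ with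
      | none => rfl
      | some v => rw [hh] at hcon; simp at hcon
    obtain ⟨n, hn, s, g, h4, h5⟩ := hnb β ht
    have hle : nb β ≤ Finset.univ.sup nb := Finset.le_sup (Finset.mem_univ β)
    refine specA body w x N (u := ub β) ?_ h4 h5 (by omega) hok
    intro k b hk
    simp only [ub] at hk
    split_ifs at hk with hkl
    simpa [β] using hk
  · intro w x N hs hN
    apply specB body w x N hN
    intro n s g hr hrej
    have hnone : urun body (fun k => some (w (x+k))) (n+1) = none := by
      simp [urun, hr, hrej, ustep]
    have := hs (n+1)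
    rw [Option.isSome_iff_exists] at this
    obtain ⟨v, hv⟩ := this
    obtain ⟨m, g', h2, h3⟩ := hA (fun k => some (w (x+k))) (fun i => w (x+i)) (n+1) v
      (fun i _ => rfl) hv
    obtain ⟨k, rfl⟩ := Nat.exists_eq_add_of_le h3
    rw [urun_none hnone k] at h2
    simp at h2

end

end H74
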