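import Pool.Agent.H74.FromP
import Pool.Agent.H74.ProgD

set_option linter.unusedSectionVars false
set_option linter.unusedVariables false

namespace H74

def hfun (good : ℕ → ℕ → Bool) (b : Bool) (v : ℕ) : ℕ :=
  if good (v.unpair.1+1) (v.unpair.2 + (if b then 1 else 0)) then
    Nat.pair (v.unpair.1+1) (v.unpair.2 + (if b then 1 else 0)) + 1 else 0

theorem tr_hfun1 (good : ℕ → ℕ → Bool) (β : ℕ → Bool) (ℓ : ℕ)
    (h : ∀ ℓ', 1 ≤ ℓ' → ℓ' ≤ ℓ → good ℓ' (cnt β ℓ') = true) :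
    tr (hfun good) β ℓ = some (Nat.pair ℓ (cnt β ℓ)) := by
  induction ℓ with
  | zero => simp [tr, cnt, Nat.pair]
  | succ ℓ ih =>
    simp only [tr]
    rw [ih (fun ℓ' h1 h2 => h ℓ' h1 (by omega))]
    simp only [Option.bind_some, hfun, Nat.unpair_pair]
    have := h (ℓ+1) (by omega) le_rfl
    simp only [cnt] at this
    rw [if_pos this]
    simp [cnt]

theorem tr_hfun2 (good : ℕ → ℕ → Bool) (β : ℕ → Bool) (ℓ : ℕ)
    (hs : (tr (hfun good) β ℓ).isSome) :
    ∀ ℓ', 1 ≤ ℓ' → ℓ' ≤ ℓ → good ℓ' (cnt β ℓ') = true := by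
  induction ℓ with
  | zero => intro ℓ' h1 h2; omega
  | succ ℓ ih =>
    rw [Option.isSome_iff_exists] at hs
    obtain ⟨v, hv⟩ := hs
    simp only [tr, Option.bind_eq_some_iff] at hv
    obtain ⟨v0, h0, h1⟩ := hv
    have ih' := ih (by rw [h0]; rfl)
    rw [tr_hfun1 good β ℓ ih'] at h0
    simp only [Option.some.injEq] at h0
    subst h0
    intro ℓ' h2 h3
    by_cases e : ℓ' = ℓ + 1
    · subst e
      by_contra hcon
      have : hfun good (β ℓ) (Nat.pair ℓ (cnt β ℓ)) = 0 := by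
        simp only [hfun, Nat.unpair_pair]
        rw [if_neg]
        simpa [cnt] using hcon
      rw [this] at h1
      simp at h1
    · exact ih' ℓ' h2 (by omega)

/-- all bit lists of a given length -/
def allL : ℕ → List (List Bool)
  | 0 => [[]]
  | n+1 => (allL n).flatMap (fun σ => [σ ++ [false], σ ++ [true]])

theorem mem_allL (n : ℕ) (σ : List Bool) : σ ∈ allL n ↔ σ.length = n := by
  induction n generalizing σ with
  | zero => simp [allL]
  | succ n ih =>
    simp only [allL, List.mem_flatMap, List.mem_cons, List.not_mem_nil, or_false]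
    constructor
    · rintro ⟨τ, h1, h2⟩
      rw [ih] at h1
      rcases h2 with rfl | rfl <;> simp [h1]
    · intro h
      rcases List.eq_nil_or_concat σ with rfl | ⟨τ, b, rfl⟩
      · simp at h
      · rw [List.concat_eq_append] at h ⊢
        rw [List.length_append, List.length_singleton] at h
        refine ⟨τ, (ih τ).2 (by omega), ?_⟩
        cases b <;> simp

def goodT (T : List Bool → Bool) (ℓ c : ℕ) : Bool :=
  decide (∃ σ ∈ allL ℓ, T σ = true ∧ near σ c)

theorem goodT_iff (T : List Bool → Bool) (ℓ c : ℕ) :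
    goodT T ℓ c = true ↔ ∃ σ : List Bool, σ.length = ℓ ∧ T σ = true ∧ near σ c := by
  simp only [goodT, decide_eq_true_eq, mem_allL]

noncomputable section
open Classical
variable {K : ℕ} {Q : Type} {C : Code (Fin (K+1)) Q} {w : ℤ → Bool}

theorem block {lo hi : ℤ} {q : ℕ} (hq : 1 ≤ q) (hW : Wd C w lo hi)
    (hl : ((K+2)*q : ℕ) ≤ hi - lo - 3) :
    ∃ a, lo + 2 ≤ a ∧ a + q ≤ hi - 1 ∧ ∃ S : ℤ → Finset (Fin (K+1)),
      (∀ z, a ≤ z → z < a + q → S z = ∅) ∧ winok C w S a q := by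
  obtain ⟨S, hS⟩ := hW
  have hbound : ∀ j : Fin (K+2), (j.val:ℤ) * q + q ≤ hi - lo - 3 := by
    intro j
    have h1 : (j.val + 1) * q ≤ (K+2) * q := Nat.mul_le_mul_right _ (by have := j.isLt; omega)
    have h2 : ((j.val + 1) * q : ℕ) ≤ hi - lo - 3 := le_trans (by exact_mod_cast h1) hl
    push_cast at h2
    linarith
  by_contra hcon
  push Not at hcon
  have hex : ∀ j : Fin (K+2), ∃ z, ∃ i : Fin (K+1), lo + 2 + j.val * q ≤ z ∧
      z < lo + 2 + j.val * q + q ∧ i ∈ S z := by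
    intro j
    by_contra hno
    push Not at hno
    refine hcon (lo + 2 + j.val * q) ?_ ?_ S ?_ ?_
    · have : (0:ℤ) ≤ (j.val:ℤ) * q := by positivity
      linarith
    · have := hbound j; linarith
    · intro z h1 h2
      rw [Finset.eq_empty_iff_forall_notMem]
      intro i
      exact hno z i h1 h2
    · apply hS
      · have : (0:ℤ) ≤ (j.val:ℤ) * q := by positivity
        linarith
      · have := hbound j
        omega
  choose z i h1 h2 h3 using hex
  obtain ⟨j, j', hne, hij⟩ := Fintype.exists_ne_map_eq_of_card_lt i (by simp)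
  have hdis : Disjoint (S (z j)) (S (z j')) := by
    have hd := (hS (lo+2) (hi-lo-3).toNat le_rfl le_rfl).2.1
    have b1 := hbound j
    have b2 := hbound j'
    have p1 : (0:ℤ) ≤ (j.val:ℤ) * q := by positivity
    have p2 : (0:ℤ) ≤ (j'.val:ℤ) * q := by positivity
    have e1 := h1 j
    have e2 := h1 j'
    have e3 := h2 j
    have e4 := h2 j'
    rcases lt_or_gt_of_ne (fun h => hne (Fin.ext h) : j.val ≠ j'.val) with hlt | hlt
    · apply hd
      · linarith
      · have : ((j.val:ℤ)+1) * q ≤ j'.val * q :=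
          mul_le_mul_of_nonneg_right (by omega) (by positivity)
        linarith
      · omega
    · apply (hd _ _ _ _ _).symm
      · linarith
      · have : ((j'.val:ℤ)+1) * q ≤ j.val * q :=
          mul_le_mul_of_nonneg_right (by omega) (by positivity)
        linarith
      · omega
  rw [Finset.disjoint_left] at hdis
  exact hdis (h3 j) (hij ▸ h3 j')

theorem main_analysis (T : List Bool → Bool) (hT : ∀ σ m, T σ = true → T (σ.take m) = true)
    (hA : ∀ ℓ, ∃ M, ∀ (w : ℤ → Bool) (x : ℤ) (N : ℕ), M ≤ N → compok C w x N →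
        (tr (hfun (goodT T)) (fun i => w (x+i)) ℓ).isSome)
    (lo hi : ℕ → ℤ) (hlo : ∀ t t', t ≤ t' → lo t' ≤ lo t) (hhi : ∀ t t', t ≤ t' → hi t ≤ hi t')
    (hunb : ∀ N : ℕ, ∃ t, (N:ℤ) ≤ hi t - lo t)
    (hW : ∀ t, Wd C w (lo t) (hi t)) :
    ∃ p : ℕ → Bool, (∀ n, T (pref p n) = true) ∧
      ∀ n t, 16*8^(n+1) ≤ (hi t - lo t - 3).toNat →
        decN n (hi t - lo t - 3).toNat (A w (lo t + 2) (hi t - lo t - 3).toNat).toNat = p n := by
  -- balancedness in the region
  have hbal : ∀ t x (n : ℕ), lo t + 2 ≤ x → x + 2*n ≤ hi t - 1 → |A w (x+n) n - A w x n| ≤ 2 := by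
    intro t x n h1 h2
    obtain ⟨S, hS⟩ := hW t
    have := (hS x (2*n) h1 (by push_cast; omega)).1
    rw [(D_spec w n x).1] at this
    rw [abs_le]; exact this
  -- the slope
  have hslope : ∃ α : ℝ, ∀ t x (n : ℕ), lo t + 2 ≤ x → x + n ≤ hi t - 1 →
      |(A w x n : ℝ) - α * n| ≤ 2 := by
    by_cases hub : ∀ B : ℤ, ∃ t, B ≤ hi t
    · obtain ⟨α, h⟩ := slope_right w (fun x => ∃ t, lo t + 2 ≤ x)
        (fun x y ⟨t, ht⟩ hxy => ⟨t, by omega⟩) ⟨lo 0 + 2, 0, le_rfl⟩ (by
          rintro x ⟨t, ht⟩ n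
          obtain ⟨t', ht'⟩ := hub (x + 2*n + 1)
          refine hbal (max t t') x n ?_ ?_
          · have := hlo t (max t t') (le_max_left _ _); omega
          · have := hhi t' (max t t') (le_max_right _ _); omega)
      exact ⟨α, fun t x n h1 h2 => h x ⟨t, h1⟩ n⟩
    · have hub' : ∃ B : ℤ, ∀ t, hi t < B := by
        simp only [not_forall, not_exists, not_le] at hub
        exact hub
      obtain ⟨B, hB⟩ := hub'
      have hlb : ∀ B' : ℤ, ∃ t, lo t ≤ B' := by
        intro B'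
        obtain ⟨t, ht⟩ := hunb (B - B').toNat
        refine ⟨t, ?_⟩
        have := hB t
        omega
      obtain ⟨α, h⟩ := slope_left w (fun x => ∃ t, x ≤ hi t - 2)
        (fun x y ⟨t, ht⟩ hxy => ⟨t, by omega⟩) ⟨hi 0 - 2, 0, le_rfl⟩ (by
          rintro x n ⟨t, ht⟩
          obtain ⟨t', ht'⟩ := hlb (x - 2)
          refine hbal (max t t') x n ?_ ?_
          · have := hlo t' (max t t') (le_max_right _ _); omega
          · have := hhi t (max t t') (le_max_left _ _); omega)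
      exact ⟨α, fun t x n h1 h2 => h x n ⟨t, by omega⟩⟩
  obtain ⟨α, hα⟩ := hslope
  -- codes of all lengths
  have hcode : ∀ ℓ : ℕ, 1 ≤ ℓ → ∃ σ : List Bool, σ.length = ℓ ∧ T σ = true ∧
      |α * ℓ - ℓ * (1/4 + KK σ / 8^ℓ)| ≤ 5 := by
    intro ℓ hl
    obtain ⟨M, hM⟩ := hA ℓ
    set q := max M ℓ + 2 with hq
    obtain ⟨t, ht⟩ := hunb ((K+2)*q + 3)
    obtain ⟨a, ha1, ha2, S, hS1, hS2⟩ := block (C := C) (w := w) (q := q) (by omega) (hW t)
      (by push_cast at ht ⊢; linarith)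
    have hok := hS2.2.2 (by omega) hS1
    have hs := hM w a (q-1) (by omega) hok
    have hg := tr_hfun2 _ _ _ hs ℓ hl le_rfl
    rw [goodT_iff] at hg
    obtain ⟨σ, h1, h2, h3⟩ := hg
    refine ⟨σ, h1, h2, ?_⟩
    have hc := cnt_A w a ℓ
    set c := cnt (fun i => w (a+i)) ℓ with hcdef
    have h4 := hα t a ℓ ha1 (by omega)
    rw [← hc] at h4
    unfold near at h3
    rw [h1] at h3
    obtain ⟨n1, n2⟩ := h3
    have n1' : (4 * 8^ℓ * c : ℝ) ≤ ℓ * (8^ℓ + 4 * KK σ) + 12 * 8^ℓ := by exact_mod_cast n1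
    have n2' : (ℓ * (8^ℓ + 4 * KK σ) : ℝ) ≤ 4 * 8^ℓ * c + 12 * 8^ℓ := by exact_mod_cast n2
    have hp : (0:ℝ) < 8^ℓ := by positivity
    have h5 : |(c:ℝ) - ℓ * (1/4 + KK σ / 8^ℓ)| ≤ 3 := by
      have e : (c:ℝ) - ℓ * (1/4 + KK σ / 8^ℓ) = (4 * 8^ℓ * c - ℓ * (8^ℓ + 4 * KK σ)) / (4 * 8^ℓ) := by
        field_simp
      rw [e, abs_le]
      constructor
      · rw [le_div_iff₀ (by positivity)]; linarith
      · rw [div_le_iff₀ (by positivity)]; linarith
    have h4' : |(c:ℝ) - α * ℓ| ≤ 2 := by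
      have : ((c:ℤ):ℝ) = (c:ℝ) := by push_cast; rfl
      rw [← this]; exact h4
    have e : α * ℓ - ℓ * (1/4 + KK σ / 8^ℓ) = -((c:ℝ) - α*ℓ) + ((c:ℝ) - ℓ * (1/4 + KK σ / 8^ℓ)) := by
      ring
    rw [e]
    refine (abs_add_le _ _).trans ?_
    rw [abs_neg]
    linarith
  -- decoding
  have hdec : ∀ (n t : ℕ) (σ : List Bool), n < σ.length → 40 * 8^(n+1) ≤ σ.length →
      |α * σ.length - σ.length * (1/4 + KK σ / 8^σ.length)| ≤ 5 →
      16*8^(n+1) ≤ (hi t - lo t - 3).toNat →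
      decN n (hi t - lo t - 3).toNat (A w (lo t + 2) (hi t - lo t - 3).toNat).toNat =
        σ.getD n false := by
    intro n t σ h1 h2 h3 h4
    apply decN_correct h1 h2 h4 _ h3
    have h5 := hα t (lo t + 2) (hi t - lo t - 3).toNat le_rfl (by
      have : 0 < (hi t - lo t - 3).toNat := lt_of_lt_of_le (by positivity) h4
      omega)
    have h6 := (A_bd w (lo t + 2) (hi t - lo t - 3).toNat).1
    have h7 : (((A w (lo t + 2) (hi t - lo t - 3).toNat).toNat : ℕ) : ℝ) =
        ((A w (lo t + 2) (hi t - lo t - 3).toNat : ℤ) : ℝ) := by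
      have : (((A w (lo t + 2) (hi t - lo t - 3).toNat).toNat : ℕ) : ℤ) =
        A w (lo t + 2) (hi t - lo t - 3).toNat := Int.toNat_of_nonneg h6
      exact_mod_cast this
    rw [h7]; exact h5
  -- times with long windows
  have htime : ∀ n : ℕ, ∃ t, 16*8^(n+1) ≤ (hi t - lo t - 3).toNat := by
    intro n
    obtain ⟨t, ht⟩ := hunb (16*8^(n+1) + 3)
    exact ⟨t, by push_cast at ht; zify; rw [Int.toNat_of_nonneg (by
      have : (0:ℤ) ≤ 16*8^(n+1) := by positivity
      linarith)]; linarith⟩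
  choose tt htt using htime
  choose! σ hσ1 hσ2 hσ3 using hcode
  let p : ℕ → Bool := fun n =>
    decN n (hi (tt n) - lo (tt n) - 3).toNat
      (A w (lo (tt n) + 2) (hi (tt n) - lo (tt n) - 3).toNat).toNat
  have hlen : ∀ n ℓ : ℕ, 40*8^(n+1) ≤ ℓ → 1 ≤ ℓ ∧ n < ℓ := by
    intro n ℓ h
    have h1 : n < 8^(n+1) := lt_trans (Nat.lt_succ_self n) (Nat.lt_pow_self (by norm_num))
    omega
  have hp : ∀ n ℓ : ℕ, 40*8^(n+1) ≤ ℓ → p n = (σ ℓ).getD n false := by
    intro n ℓ h
    obtain ⟨h1, h2⟩ := hlen n ℓ h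
    have a1 := hσ1 ℓ h1
    have a3 := hσ3 ℓ h1
    apply hdec n (tt n) (σ ℓ) (by rw [a1]; exact h2) (by rw [a1]; exact h) (by rw [a1]; exact a3)
      (htt n)
  refine ⟨p, ?_, ?_⟩
  · intro n
    set ℓ := 40*8^(n+1) with hl
    obtain ⟨h1, h2⟩ := hlen n ℓ le_rfl
    have e : pref p n = (σ ℓ).take n := by
      apply List.ext_getElem
      · rw [pref_length, List.length_take, hσ1 ℓ h1]; omega
      · intro j hj1 hj2
        rw [pref_length] at hj1
        have hle : 40*8^(j+1) ≤ ℓ := by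
          rw [hl]
          exact Nat.mul_le_mul_left _ (Nat.pow_le_pow_right (by norm_num) (by omega))
        have := hp j ℓ hle
        simp only [pref, List.getElem_map, List.getElem_range, List.getElem_take]
        rw [this, List.getD_eq_getElem _ _ (by rw [hσ1 ℓ h1]; omega)]
    rw [e]
    exact hT _ _ (hσ2 ℓ h1)
  · intro n t ht
    obtain ⟨h1, h2⟩ := hlen n (40*8^(n+1)) le_rfl
    rw [hp n (40*8^(n+1)) le_rfl]
    have a1 := hσ1 _ h1
    have a3 := hσ3 _ h1
    apply hdec n t (σ (40*8^(n+1))) (by rw [a1]; exact h2) (by rw [a1]) (by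
      rw [a1]; exact a3) ht

end

end H74
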