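import Mathlib

set_option linter.unusedSectionVars false
set_option linter.unusedVariables false

namespace H74

/-- Instructions of the unbounded register machine. -/
inductive UI (ι Q : Type) where
  | inc (i : ι) (q' : Q)
  | dec (i : ι) (q' q'' : Q)
  | read (i : ι) (q1 q0 : Q)
  | rej

def UI.map {ι Q Q' : Type} (f : Q → Q') : UI ι Q → UI ι Q'
  | .inc i q => .inc i (f q)
  | .dec i q q' => .dec i (f q) (f q')
  | .read i q q' => .read i (f q) (f q')
  | .rej => .rej

inductive Cmd (ι : Type) where
  | inc (i : ι)
  | dec (i : ι)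
  | seq (a b : Cmd ι)
  | loop (i : ι) (c : Cmd ι)
  | ifr (i : ι) (a b : Cmd ι)
  | rejz (i : ι)

section
variable {ι : Type} [DecidableEq ι]

def Cmd.Q : Cmd ι → Type
  | .inc _ => Unit
  | .dec _ => Unit
  | .seq a b => a.Q ⊕ b.Q
  | .loop _ c => Option c.Q
  | .ifr _ a b => Option (a.Q ⊕ b.Q)
  | .rejz _ => Bool

instance Cmd.fin : (c : Cmd ι) → Fintype c.Q
  | .inc _ => inferInstanceAs (Fintype Unit)
  | .dec _ => inferInstanceAs (Fintype Unit)
  | .seq a b =>
    haveI := Cmd.fin a
    haveI := Cmd.fin b
    inferInstanceAs (Fintype (a.Q ⊕ b.Q))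
  | .loop _ c =>
    haveI := Cmd.fin c
    inferInstanceAs (Fintype (Option c.Q))
  | .ifr _ a b =>
    haveI := Cmd.fin a
    haveI := Cmd.fin b
    inferInstanceAs (Fintype (Option (a.Q ⊕ b.Q)))
  | .rejz _ => inferInstanceAs (Fintype Bool)

def Cmd.entry : (c : Cmd ι) → c.Q
  | .inc _ => ()
  | .dec _ => ()
  | .seq a _ => Sum.inl a.entry
  | .loop _ c => (none : Option c.Q)
  | .ifr _ a b => (none : Option (a.Q ⊕ b.Q))
  | .rejz _ => true

def seqPhi {A B : Type} (e : B) : Option A → Option (A ⊕ B)
  | none => some (.inr e)
  | some s => some (.inl s)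

def Cmd.instr : (c : Cmd ι) → c.Q → UI ι (Option c.Q)
  | .inc i => fun _ => .inc i none
  | .dec i => fun _ => .dec i none none
  | .seq a b => fun (s : a.Q ⊕ b.Q) =>
    match s with
    | .inl s => (a.instr s).map (seqPhi b.entry)
    | .inr s => (b.instr s).map (Option.map Sum.inr)
  | .loop i c => fun (s : Option c.Q) =>
    match s with
    | none => .dec i (some (some c.entry)) none
    | some s => (c.instr s).map some
  | .ifr i a b => fun (s : Option (a.Q ⊕ b.Q)) =>
    match s with
    | none => .read i (some (some (.inl a.entry))) (some (some (.inr b.entry)))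
    | some (.inl s) => (a.instr s).map (Option.map (fun s => some (.inl s)))
    | some (.inr s) => (b.instr s).map (Option.map (fun s => some (.inr s)))
  | .rejz i => fun (s : Bool) =>
    match s with
    | true => .dec i none (some false)
    | false => .rej

def ustep {Q : Type} (u : ℕ → Option Bool) : UI ι Q → (ι → ℕ) → Option (Q × (ι → ℕ))
  | .inc i q', g => some (q', Function.update g i (g i + 1))
  | .dec i q' q'', g => if g i = 0 then some (q'', g) else some (q', Function.update g i (g i - 1))
  | .read i q1 q0, g =>
    match u (g i) with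
    | none => none
    | some b => some (if b then q1 else q0, g)
  | .rej, _ => none

theorem ustep_map {Q Q' : Type} (u : ℕ → Option Bool) (f : Q → Q') (x : UI ι Q) (g : ι → ℕ) :
    ustep u (x.map f) g = (ustep u x g).map (Prod.map f id) := by
  cases x with
  | inc i q => simp [UI.map, ustep]
  | dec i q q' => simp only [UI.map, ustep]; split_ifs <;> simp
  | read i q q' =>
    simp only [UI.map, ustep]
    cases u (g i) with
    | none => simp
    | some b => cases b <;> simp
  | rej => simp [UI.map, ustep]

def sstep (c : Cmd ι) (u : ℕ → Option Bool) : Option c.Q × (ι → ℕ) → Option (Option c.Q × (ι → ℕ))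
  | (none, _) => none
  | (some s, g) => ustep u (c.instr s) g

def SR (c : Cmd ι) (u : ℕ → Option Bool) : Option c.Q × (ι → ℕ) → Option c.Q × (ι → ℕ) → Prop :=
  Relation.ReflTransGen (fun x y => sstep c u x = some y)

def Exec (c : Cmd ι) (u : ℕ → Option Bool) (g g' : ι → ℕ) : Prop := SR c u (some c.entry, g) (none, g')

theorem Exec.congr {c : Cmd ι} {u : ℕ → Option Bool} {g g1 g2 : ι → ℕ} (h : Exec c u g g1)
    (e : g1 = g2) : Exec c u g g2 := e ▸ h

theorem SR_lift {c c' : Cmd ι} {u : ℕ → Option Bool} (φ : Option c.Q → Option c'.Q)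
    (h : ∀ s g, sstep c' u (φ (some s), g) = (sstep c u (some s, g)).map (Prod.map φ id))
    {x y : Option c.Q × (ι → ℕ)} (hxy : SR c u x y) : SR c' u (φ x.1, x.2) (φ y.1, y.2) := by
  induction hxy with
  | refl => exact Relation.ReflTransGen.refl
  | @tail a b _ hs ih =>
    refine Relation.ReflTransGen.tail ih ?_
    obtain ⟨a1, a2⟩ := a
    cases a1 with
    | none => simp [sstep] at hs
    | some s =>
      simp only
      rw [h, hs]
      rfl

theorem exec_inc (u : ℕ → Option Bool) (g : ι → ℕ) (i : ι) :
    Exec (.inc i) u g (Function.update g i (g i + 1)) :=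
  Relation.ReflTransGen.single rfl

theorem exec_dec (u : ℕ → Option Bool) (g : ι → ℕ) (i : ι) :
    Exec (.dec i) u g (Function.update g i (g i - 1)) := by
  apply Relation.ReflTransGen.single
  simp only [sstep, Cmd.instr, ustep]
  split_ifs with h
  · simp [h]
  · rfl

theorem exec_dec_zero (u : ℕ → Option Bool) (g : ι → ℕ) (i : ι) (h : g i = 0) :
    Exec (.dec i) u g g := by
  apply Relation.ReflTransGen.single
  simp [sstep, Cmd.instr, ustep, h]

theorem exec_seq {a b : Cmd ι} {u : ℕ → Option Bool} {g g1 g2 : ι → ℕ} (h1 : Exec a u g g1)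
    (h2 : Exec b u g1 g2) : Exec (.seq a b) u g g2 := by
  have e1 : SR (.seq a b) u (seqPhi b.entry (some a.entry), g) (seqPhi b.entry none, g1) := by
    refine SR_lift (c := a) (c' := .seq a b) (seqPhi b.entry) ?_ h1
    intro s g
    simp only [seqPhi, sstep, Cmd.instr, ustep_map]
  have e2 : SR (.seq a b) u ((some b.entry).map Sum.inr, g1) ((none : Option b.Q).map Sum.inr, g2) := by
    refine SR_lift (c := b) (c' := .seq a b) (Option.map Sum.inr) ?_ h2
    intro s g
    simp only [Option.map_some, sstep, Cmd.instr, ustep_map]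
  exact Relation.ReflTransGen.trans e1 e2

theorem exec_loop_zero {c : Cmd ι} {u : ℕ → Option Bool} {g : ι → ℕ} {i : ι} (h : g i = 0) :
    Exec (.loop i c) u g g := by
  apply Relation.ReflTransGen.single
  change ustep u (.dec i (some (some c.entry)) none) g = _
  simp only [ustep, h, if_true]
  rfl

theorem exec_loop_succ {c : Cmd ι} {u : ℕ → Option Bool} {g g1 g2 : ι → ℕ} {i : ι} {k : ℕ}
    (h : g i = k + 1) (h1 : Exec c u (Function.update g i k) g1)
    (h2 : Exec (.loop i c) u g1 g2) : Exec (.loop i c) u g g2 := by
  refine Relation.ReflTransGen.head (b := ((some (some c.entry) : Option (Option c.Q)), Function.update g i k)) ?_ ?_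
  · change ustep u (.dec i (some (some c.entry)) none) g = _
    simp only [ustep, h]
    rfl
  · refine Relation.ReflTransGen.trans ?_ h2
    exact SR_lift (c := c) (c' := .loop i c) (fun o => (some o : Option (Option c.Q)))
      (by
        intro s g
        simp only [sstep, Cmd.instr, ustep_map]
        rfl) h1

theorem exec_ifr {a b : Cmd ι} {u : ℕ → Option Bool} {g g1 : ι → ℕ} {i : ι} {v : Bool}
    (hu : u (g i) = some v)
    (h : if v then Exec a u g g1 else Exec b u g g1) : Exec (.ifr i a b) u g g1 := by
  cases v with
  | true =>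
    rw [if_pos rfl] at h
    refine Relation.ReflTransGen.head
      (b := ((some (some (Sum.inl a.entry)) : Option (Option (a.Q ⊕ b.Q))), g)) ?_ ?_
    · change ustep u (.read i (some (some (Sum.inl a.entry))) (some (some (Sum.inr b.entry)))) g = _
      simp only [ustep, hu]
      rfl
    · exact SR_lift (c := a) (c' := .ifr i a b)
        (Option.map (fun s => (some (.inl s) : Option (a.Q ⊕ b.Q))))
        (by
          intro s g
          simp only [Option.map_some, sstep, Cmd.instr, ustep_map]) h
  | false =>
    rw [if_neg (by simp)] at h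
    refine Relation.ReflTransGen.head
      (b := ((some (some (Sum.inr b.entry)) : Option (Option (a.Q ⊕ b.Q))), g)) ?_ ?_
    · change ustep u (.read i (some (some (Sum.inl a.entry))) (some (some (Sum.inr b.entry)))) g = _
      simp only [ustep, hu]
      rfl
    · exact SR_lift (c := b) (c' := .ifr i a b)
        (Option.map (fun s => (some (.inr s) : Option (a.Q ⊕ b.Q))))
        (by
          intro s g
          simp only [Option.map_some, sstep, Cmd.instr, ustep_map]) h

theorem exec_rejz {u : ℕ → Option Bool} {g : ι → ℕ} {i : ι} {k : ℕ} (h : g i = k + 1) :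
    Exec (.rejz i) u g (Function.update g i k) := by
  apply Relation.ReflTransGen.single
  change ustep u (.dec i none (some false)) g = _
  simp only [ustep, h]
  rfl

/-- the command rejects -/
def Rejs (c : Cmd ι) (u : ℕ → Option Bool) (g : ι → ℕ) : Prop :=
  ∃ s g', SR c u (some c.entry, g) (some s, g') ∧ c.instr s = .rej

theorem rejs_rejz {u : ℕ → Option Bool} {g : ι → ℕ} {i : ι} (h : g i = 0) :
    Rejs (.rejz i) u g := by
  refine ⟨false, g, ?_, rfl⟩
  apply Relation.ReflTransGen.single
  change ustep u (.dec i none (some false)) g = _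
  simp only [ustep, h]
  rfl

theorem rejs_seq_right {a b : Cmd ι} {u : ℕ → Option Bool} {g g1 : ι → ℕ} (h1 : Exec a u g g1)
    (h2 : Rejs b u g1) : Rejs (.seq a b) u g := by
  obtain ⟨s, g', h3, h4⟩ := h2
  refine ⟨(Sum.inr s : a.Q ⊕ b.Q), g', ?_, ?_⟩
  · have e1 : SR (.seq a b) u (seqPhi b.entry (some a.entry), g) (seqPhi b.entry none, g1) := by
      refine SR_lift (c := a) (c' := .seq a b) (seqPhi b.entry) ?_ h1
      intro s g
      simp only [seqPhi, sstep, Cmd.instr, ustep_map]
    have e2 : SR (.seq a b) u ((some b.entry).map Sum.inr, g1) ((some s : Option b.Q).map Sum.inr, g') := by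
      refine SR_lift (c := b) (c' := .seq a b) (Option.map Sum.inr) ?_ h3
      intro s g
      simp only [Option.map_some, sstep, Cmd.instr, ustep_map]
    exact Relation.ReflTransGen.trans e1 e2
  · simp only [Cmd.instr, h4]
    rfl

theorem rejs_seq_left {a b : Cmd ι} {u : ℕ → Option Bool} {g : ι → ℕ}
    (h2 : Rejs a u g) : Rejs (.seq a b) u g := by
  obtain ⟨s, g', h3, h4⟩ := h2
  refine ⟨(Sum.inl s : a.Q ⊕ b.Q), g', ?_, ?_⟩
  · have e1 : SR (.seq a b) u (seqPhi b.entry (some a.entry), g) (seqPhi b.entry (some s), g') := by
      refine SR_lift (c := a) (c' := .seq a b) (seqPhi b.entry) ?_ h3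
      intro s g
      simp only [seqPhi, sstep, Cmd.instr, ustep_map]
    exact e1
  · simp only [Cmd.instr, h4]
    rfl

/-! ### derived commands -/

theorem exec_clear (u : ℕ → Option Bool) (i : ι) : ∀ (k : ℕ) (g : ι → ℕ), g i ≤ k →
    Exec (.loop i (.dec i)) u g (Function.update g i 0) := by
  intro k
  induction k with
  | zero =>
    intro g hg
    have h0 : g i = 0 := by omega
    exact (exec_loop_zero h0).congr (by rw [← h0]; simp)
  | succ k ih =>
    intro g hg
    cases hk : g i with
    | zero => exact (exec_loop_zero hk).congr (by rw [← hk]; simp)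
    | succ j =>
      refine (exec_loop_succ hk (exec_dec u _ i) (ih _ ?_)).congr ?_
      · simp; omega
      · simp

theorem exec_move (u : ℕ → Option Bool) {i a : ι} (hia : i ≠ a) : ∀ (k : ℕ) (g : ι → ℕ), g i = k →
    Exec (.loop i (.inc a)) u g (Function.update (Function.update g i 0) a (g a + k)) := by
  intro k
  induction k with
  | zero =>
    intro g hg
    refine (exec_loop_zero hg).congr ?_
    funext r
    by_cases h1 : r = a
    · subst h1; simp
    · by_cases h2 : r = i
      · subst h2; simp [h1, hg]
      · simp [h1, h2]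
  | succ k ih =>
    intro g hg
    refine (exec_loop_succ hg (exec_inc u _ a) (ih _ ?_)).congr ?_
    · simp [hia]
    · funext r
      by_cases h1 : r = a
      · subst h1
        simp [Ne.symm hia]; omega
      · by_cases h2 : r = i
        · subst h2; simp [h1]
        · simp [h1, h2]

theorem exec_move2 (u : ℕ → Option Bool) {i a b : ι} (hia : i ≠ a) (hib : i ≠ b) (hab : a ≠ b) :
    ∀ (k : ℕ) (g : ι → ℕ), g i = k →
    Exec (.loop i (.seq (.inc a) (.inc b))) u g
      (Function.update (Function.update (Function.update g i 0) a (g a + k)) b (g b + k)) := by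
  intro k
  induction k with
  | zero =>
    intro g hg
    refine (exec_loop_zero hg).congr ?_
    funext r
    by_cases h1 : r = b
    · subst h1; simp
    · by_cases h2 : r = a
      · subst h2; simp [h1]
      · by_cases h3 : r = i
        · subst h3; simp [h1, h2, hg]
        · simp [h1, h2, h3]
  | succ k ih =>
    intro g hg
    refine (exec_loop_succ hg (exec_seq (exec_inc u _ a) (exec_inc u _ b)) (ih _ ?_)).congr ?_
    · simp [hia, hib]
    · funext r
      by_cases h1 : r = b
      · subst h1
        simp [Ne.symm hib, Ne.symm hab]; omega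
      · by_cases h2 : r = a
        · subst h2; simp [h1, Ne.symm hia]; omega
        · by_cases h3 : r = i
          · subst h3; simp [h1, h2]
          · simp [h1, h2, h3]

def copyC (i o t : ι) : Cmd ι := .seq (.loop i (.seq (.inc t) (.inc o))) (.loop t (.inc i))

theorem exec_copy (u : ℕ → Option Bool) {i o t : ι} (hio : i ≠ o) (hit : i ≠ t) (hto : t ≠ o)
    (g : ι → ℕ) (ht : g t = 0) :
    Exec (copyC i o t) u g (Function.update g o (g o + g i)) := by
  refine (exec_seq (exec_move2 u hit hio hto (g i) g rfl) (exec_move u (Ne.symm hit) (g i) _ ?_)).congr ?_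
  · simp [hto, ht]
  · funext r
    by_cases h1 : r = o
    · subst h1; simp [Ne.symm hio, Ne.symm hto]
    · by_cases h2 : r = i
      · subst h2; simp [h1, hit]
      · by_cases h3 : r = t
        · subst h3; simp [h1, h2, ht]
        · simp [h1, h2, h3]

theorem exec_loop_iter {c : Cmd ι} {u : ℕ → Option Bool} {i : ι} (G : ℕ → (ι → ℕ)) :
    ∀ (n : ℕ), (∀ k ≤ n, G k i = k) →
      (∀ k < n, Exec c u (Function.update (G (k+1)) i k) (G k)) →
      Exec (.loop i c) u (G n) (G 0) := by
  intro n
  induction n with
  | zero => intro h _; exact exec_loop_zero (h 0 le_rfl)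
  | succ n ih =>
    intro h1 h2
    exact exec_loop_succ (h1 (n+1) le_rfl) (h2 n (by omega))
      (ih (fun k hk => h1 k (by omega)) (fun k hk => h2 k (by omega)))

end

/-! ### compilation of primitive recursive functions -/

def Compiles {n : ℕ} (f : List.Vector ℕ n → ℕ) : Prop :=
  ∃ s : ℕ, ∀ (K : ℕ) (ins : Fin n → Fin K) (out : Fin K) (base : ℕ),
    (∀ j, (ins j).val < base) → out.val < base → (∀ j, ins j ≠ out) → base + s ≤ K →
    ∃ c : Cmd (Fin K), ∀ (u : ℕ → Option Bool) (g : Fin K → ℕ), (∀ r : Fin K, base ≤ r.val → g r = 0) →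
      g out = 0 →
      Exec c u g (Function.update g out (f (List.Vector.ofFn (fun j => g (ins j)))))

theorem compiles_zero : Compiles (fun _ : List.Vector ℕ 0 => 0) := by
  refine ⟨0, ?_⟩
  intro K ins out base h1 h2 h3 h4
  refine ⟨.dec out, ?_⟩
  intro u g hg ho
  refine (exec_dec_zero u g out ho).congr ?_
  funext x
  by_cases hx : x = out
  · subst hx; simp [ho]
  · simp [hx]

theorem compiles_get {n : ℕ} (i : Fin n) : Compiles (fun v : List.Vector ℕ n => v.get i) := by
  refine ⟨1, ?_⟩
  intro K ins out base h1 h2 h3 h4
  refine ⟨copyC (ins i) out ⟨base, by omega⟩, ?_⟩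
  intro u g hg ho
  refine (exec_copy u (h3 i) ?_ ?_ g ?_).congr ?_
  · intro h; have := h1 i; rw [h] at this; simp at this
  · intro h; rw [← h] at h2; simp at h2
  · exact hg _ le_rfl
  · simp [ho]

theorem compiles_succ : Compiles (fun v : List.Vector ℕ 1 => Nat.succ v.head) := by
  refine ⟨1, ?_⟩
  intro K ins out base h1 h2 h3 h4
  refine ⟨.seq (copyC (ins 0) out ⟨base, by omega⟩) (.inc out), ?_⟩
  intro u g hg ho
  refine (exec_seq (exec_copy u (h3 0) ?_ ?_ g ?_) (exec_inc u _ out)).congr ?_
  · intro h; have := h1 0; rw [h] at this; simp at this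
  · intro h; rw [← h] at h2; simp at h2
  · exact hg _ le_rfl
  · simp [ho, ← List.Vector.get_zero]

theorem compiles_comp {m n : ℕ} {f : List.Vector ℕ n → ℕ} (g : Fin n → List.Vector ℕ m → ℕ)
    (hf : Compiles f) (hg : ∀ i, Compiles (g i)) :
    Compiles (fun a => f (List.Vector.ofFn (fun i => g i a))) := by
  obtain ⟨sf, hf⟩ := hf
  choose sg hg using hg
  refine ⟨n + sf + ∑ i, sg i, ?_⟩
  intro K ins out base h1 h2 h3 h4
  have hsg : ∀ i, sg i ≤ ∑ i, sg i := fun i =>
    Finset.single_le_sum (f := sg) (fun _ _ => Nat.zero_le _) (Finset.mem_univ i)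
  -- temporaries
  let t : Fin n → Fin K := fun j => ⟨base + j.val, by have := j.isLt; omega⟩
  -- computing the first j values
  have step1 : ∀ j : ℕ, j ≤ n → ∃ c : Cmd (Fin K), ∀ (u : ℕ → Option Bool) (r : Fin K → ℕ),
      (∀ x : Fin K, base ≤ x.val → r x = 0) → r out = 0 →
      Exec c u r (fun x => if h : base ≤ x.val ∧ x.val < base + j ∧ x.val - base < n then
        g ⟨x.val - base, h.2.2⟩ (List.Vector.ofFn (fun j => r (ins j))) else r x) := by
    intro j
    induction j with
    | zero =>
      intro _
      refine ⟨.dec out, fun u r hr ho => (exec_dec_zero u r out ho).congr ?_⟩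
      funext x
      rw [dif_neg]
      rintro ⟨a, b, _⟩; omega
    | succ j ih =>
      intro hj
      obtain ⟨c1, hc1⟩ := ih (by omega)
      obtain ⟨c2, hc2⟩ := hg ⟨j, by omega⟩ K ins (t ⟨j, by omega⟩) (base + n)
        (fun i => by have := h1 i; omega) (by simp only [t]; omega)
        (fun i h => by have := h1 i; rw [h] at this; simp [t] at this)
        (by have := hsg ⟨j, by omega⟩; omega)
      refine ⟨.seq c1 c2, fun u r hr ho => (exec_seq (hc1 u r hr ho) (hc2 u _ ?_ ?_)).congr ?_⟩
      · intro x hx
        rw [dif_neg]
        · exact hr x (by omega)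
        · rintro ⟨a, b, _⟩; omega
      · rw [dif_neg]
        · exact hr _ (by simp [t])
        · rintro ⟨a, b, _⟩; simp [t] at b
      · have hins : (fun i : Fin m => (if h : base ≤ (ins i).val ∧ (ins i).val < base + j ∧
            (ins i).val - base < n then
            g ⟨(ins i).val - base, h.2.2⟩ (List.Vector.ofFn (fun j => r (ins j))) else r (ins i))) =
            fun i => r (ins i) := by
          funext i
          rw [dif_neg]
          rintro ⟨a, b, _⟩; have := h1 i; omega
        rw [hins]
        funext x
        by_cases hx : x = t ⟨j, by omega⟩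
        · subst hx
          simp only [Function.update_self]
          rw [dif_pos ⟨by simp [t], by simp [t], by simp [t]; omega⟩]
          congr 1
          congr 1
          simp [t]
        · rw [Function.update_of_ne hx]
          have hx' : x.val ≠ base + j := by
            intro h; apply hx; apply Fin.ext; simp [t, h]
          by_cases hc : base ≤ x.val ∧ x.val < base + j ∧ x.val - base < n
          · rw [dif_pos hc, dif_pos ⟨hc.1, by omega, hc.2.2⟩]
          · rw [dif_neg hc, dif_neg]
            rintro ⟨a, b, c⟩
            exact hc ⟨a, by omega, c⟩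
  obtain ⟨c1, hc1⟩ := step1 n le_rfl
  obtain ⟨c2, hc2⟩ := hf K t out (base + n) (fun i => by simp [t]) (by omega)
    (fun i h => by rw [← h] at h2; simp [t] at h2) (by omega)
  -- clearing
  have step3 : ∀ j : ℕ, j ≤ n → ∃ c : Cmd (Fin K), ∀ (u : ℕ → Option Bool) (r : Fin K → ℕ),
      (∀ x : Fin K, base + n ≤ x.val → r x = 0) →
      Exec c u r (fun x => if base ≤ x.val ∧ x.val < base + j then 0 else r x) := by
    intro j
    induction j with
    | zero =>
      intro _
      refine ⟨.seq (.inc out) (.dec out), fun u r hr => (exec_seq (exec_inc u r out) (exec_dec u _ out)).congr ?_⟩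
      funext x
      rw [if_neg (by omega)]
      by_cases hx : x = out
      · subst hx; simp
      · simp [hx]
    | succ j ih =>
      intro hj
      obtain ⟨c1, hc1⟩ := ih (by omega)
      refine ⟨.seq c1 (.loop (t ⟨j, by omega⟩) (.dec (t ⟨j, by omega⟩))), fun u r hr =>
        (exec_seq (hc1 u r hr) (exec_clear u _ _ _ le_rfl)).congr ?_⟩
      funext x
      by_cases hx : x = t ⟨j, by omega⟩
      · subst hx
        simp only [Function.update_self]
        rw [if_pos]
        simp [t]
      · rw [Function.update_of_ne hx]
        have hx' : x.val ≠ base + j := by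
          intro h; apply hx; apply Fin.ext; simp [t, h]
        by_cases hc : base ≤ x.val ∧ x.val < base + j
        · rw [if_pos hc, if_pos ⟨hc.1, by omega⟩]
        · rw [if_neg hc, if_neg (by omega)]
  obtain ⟨c3, hc3⟩ := step3 n le_rfl
  refine ⟨.seq c1 (.seq c2 c3), fun u r hr ho =>
    (exec_seq (hc1 u r hr ho) (exec_seq (hc2 u _ ?_ ?_) (hc3 u _ ?_))).congr ?_⟩
  · intro x hx
    rw [dif_neg]
    · exact hr x (by omega)
    · rintro ⟨a, b, _⟩; omega
  · rw [dif_neg]
    · exact ho
    · rintro ⟨a, b, _⟩; omega
  · intro x hx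
    rw [Function.update_of_ne]
    · rw [dif_neg]
      · exact hr x (by omega)
      · rintro ⟨a, b, _⟩; omega
    · intro h; rw [h] at hx; omega
  · have ht : (fun j : Fin n => (if h : base ≤ (t j).val ∧ (t j).val < base + n ∧
        (t j).val - base < n then
        g ⟨(t j).val - base, h.2.2⟩ (List.Vector.ofFn (fun j => r (ins j))) else r (t j))) =
        fun i => g i (List.Vector.ofFn (fun j => r (ins j))) := by
      funext i
      rw [dif_pos ⟨by simp [t], by simp [t], by simp [t]⟩]
      congr 1
      simp [t]
    rw [ht]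
    funext x
    by_cases hx : x = out
    · subst hx
      rw [if_neg (by omega)]
      simp
    · rw [Function.update_of_ne hx]
      by_cases hc : base ≤ x.val ∧ x.val < base + n
      · rw [if_pos hc, Function.update_of_ne hx, hr x hc.1]
      · rw [if_neg hc, Function.update_of_ne hx, dif_neg]
        rintro ⟨a, b, _⟩
        exact hc ⟨a, b⟩

theorem compiles_prec {n : ℕ} {f : List.Vector ℕ n → ℕ} {g' : List.Vector ℕ (n+2) → ℕ}
    (hf : Compiles f) (hg : Compiles g') :
    Compiles (fun v : List.Vector ℕ (n+1) =>
      v.head.rec (f v.tail) fun y IH => g' (y ::ᵥ IH ::ᵥ v.tail)) := by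
  obtain ⟨sf, hf⟩ := hf
  obtain ⟨sg, hg⟩ := hg
  refine ⟨3 + sf + sg, ?_⟩
  intro K ins out base h1 h2 h3 h4
  let cnt : Fin K := ⟨base, by omega⟩
  let y : Fin K := ⟨base+1, by omega⟩
  let nw : Fin K := ⟨base+2, by omega⟩
  have hcy : cnt ≠ y := by intro h; simp [cnt, y] at h
  have hcn : cnt ≠ nw := by intro h; simp [cnt, nw] at h
  have hyn : y ≠ nw := by intro h; simp [y, nw] at h
  have hoc : out ≠ cnt := by intro h; rw [h] at h2; simp [cnt] at h2
  have hoy : out ≠ y := by intro h; rw [h] at h2; simp [y] at h2
  have hon : out ≠ nw := by intro h; rw [h] at h2; simp [nw] at h2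
  have hic : ∀ j, ins j ≠ cnt := by intro j h; have := h1 j; rw [h] at this; simp [cnt] at this
  have hiy : ∀ j, ins j ≠ y := by intro j h; have := h1 j; rw [h] at this; simp [y] at this
  have hin : ∀ j, ins j ≠ nw := by intro j h; have := h1 j; rw [h] at this; simp [nw] at this
  obtain ⟨c1, hc1⟩ := hf K (fun j => ins j.succ) out (base+3) (fun j => by have := h1 j.succ; omega)
    (by omega) (fun j => h3 j.succ) (by omega)
  obtain ⟨c2, hc2⟩ := hg K (Fin.cons y (Fin.cons out (fun j => ins j.succ))) nw (base+3)
    (by
      intro j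
      refine Fin.cases ?_ (fun j => ?_) j
      · simp [y]
      · refine Fin.cases ?_ (fun j => ?_) j
        · simp; omega
        · have := h1 j.succ
          simp; omega)
    (by simp [nw])
    (by
      intro j
      refine Fin.cases ?_ (fun j => ?_) j
      · simpa using hyn
      · refine Fin.cases ?_ (fun j => ?_) j
        · simpa using hon
        · simpa using hin j.succ)
    (by omega)
  refine ⟨.seq c1 (.seq (copyC (ins 0) cnt nw) (.seq (.loop cnt (.seq c2 (.seq (.loop out (.dec out))
    (.seq (.loop nw (.inc out)) (.inc y))))) (.loop y (.dec y)))), ?_⟩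
  intro u g hz ho
  set V := g (ins 0) with hV
  set tl : List.Vector ℕ n := List.Vector.ofFn (fun j => g (ins j.succ)) with htl
  set R : ℕ → ℕ := fun k => Nat.rec (f tl) (fun y IH => g' (y ::ᵥ IH ::ᵥ tl)) k with hR
  have hRs : ∀ k, R (k+1) = g' (k ::ᵥ R k ::ᵥ tl) := fun k => rfl
  let G : ℕ → (Fin K → ℕ) := fun k r =>
    if r = cnt then k else if r = y then V - k else if r = out then R (V - k) else g r
  have hgc : g cnt = 0 := hz _ (by simp [cnt])
  have hgy : g y = 0 := hz _ (by simp [y])
  have hgn : g nw = 0 := hz _ (by simp [nw])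
  have e1 : Exec c1 u g (Function.update g out (R 0)) := by
    refine (hc1 u g (fun r hr => hz r (by omega)) ho)
  have e2 : Exec (copyC (ins 0) cnt nw) u (Function.update g out (R 0)) (G V) := by
    refine (exec_copy u (hic 0) (hin 0) (Ne.symm hcn) _ ?_).congr ?_
    · rw [Function.update_of_ne (Ne.symm hon)]; exact hgn
    · funext r
      simp only [G]
      by_cases a1 : r = cnt
      · subst a1
        rw [Function.update_self, Function.update_of_ne (Ne.symm hoc), Function.update_of_ne (h3 0), hgc]
        simp [hV]
      · rw [Function.update_of_ne a1, if_neg a1]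
        by_cases a2 : r = y
        · subst a2
          rw [Function.update_of_ne (Ne.symm hoy), hgy, if_pos rfl]
          simp
        · rw [if_neg a2]
          by_cases a3 : r = out
          · subst a3; simp
          · rw [Function.update_of_ne a3, if_neg a3]
  have e3 : Exec (.loop cnt (.seq c2 (.seq (.loop out (.dec out))
    (.seq (.loop nw (.inc out)) (.inc y))))) u (G V) (G 0) := by
    apply exec_loop_iter
    · intro k _; simp [G]
    · intro k hk
      set a0 := Function.update (G (k+1)) cnt k with ha0
      have a0c : a0 cnt = k := by simp [ha0]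
      have a0y : a0 y = V - (k+1) := by
        rw [ha0, Function.update_of_ne (Ne.symm hcy)]
        simp [G, Ne.symm hcy]
      have a0o : a0 out = R (V - (k+1)) := by
        rw [ha0, Function.update_of_ne hoc]
        simp [G, hoc, hoy]
      have a0n : a0 nw = 0 := by
        rw [ha0, Function.update_of_ne (Ne.symm hcn)]
        simp [G, Ne.symm hcn, Ne.symm hyn, Ne.symm hon, hgn]
      have a0r : ∀ r, r ≠ cnt → r ≠ y → r ≠ out → a0 r = g r := by
        intro r b1 b2 b3
        rw [ha0, Function.update_of_ne b1]
        simp [G, b1, b2, b3]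
      have f1 := hc2 u a0 (by
        intro r hr
        rw [a0r]
        · exact hz r (by omega)
        · intro h; rw [h] at hr; simp [cnt] at hr
        · intro h; rw [h] at hr; simp [y] at hr
        · intro h; rw [h] at hr; omega) a0n
      have hvec : List.Vector.ofFn (fun j : Fin (n+2) => a0 ((Fin.cons y (Fin.cons out (fun j => ins j.succ)) : Fin (n+2) → Fin K) j)) =
          (V - (k+1)) ::ᵥ R (V - (k+1)) ::ᵥ tl := by
        apply List.Vector.ext
        intro j
        rw [List.Vector.get_ofFn]
        refine Fin.cases ?_ (fun j => ?_) j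
        · simp [a0y]
        · rw [List.Vector.get_cons_succ]
          refine Fin.cases ?_ (fun j => ?_) j
          · simp [a0o]
          · rw [List.Vector.get_cons_succ]
            simp only [Fin.cons_succ, htl, List.Vector.get_ofFn]
            exact a0r _ (hic _) (hiy _) (h3 _)
      rw [hvec, ← hRs] at f1
      have hVk : V - (k+1) + 1 = V - k := by omega
      rw [hVk] at f1
      have f2 := exec_clear u out _ (Function.update a0 nw (R (V-k))) le_rfl
      have f3 := exec_move u (i := nw) (a := out) (Ne.symm hon) (R (V-k))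
        (Function.update (Function.update a0 nw (R (V-k))) out 0) (by
          rw [Function.update_of_ne (Ne.symm hon)]; simp)
      have f4 := exec_inc u (Function.update (Function.update (Function.update (Function.update a0 nw (R (V-k))) out 0) nw 0) out
        ((Function.update (Function.update a0 nw (R (V-k))) out 0) out + R (V-k))) y
      refine (exec_seq f1 (exec_seq f2 (exec_seq f3 f4))).congr ?_
      funext r
      by_cases b2 : r = y
      · subst b2
        rw [Function.update_self, Function.update_of_ne (Ne.symm hoy), Function.update_of_ne hyn,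
          Function.update_of_ne (Ne.symm hoy), Function.update_of_ne hyn, a0y]
        simp [G, Ne.symm hcy]; omega
      · rw [Function.update_of_ne b2]
        by_cases b3 : r = out
        · subst b3
          rw [Function.update_self, Function.update_self]
          simp [G, hoc, hoy]
        · rw [Function.update_of_ne b3]
          by_cases b4 : r = nw
          · subst b4
            rw [Function.update_self]
            simp [G, Ne.symm hcn, Ne.symm hyn, Ne.symm hon, hgn]
          · rw [Function.update_of_ne b4, Function.update_of_ne b3, Function.update_of_ne b4]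
            by_cases b5 : r = cnt
            · subst b5; rw [a0c]; simp [G]
            · rw [a0r r b5 b2 b3]; simp [G, b5, b2, b3]
  refine (exec_seq e1 (exec_seq e2 (exec_seq e3 (exec_clear u y _ _ le_rfl)))).congr ?_
  funext r
  have hhead : (List.Vector.ofFn (fun j => g (ins j))).head = V := by
    rw [← List.Vector.get_zero, List.Vector.get_ofFn]
  have htail : (List.Vector.ofFn (fun j => g (ins j))).tail = tl := by
    apply List.Vector.ext
    intro j
    rw [List.Vector.get_tail_succ]
    simp [htl]
  beta_reduce
  rw [hhead, htail]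
  by_cases b2 : r = y
  · subst b2
    rw [Function.update_self, Function.update_of_ne (Ne.symm hoy), hgy]
  · rw [Function.update_of_ne b2]
    by_cases b3 : r = out
    · subst b3
      rw [Function.update_self]
      simp [G, hoc, hoy, hR]
    · rw [Function.update_of_ne b3]
      by_cases b5 : r = cnt
      · subst b5; rw [hgc]; simp [G]
      · simp [G, b5, b2, b3]

theorem compiles_primrec' {n : ℕ} {f : List.Vector ℕ n → ℕ} (h : Nat.Primrec' f) : Compiles f := by
  induction h with
  | zero => exact compiles_zero
  | succ => exact compiles_succ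
  | get i => exact compiles_get i
  | comp g _ _ hf hg => exact compiles_comp g hf hg
  | prec _ _ hf hg => exact compiles_prec hf hg

end H74
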