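import Pool.Agent.H74.Sim

set_option linter.unusedSectionVars false

namespace H74

theorem lexInd {α : Type*} (f g : α → ℕ) (P : α → Prop)
    (h : ∀ a, (∀ b, (f b < f a ∨ (f b ≤ f a ∧ g b < g a)) → P b) → P a) : ∀ a, P a := by
  have key : ∀ n m a, f a ≤ n → g a ≤ m → P a := by
    intro n
    induction n with
    | zero =>
      intro m
      induction m with
      | zero =>
        intro a ha hg
        apply h
        intro b hb
        omega
      | succ m ih =>
        intro a ha hg
        apply h
        intro b hb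
        apply ih <;> omega
    | succ n ihn =>
      intro m
      induction m with
      | zero =>
        intro a ha hg
        apply h
        intro b hb
        exact ihn (g b) b (by omega) le_rfl
      | succ m ih =>
        intro a ha hg
        apply h
        intro b hb
        by_cases hfb : f b < f a
        · exact ihn (g b) b (by omega) le_rfl
        · apply ih <;> omega
  exact fun a => key _ _ a le_rfl le_rfl

noncomputable section
variable {ι Q : Type} [DecidableEq ι] [Fintype ι] [DecidableEq Q]

variable {C : Code ι Q} {w : ℤ → Bool} {x : ℤ} {N : ℕ} {S : ℤ → Finset ι}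
    {H : ℤ → Hd ι Q} {lo hi : ℤ}

/-- remaining timer space -/
def tm (x : ℤ) (N : ℕ) (τ : ι) (f : ι → Option ℤ) : ℕ :=
  match f τ with
  | none => 0
  | some z => (x + N - z).toNat

theorem astep_meas {τ : ι} {ρ : Q → ℕ} (PO : ProgOK C τ ρ) {q q' : Q} {f f' : ι → Option ℤ}
    (hs : astep C w x N (q, f) = some (q', f')) (hf : ∀ i z, f i = some z → x ≤ z ∧ z < x + N) :
    tm x N τ f' < tm x N τ f ∨ (tm x N τ f' ≤ tm x N τ f ∧ ρ q' < ρ q) := by
  unfold astep at hs
  simp only at hs
  cases hq : C.prog q with
  | inc i q1 =>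
    simp only [hq] at hs
    cases hfi : f i with
    | none => simp [hfi] at hs
    | some z =>
      obtain ⟨hxz, hzN⟩ := hf _ _ hfi
      simp only [hfi] at hs
      split_ifs at hs with hlt
      · simp only [Option.some.injEq, Prod.mk.injEq] at hs
        obtain ⟨rfl, rfl⟩ := hs
        by_cases e : i = τ
        · subst e
          left
          simp only [tm, Function.update_self, hfi]
          omega
        · right
          refine ⟨?_, PO.inc_lt _ _ _ hq e⟩
          simp only [tm, Function.update_of_ne (Ne.symm e)]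
          exact le_rfl
      · simp only [Option.some.injEq, Prod.mk.injEq] at hs
        obtain ⟨rfl, rfl⟩ := hs
        right
        refine ⟨?_, PO.inc_ov _ _ _ hq⟩
        by_cases e : i = τ
        · subst e
          simp only [tm, Function.update_self, hfi]
          omega
        · simp only [tm, Function.update_of_ne (Ne.symm e)]
          exact le_rfl
  | dec i q1 q2 =>
    simp only [hq] at hs
    cases hfi : f i with
    | none => simp [hfi] at hs
    | some z =>
      simp only [hfi] at hs
      split_ifs at hs with hlt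
      · simp only [Option.some.injEq, Prod.mk.injEq] at hs
        obtain ⟨rfl, rfl⟩ := hs
        exact Or.inr ⟨le_rfl, (PO.dec_lt _ _ _ _ hq).2⟩
      · simp only [Option.some.injEq, Prod.mk.injEq] at hs
        obtain ⟨rfl, rfl⟩ := hs
        right
        refine ⟨?_, (PO.dec_lt _ _ _ _ hq).1⟩
        simp only [tm, Function.update_of_ne (Ne.symm (PO.dec_ne _ _ _ _ hq))]
        exact le_rfl
  | read i q1 q2 =>
    simp only [hq] at hs
    cases hfi : f i with
    | none => simp [hfi] at hs
    | some z =>
      simp only [hfi, Option.some.injEq, Prod.mk.injEq] at hs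
      obtain ⟨rfl, rfl⟩ := hs
      right
      refine ⟨le_rfl, ?_⟩
      have := PO.read_lt _ _ _ _ hq
      split_ifs
      · exact this.1
      · exact this.2
  | clr i q1 =>
    simp only [hq, Option.some.injEq, Prod.mk.injEq] at hs
    obtain ⟨rfl, rfl⟩ := hs
    right
    refine ⟨?_, PO.clr_lt _ _ _ hq⟩
    by_cases e : i = τ
    · subst e
      simp only [tm, Function.update_self]
      omega
    · simp only [tm, Function.update_of_ne (Ne.symm e)]
      exact le_rfl
  | fin => simp [hq] at hs
  | rej => simp [hq] at hs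

theorem AOk_step {c c' : Q × (ι → Option ℤ)} (h : astep C w x N c = some c') :
    AOk C w x N c ↔ AOk C w x N c' := by
  constructor
  · rintro ⟨q, h1, h2⟩
    refine ⟨q, ?_, h2⟩
    rcases Relation.ReflTransGen.cases_head h1 with e | ⟨z, hz, hz'⟩
    · subst e
      simp [astep, h2] at h
    · rw [h] at hz
      simp only [Option.some.injEq] at hz
      subst hz
      exact hz'
  · rintro ⟨q, h1, h2⟩
    exact ⟨q, Relation.ReflTransGen.head h h1, h2⟩

theorem compute_guard_aux (F : FrameCtx C w x N S H lo hi) {τ : ι} {ρ : Q → ℕ}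
    (PO : ProgOK C τ ρ) (t : Option ι) :
    ∀ c : Q × (ι → Option ℤ), AR C w x N (C.q0, fun _ => some x) c →
      (∀ i z, c.2 i = some z → x ≤ z ∧ z < x + N) →
      ∃ B : Prop, (cond C w S (x+1) (N-1) ∧ AOk C w x N c → B) ∧ (B → AOk C w x N c) ∧
        Guard C w B ⟨.go (.ret c.1 t), x, marks S c.2, H, lo, hi⟩
          ⟨.go (.rtoY (w x) ∅ t none), x+1, S, H, lo, hi⟩ := by
  apply lexInd (fun c => tm x N τ c.2) (fun c => ρ c.1)
  rintro ⟨q, f⟩ ih hr hf
  simp only at hf
  obtain ⟨r, hO, hr'⟩ := F.HO
  have hN1 := F.N1
  have hlo := F.hlo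
  have hhi := F.hhi
  cases hs : astep C w x N (q, f) with
  | none =>
    by_cases hq : C.prog q = .fin
    · have hfn := PO.fin_none w x N q f hr hq
      subst hfn
      have hok : AOk C w x N (q, fun _ => none) := ⟨q, Relation.ReflTransGen.refl, hq⟩
      refine ⟨True, fun _ => trivial, fun _ => hok, Guard.of_reaches ?_ trivial⟩
      simp only
      rw [marks_none]
      have hSx : S x = ∅ := F.S0 x (by omega) (by omega)
      apply reach1 (S' := S x) (h' := .O r) (d := .R)
      · simp [act, hO, goO, hr', retAct, hq, hSx]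
      · simp
      · simp
      · exact upd_same hO
      · simp; omega
      · simp; omega
    · refine ⟨False, ?_, fun h => h.elim, fun h => h.elim, fun _ => sim_stuck F t hf hs hq⟩
      rintro ⟨_, q1, h1, h2⟩
      rcases Relation.ReflTransGen.cases_head h1 with e | ⟨z, hz, _⟩
      · simp only [Prod.mk.injEq] at e
        rw [e.1] at hq
        exact hq h2
      · rw [hs] at hz; simp at hz
  | some c' =>
    obtain ⟨q', f'⟩ := c'
    obtain ⟨B1, a1, g1⟩ := sim_step F t hf hs
    obtain ⟨B2, a2, a3, g2⟩ := ih (q', f') (astep_meas PO hs hf)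
      (Relation.ReflTransGen.tail hr hs) (astep_range hs hf)
    refine ⟨B1 ∧ B2, ?_, ?_, g1.comp (fun _ => g2)⟩
    · rintro ⟨h1, h2⟩
      exact ⟨a1 h1, a2 ⟨h1, (AOk_step hs).1 h2⟩⟩
    · rintro ⟨_, h2⟩
      exact (AOk_step hs).2 (a3 h2)

theorem compute_guard (F : FrameCtx C w x N S H lo hi) {τ : ι} {ρ : Q → ℕ}
    (PO : ProgOK C τ ρ) (t : Option ι) :
      ∃ B : Prop, (cond C w S (x+1) (N-1) ∧ compok C w x N → B) ∧ (B → compok C w x N) ∧
        Guard C w B ⟨.go (.ret C.q0 t), x, marks S (fun _ => some x), H, lo, hi⟩
          ⟨.go (.rtoY (w x) ∅ t none), x+1, S, H, lo, hi⟩ := by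
  apply compute_guard_aux F PO t (C.q0, fun _ => some x) Relation.ReflTransGen.refl
  intro i z hz
  simp only [Option.some.injEq] at hz
  have := F.N1
  omega

end

end H74
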