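import Pool.Agent.H74.Prim

set_option linter.unusedSectionVars false
set_option linter.unusedVariables false

namespace H74

deriving instance Fintype for Val
deriving instance Fintype for Info
deriving instance Fintype for Hd
deriving instance Fintype for State

noncomputable section

variable {ι Q : Type} [DecidableEq ι] [Fintype ι] [DecidableEq Q] [Fintype Q]

/-- tape symbols of the machine -/
abbrev Sym (ι Q : Type) : Type := Bool × Finset ι × Hd ι Q

def eS (ι Q : Type) [DecidableEq ι] [Fintype ι] [DecidableEq Q] [Fintype Q] :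
    State ι Q ≃ Fin (Fintype.card (State ι Q)) := Fintype.equivFin _

def eT (ι Q : Type) [DecidableEq ι] [Fintype ι] [DecidableEq Q] [Fintype Q] :
    Sym ι Q ≃ Fin (Fintype.card (Sym ι Q)) := Fintype.equivFin _

def Mv.dir : Mv → Dir
  | .L => .left
  | .N => .stay
  | .R => .right

theorem Mv.dir_toInt (d : Mv) : d.dir.toInt = d.z := by cases d <;> rfl

/-- the Turing machine -/
def toTM (C : Code ι Q) : TM where
  q := Fintype.card (State ι Q)
  s := Fintype.card (Sym ι Q)
  δ := fun i a =>
    (act C ((eS ι Q).symm i) ((eT ι Q).symm a).1 ((eT ι Q).symm a).2.1 ((eT ι Q).symm a).2.2).map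
      (fun r => (eS ι Q r.1, eT ι Q (((eT ι Q).symm a).1, r.2.1, r.2.2.1), r.2.2.2.dir))

variable (C : Code ι Q) (w : ℤ → Bool)

def toCfg (c : Conf ι Q) : (toTM C).Cfg :=
  (eS ι Q c.st, fun z => eT ι Q (w (c.pos + z), c.S (c.pos + z), c.H (c.pos + z)))

theorem toTM_step (c : Conf ι Q) :
    (toTM C).step (toCfg C w c) = (step C w c).map (toCfg C w) := by
  unfold TM.step step
  simp only [toTM, toCfg, add_zero, Equiv.symm_apply_apply]
  cases h : act C c.st (w c.pos) (c.S c.pos) (c.H c.pos) with
  | none => simp
  | some r =>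
    obtain ⟨st', S', h', d⟩ := r
    simp only [Option.map_some, Option.some.injEq]
    refine Prod.ext rfl ?_
    funext z
    simp only [Mv.dir_toInt]
    change _ = eT ι Q (w (c.pos + d.z + z), Function.update c.S c.pos S' (c.pos + d.z + z),
      Function.update c.H c.pos h' (c.pos + d.z + z))
    by_cases hz : z + d.z = 0
    · rw [hz, Function.update_self]
      have e : c.pos + d.z + z = c.pos := by omega
      rw [e]; simp
    · rw [Function.update_of_ne hz]
      have e : c.pos + d.z + z ≠ c.pos := by omega
      rw [Function.update_of_ne e, Function.update_of_ne e]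
      have e2 : c.pos + (z + d.z) = c.pos + d.z + z := by ring
      rw [e2]

theorem toTM_run (c : Conf ι Q) (n : ℕ) :
    (toTM C).run (toCfg C w c) n = (runO C w c n).map (toCfg C w) := by
  induction n with
  | zero => rfl
  | succ n ih =>
    simp only [TM.run, runO, ih]
    cases runO C w c n with
    | none => rfl
    | some d => simp [toTM_step]

theorem immortal_iff (c : Conf ι Q) : toCfg C w c ∈ (toTM C).immortal ↔ ¬ Halts C w c := by
  constructor
  · intro h
    apply not_halts_of_runO
    intro n
    have := h n
    rw [toTM_run] at this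
    cases hr : runO C w c n with
    | none => rw [hr] at this; simp at this
    | some d => exact ⟨d, rfl⟩
  · intro h n
    obtain ⟨d, hd⟩ := runO_some_of_not_halts h n
    rw [toTM_run, hd]; simp

/-- the parts of a configuration of the Turing machine -/
def wOf (y : (toTM C).Cfg) (z : ℤ) : Bool := ((eT ι Q).symm (y.2 z)).1

def confOf (y : (toTM C).Cfg) : Conf ι Q :=
  ⟨(eS ι Q).symm y.1, 0, fun z => ((eT ι Q).symm (y.2 z)).2.1, fun z => ((eT ι Q).symm (y.2 z)).2.2, 0, 0⟩

theorem toCfg_confOf (y : (toTM C).Cfg) : toCfg C (wOf C y) (confOf C y) = y := by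
  unfold toCfg confOf wOf
  refine Prod.ext ?_ ?_
  · exact Equiv.apply_symm_apply (eS ι Q) y.1
  · funext z
    simp only [zero_add]
    exact Equiv.apply_symm_apply (eT ι Q) (y.2 z)

end

end H74
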