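import Pool.Agent.H74.Mach

set_option linter.unusedSectionVars false

namespace H74

noncomputable section
variable {ι Q : Type} [DecidableEq ι] [Fintype ι] [DecidableEq Q]

/-- centre difference of the window starting at `a` with `n` cells -/
def D (w : ℤ → Bool) : ℕ → ℤ → ℤ
  | 0, _ => 0
  | 1, _ => 0
  | n+2, a => D w n (a+1) + bi (w (a+n+1)) - bi (w a)

/-- bounded abstract machine on the block `[x, x+N)` -/
def astep (C : Code ι Q) (w : ℤ → Bool) (x : ℤ) (N : ℕ) (c : Q × (ι → Option ℤ)) :
    Option (Q × (ι → Option ℤ)) :=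
  match C.prog c.1 with
  | .inc i q' =>
    match c.2 i with
    | none => none
    | some z => if z + 1 < x + N then some (q', Function.update c.2 i (some (z+1)))
        else some (C.qov, Function.update c.2 i none)
  | .dec i q' q'' =>
    match c.2 i with
    | none => none
    | some z => if z = x then some (q'', c.2) else some (q', Function.update c.2 i (some (z-1)))
  | .read i q1 q0 =>
    match c.2 i with
    | none => none
    | some z => some (if w z then q1 else q0, c.2)
  | .clr i q' => some (q', Function.update c.2 i none)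
  | .fin => none
  | .rej => none

def AR (C : Code ι Q) (w : ℤ → Bool) (x : ℤ) (N : ℕ) :
    (Q × (ι → Option ℤ)) → (Q × (ι → Option ℤ)) → Prop :=
  Relation.ReflTransGen (fun c c' => astep C w x N c = some c')

def AOk (C : Code ι Q) (w : ℤ → Bool) (x : ℤ) (N : ℕ) (c : Q × (ι → Option ℤ)) : Prop :=
  ∃ q, AR C w x N c (q, fun _ => none) ∧ C.prog q = .fin

def compok (C : Code ι Q) (w : ℤ → Bool) (x : ℤ) (N : ℕ) : Prop :=
  AOk C w x N (C.q0, fun _ => some x)

def winok (C : Code ι Q) (w : ℤ → Bool) (S : ℤ → Finset ι) (a : ℤ) (m : ℕ) : Prop :=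
  (-2 ≤ D w m a ∧ D w m a ≤ 2) ∧
  (∀ z z', a ≤ z → z < z' → z' < a + m → Disjoint (S z) (S z')) ∧
  (2 ≤ m → (∀ z, a ≤ z → z < a + m → S z = ∅) → compok C w a (m-1))

def cond (C : Code ι Q) (w : ℤ → Bool) (S : ℤ → Finset ι) (x : ℤ) (n : ℕ) : Prop :=
  ∀ (a : ℤ) (m : ℕ), x ≤ a → a + m ≤ x + n → winok C w S a m

structure ProgOK (C : Code ι Q) (τ : ι) (ρ : Q → ℕ) : Prop where
  fin_q : C.prog C.qfin = .fin
  inc_ov : ∀ q i q', C.prog q = .inc i q' → ρ C.qov < ρ q
  inc_lt : ∀ q i q', C.prog q = .inc i q' → i ≠ τ → ρ q' < ρ q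
  dec_ne : ∀ q i q' q'', C.prog q = .dec i q' q'' → i ≠ τ
  dec_lt : ∀ q i q' q'', C.prog q = .dec i q' q'' → ρ q' < ρ q ∧ ρ q'' < ρ q
  read_lt : ∀ q i q' q'', C.prog q = .read i q' q'' → ρ q' < ρ q ∧ ρ q'' < ρ q
  clr_lt : ∀ q i q', C.prog q = .clr i q' → ρ q' < ρ q
  fin_none : ∀ w x N q f, AR C w x N (C.q0, fun _ => some x) (q, f) → C.prog q = .fin →
    f = fun _ => none

def Vl (w : ℤ → Bool) (S : ℤ → Finset ι) (x : ℤ) (n : ℕ) : Val ι :=
  ⟨enc (D w n x), (Finset.Ico x (x + n)).biUnion S⟩

def updn (r : Info ι Q) (w : ℤ → Bool) (S : ℤ → Finset ι) (x : ℤ) (n : ℕ) : Info ι Q :=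
  if n = 0 then r else upd r (Vl w S x n)

def CrossR (C : Code ι Q) (w : ℤ → Bool) (n : ℕ) : Prop :=
  ∀ (r : Info ι Q) (x y : ℤ) (S : ℤ → Finset ι) (H : ℤ → Hd ι Q) (lo hi : ℤ),
    y = x + n → dirR r = true →
    (∀ z, x ≤ z → z < y → H z = .B ∧ ¬ tin (target C r) (S z)) →
    (H y ≠ .B ∨ tin (target C r) (S y)) → lo ≤ x → x ≤ hi →
    Guard C w (cond C w S x n) ⟨.go r, x, S, H, lo, hi⟩
      ⟨.go (updn r w S x n), y, S, H, lo, max hi y⟩

def CrossL (C : Code ι Q) (w : ℤ → Bool) (n : ℕ) : Prop :=
  ∀ (r : Info ι Q) (p y : ℤ) (S : ℤ → Finset ι) (H : ℤ → Hd ι Q) (lo hi : ℤ),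
    p = y + n → dirR r = false →
    (∀ z, y < z → z ≤ p → H z = .B) →
    H y ≠ .B → lo ≤ p → p ≤ hi →
    Guard C w (cond C w S (y+1) (n-1) ∧ ∀ z, y < z → z ≤ p → ¬ bad r (S z))
      ⟨.go r, p, S, H, lo, hi⟩ ⟨.go r, y, S, H, min lo y, hi⟩

/-! ### basic lemmas -/

theorem winok_zero (C : Code ι Q) (w : ℤ → Bool) (S : ℤ → Finset ι) (a : ℤ) :
    winok C w S a 0 := by
  refine ⟨by simp [D], fun z z' h1 h2 h3 => ?_, fun h => by omega⟩
  exfalso; push_cast at h3; omega

theorem winok_one (C : Code ι Q) (w : ℤ → Bool) (S : ℤ → Finset ι) (a : ℤ) :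
    winok C w S a 1 := by
  refine ⟨by simp [D], fun z z' h1 h2 h3 => ?_, fun h => by omega⟩
  exfalso; push_cast at h3; omega

theorem cond_mono {C : Code ι Q} {w : ℤ → Bool} {S : ℤ → Finset ι} {x x' : ℤ} {n n' : ℕ}
    (h : cond C w S x n) (hh : ∀ z, x' ≤ z → z < x' + n' → x ≤ z ∧ z < x + n) :
    cond C w S x' n' := by
  intro a m h1 h2
  rcases Nat.eq_zero_or_pos m with hm | hm
  · subst hm; exact winok_zero _ _ _ _
  · apply h a m
    · exact (hh a h1 (by omega)).1
    · have := (hh (a+m-1) (by omega) (by omega)).2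
      omega

theorem cond_zero (C : Code ι Q) (w : ℤ → Bool) (S : ℤ → Finset ι) (x : ℤ) :
    cond C w S x 0 := by
  intro a m h1 h2
  have : m = 0 := by push_cast at h2; omega
  subst this; exact winok_zero _ _ _ _

theorem upd_same {α β : Type*} [DecidableEq α] {f : α → β} {a : α} {b : β} (h : f a = b) :
    f = Function.update f a b := by
  subst h; simp

def marks (S : ℤ → Finset ι) (f : ι → Option ℤ) (z : ℤ) : Finset ι :=
  S z ∪ Finset.univ.filter (fun i => f i = some z)

theorem mem_marks {S : ℤ → Finset ι} {f : ι → Option ℤ} {z : ℤ} (h : S z = ∅) {i : ι} :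
    i ∈ marks S f z ↔ f i = some z := by
  simp [marks, h]

theorem marks_none (S : ℤ → Finset ι) : marks S (fun _ => none) = S := by
  funext z; simp [marks]

theorem marks_erase {S : ℤ → Finset ι} {f : ι → Option ℤ} {z : ℤ} {i : ι} (h : S z = ∅)
    (hf : f i = some z) :
    Function.update (marks S f) z ((marks S f z).erase i) = marks S (Function.update f i none) := by
  funext y
  by_cases hy : y = z
  · subst hy
    ext j
    simp only [Function.update_self, Finset.mem_erase, mem_marks h]
    by_cases hj : j = i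
    · subst hj; simp
    · simp [hj]
  · ext j
    simp only [Function.update_of_ne hy, marks, Finset.mem_union, Finset.mem_filter,
      Finset.mem_univ, true_and]
    by_cases hj : j = i
    · subst hj; simp [hf, Ne.symm hy]
    · simp [hj]

theorem marks_insert {S : ℤ → Finset ι} {f : ι → Option ℤ} {z : ℤ} {i : ι}
    (hf : f i = none) :
    Function.update (marks S f) z (insert i (marks S f z)) =
      marks S (Function.update f i (some z)) := by
  funext y
  by_cases hy : y = z
  · subst hy
    ext j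
    simp only [Function.update_self, Finset.mem_insert, marks, Finset.mem_union,
      Finset.mem_filter, Finset.mem_univ, true_and]
    by_cases hj : j = i
    · subst hj; simp
    · simp [hj]
  · ext j
    simp only [Function.update_of_ne hy, marks, Finset.mem_union, Finset.mem_filter,
      Finset.mem_univ, true_and]
    by_cases hj : j = i
    · subst hj; simp [hf, Ne.symm hy]
    · simp [hj]

theorem cond_marks {C : Code ι Q} {w : ℤ → Bool} {S : ℤ → Finset ι} {x : ℤ} {N n : ℕ}
    (f : ι → Option ℤ)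
    (hS : ∀ z, x ≤ z → z ≤ x + N → S z = ∅) (h : cond C w S (x+1) (N-1)) (hn : n ≤ N - 1)
    (hN : 1 ≤ N) : cond C w (marks S f) (x+1) n := by
  intro a m h1 h2
  have hw := h a m h1 (by omega)
  refine ⟨hw.1, ?_, ?_⟩
  · intro z z' hz hzz hz'
    rw [Finset.disjoint_left]
    intro i hi hi'
    rw [mem_marks (hS z (by omega) (by omega))] at hi
    rw [mem_marks (hS z' (by omega) (by omega))] at hi'
    rw [hi] at hi'
    simp at hi'
    omega
  · intro h2' _
    apply hw.2.2 h2'
    intro z hz hz'
    exact hS z (by omega) (by omega)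

theorem astep_range {C : Code ι Q} {w : ℤ → Bool} {x : ℤ} {N : ℕ}
    {q q' : Q} {f f' : ι → Option ℤ}
    (h : astep C w x N (q, f) = some (q', f')) (hf : ∀ i z, f i = some z → x ≤ z ∧ z < x + N) :
    ∀ i z, f' i = some z → x ≤ z ∧ z < x + N := by
  unfold astep at h
  intro j z hj
  simp only at h
  cases hq : C.prog q with
  | inc i q1 =>
    simp only [hq] at h
    cases hfi : f i with
    | none => simp [hfi] at h
    | some z0 =>
      have := hf _ _ hfi
      simp only [hfi] at h
      split_ifs at h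
      · simp only [Option.some.injEq, Prod.mk.injEq] at h; obtain ⟨_, rfl⟩ := h
        by_cases e : j = i
        · subst e; simp at hj; omega
        · simp [e] at hj; exact hf _ _ hj
      · simp only [Option.some.injEq, Prod.mk.injEq] at h; obtain ⟨_, rfl⟩ := h
        by_cases e : j = i
        · subst e; simp at hj
        · simp [e] at hj; exact hf _ _ hj
  | dec i q1 q2 =>
    simp only [hq] at h
    cases hfi : f i with
    | none => simp [hfi] at h
    | some z0 =>
      have := hf _ _ hfi
      simp only [hfi] at h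
      split_ifs at h
      · simp only [Option.some.injEq, Prod.mk.injEq] at h; obtain ⟨_, rfl⟩ := h
        exact hf _ _ hj
      · simp only [Option.some.injEq, Prod.mk.injEq] at h; obtain ⟨_, rfl⟩ := h
        by_cases e : j = i
        · subst e; simp at hj; omega
        · simp [e] at hj; exact hf _ _ hj
  | read i q1 q2 =>
    simp only [hq] at h
    cases hfi : f i with
    | none => simp [hfi] at h
    | some z0 =>
      simp only [hfi, Option.some.injEq, Prod.mk.injEq] at h; obtain ⟨_, rfl⟩ := h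
      exact hf _ _ hj
  | clr i q1 =>
    simp only [hq, Option.some.injEq, Prod.mk.injEq] at h; obtain ⟨_, rfl⟩ := h
    by_cases e : j = i
    · subst e; simp at hj
    · simp [e] at hj; exact hf _ _ hj
  | fin => simp [hq] at h
  | rej => simp [hq] at h

end

end H74
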