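import Pool.Agent.H74.Frame

set_option linter.unusedSectionVars false

namespace H74

noncomputable section
variable {ι Q : Type} [DecidableEq ι] [Fintype ι] [DecidableEq Q]

variable {C : Code ι Q} {w : ℤ → Bool}

theorem Vl_one (w : ℤ → Bool) (S : ℤ → Finset ι) (x : ℤ) : Vl w S x 1 = ⟨2, S x⟩ := by
  unfold Vl
  congr 1
  ext i
  simp only [Finset.mem_biUnion, Finset.mem_Ico]
  constructor
  · rintro ⟨a, ⟨h1, h2⟩, h3⟩
    have : a = x := by push_cast at h2; omega
    rw [← this]; exact h3
  · intro h; exact ⟨x, ⟨le_rfl, by simp⟩, h⟩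

theorem target_upd (r : Info ι Q) (v : Val ι) : target C (upd r v) = target C r := by
  cases r with
  | rtoY w0 S0 t val => cases val <;> rfl
  | _ => rfl

theorem dirR_upd (r : Info ι Q) (v : Val ι) : dirR (upd r v) = dirR r := by
  cases r with
  | rtoY w0 S0 t val => cases val <;> rfl
  | _ => rfl

theorem upd_upd (r : Info ι Q) (v v' : Val ι) : upd (upd r v) v' = upd r v := by
  cases r with
  | rtoY w0 S0 t val => cases val <;> rfl
  | _ => rfl

/-- the right frame grows up to size `n` -/
theorem frameR_grow {τ : ι} {ρ : Q → ℕ} (PO : ProgOK C τ ρ) {N : ℕ}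
    (IH : ∀ m < N, CrossR C w m ∧ CrossL C w m)
    {r : Info ι Q} (hr : dirR r = true) (t : Option ι) {x : ℤ} {S : ℤ → Finset ι}
    {H : ℤ → Hd ι Q} {lo hi : ℤ} (hlo : lo ≤ x) :
    ∀ n : ℕ, n ≤ N →
    (∀ z, x < z → z ≤ x + n → H z = .B ∧ ¬ tin t (S z)) →
    Guard C w (∀ k : ℕ, 1 ≤ k → k ≤ n → cond C w S (x+1) (k-1) ∧ winok C w S x (k+1))
      ⟨.incR (Vl w S x 1) t, x+(1:ℕ), S, Function.update H x (.O r), lo, max hi (x+(1:ℕ))⟩
      ⟨.incR (Vl w S x (n+1)) t, x+(n+1:ℕ), S, Function.update H x (.O r), lo, max hi (x+(n+1:ℕ))⟩ := by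
  intro n
  induction n with
  | zero =>
    intro _ _
    apply Guard.of_reaches
    · exact Reaches.refl _
    · intro k h1 h2; omega
  | succ n ih =>
    intro hn hB
    have g1 := ih (by omega) (fun z h1 h2 => hB z h1 (by push_cast; omega))
    have g2 := frameR_step (x := x) (S := S) (H := H) PO (n := n+1) (by omega)
      (fun m hm => IH m (by omega)) hr t (hi := max hi (x+(n+1:ℕ))) hlo
      (le_max_right _ _) (fun z h1 h2 => (hB z h1 h2).1) (hB _ (by omega) le_rfl).2
    have e : max (max hi (x+(n+1:ℕ))) (x + (n+1+1:ℕ)) = max hi (x + (n+1+1:ℕ)) := by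
      push_cast; omega
    rw [e] at g2
    refine (g1.comp (fun _ => g2)).congr ?_
    constructor
    · rintro ⟨h1, h2⟩ k hk1 hk2
      by_cases e : k = n + 1
      · subst e; exact h2
      · exact h1 k hk1 (by omega)
    · intro h
      exact ⟨fun k h1 h2 => h k h1 (by omega), h (n+1) (by omega) le_rfl⟩

theorem launchR {r : Info ι Q} (hr : dirR r = true) {x : ℤ} {S : ℤ → Finset ι}
    {H : ℤ → Hd ι Q} {lo hi : ℤ} (hlo : lo ≤ x) (hB : H x = .B)
    (ht : ¬ tin (target C r) (S x)) :
    Reaches C w ⟨.go r, x, S, H, lo, hi⟩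
      ⟨.incR (Vl w S x 1) (target C r), x+(1:ℕ), S, Function.update H x (.O r), lo, max hi (x+(1:ℕ))⟩ := by
  apply reach1 (S' := S x) (h' := .O r) (d := .R)
  · have hb : ¬ bad r (S x) := by
      cases r <;> simp_all [bad, dirR]
    simp only [act, hB, if_neg ht, launch, if_neg hb, if_pos hr, Vl_one]
  · simp
  · simp
  · rfl
  · simp; omega
  · simp

theorem crossR_of {τ : ι} {ρ : Q → ℕ} (PO : ProgOK C τ ρ) {n : ℕ}
    (IH : ∀ m < n, CrossR C w m ∧ CrossL C w m) : CrossR C w n := by
  intro r x y S H lo hi hy hr hB hstop hlo hhi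
  rcases Nat.eq_zero_or_pos n with hn | hn
  · subst hn
    have e : y = x := by simpa using hy
    subst e
    apply Guard.of_reaches _ (cond_zero _ _ _ _)
    rw [max_eq_left hhi]
    simp only [updn, if_true]
    exact Reaches.refl _
  · obtain ⟨k, rfl⟩ : ∃ k, n = k + 1 := ⟨n - 1, by omega⟩
    have hBx := hB x le_rfl (by omega)
    have r1 := launchR (C := C) (w := w) hr (S := S) (H := H) (hi := hi) hlo hBx.1 hBx.2
    have g2 := frameR_grow (x := x) (S := S) (H := H) (hi := hi) (lo := lo) PO (N := k)
      (fun m hm => IH m (by omega)) hr (target C r) hlo k le_rfl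
      (fun z h1 h2 => hB z (by omega) (by omega))
    rw [← hy] at g2
    -- wall at y
    have hxy : y ≠ x := by omega
    have H0x : (Function.update H x (Hd.O r)) x = .O r := by simp
    have H0y : (Function.update H x (Hd.O r)) y = H y := Function.update_of_ne hxy _ _
    have r3 : Reaches C w
        ⟨.incR (Vl w S x (k+1)) (target C r), y, S, Function.update H x (.O r), lo, max hi y⟩
        ⟨.go (.rclean (Vl w S x (k+1)) (target C r)), y - 1, S, Function.update H x (.O r), lo,
          max hi y⟩ := by
      apply reach1 (S' := S y) (h' := H y) (d := .L)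
      · simp only [act, H0y]
        rw [if_neg]
        rintro ⟨h1, h2⟩
        rcases hstop with h | h
        · exact h h1
        · exact h2 h
      · simp; omega
      · simp
      · exact upd_same H0y
      · simp; omega
      · simp
    have g4 := (IH k (by omega)).2 (.rclean (Vl w S x (k+1)) (target C r)) (y-1) x S
      (Function.update H x (.O r)) lo (max hi y) (by omega) rfl
      (fun z h1 h2 => by
        rw [Function.update_of_ne (by omega)]; exact (hB z (by omega) (by omega)).1)
      (by simp) (by omega) (by omega)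
    rw [min_eq_left hlo] at g4
    have r5 : Reaches C w ⟨.go (.rclean (Vl w S x (k+1)) (target C r)), x, S,
        Function.update H x (.O r), lo, max hi y⟩
        ⟨.go (upd r (Vl w S x (k+1))), x+1, S, H, lo, max hi y⟩ := by
      apply reach1 (S' := S x) (h' := .B) (d := .R)
      · simp [act, goO, hr]
      · simp
      · simp
      · rw [Function.update_idem]; exact upd_same hBx.1
      · simp; omega
      · simp; omega
    have g6 := (IH k (by omega)).1 (upd r (Vl w S x (k+1))) (x+1) y S H lo (max hi y) (by omega)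
      (by rw [dirR_upd]; exact hr)
      (fun z h1 h2 => by rw [target_upd]; exact hB z (by omega) h2)
      (by rw [target_upd]; exact hstop) (by omega) (by omega)
    have e1 : updn (upd r (Vl w S x (k+1))) w S (x+1) k = updn r w S x (k+1) := by
      by_cases hk0 : k = 0
      · subst hk0; simp [updn]
      · simp [updn, hk0, upd_upd]
    rw [e1, max_eq_left (le_max_right hi y)] at g6
    have G := Guard.head r1 (g2.comp (fun _ => Guard.head r3 (g4.comp (fun _ => Guard.head r5 g6))))
    refine G.congr ?_
    constructor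
    · rintro ⟨h1, _, h2⟩ a m ha hm
      by_cases hax : a = x
      · subst hax
        rcases Nat.lt_or_ge m 2 with hm2 | hm2
        · interval_cases m
          · exact winok_zero _ _ _ _
          · exact winok_one _ _ _ _
        · obtain ⟨j, rfl⟩ : ∃ j, m = j + 1 := ⟨m - 1, by omega⟩
          exact (h1 j (by omega) (by omega)).2
      · exact h2 a m (by omega) (by push_cast at hm ⊢; omega)
    · intro h
      refine ⟨?_, ⟨?_, ?_⟩, ?_⟩
      · intro j hj1 hj2
        refine ⟨cond_mono h (fun z h1 h2 => ⟨by omega, by push_cast; omega⟩), ?_⟩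
        exact h x (j+1) le_rfl (by push_cast; omega)
      · exact cond_mono h (fun z h1 h2 => ⟨by omega, by push_cast; omega⟩)
      · intro z h1 h2
        simp only [bad]
        exact (hB z (by omega) (by omega)).2
      · exact cond_mono h (fun z h1 h2 => ⟨by omega, by push_cast; omega⟩)

/-! ### left frames -/

theorem frameL_step {n : ℕ} (hn : 1 ≤ n)
    (IH : ∀ m < n, CrossR C w m ∧ CrossL C w m)
    {r : Info ι Q} (hr : dirR r = false) {p : ℤ} {S : ℤ → Finset ι}
    {H : ℤ → Hd ι Q} {lo hi : ℤ} (hlo : lo ≤ p - n) (hhi : p ≤ hi)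
    (hB : ∀ z, p - n ≤ z → z < p → H z = .B) :
    Guard C w (cond C w S (p-n+1) (n-1))
      ⟨.incL, p-n, S, Function.update H p (.O r), lo, hi⟩
      ⟨.incL, p-(n+1:ℕ), S, Function.update H p (.O r), min lo (p-(n+1:ℕ)), hi⟩ := by
  have hpn : p - n ≠ p := by omega
  have hpn' : p ≠ p - n := by omega
  set H0 := Function.update H p (Hd.O r) with hH0
  set H1 := Function.update H0 (p-n) (Hd.EL) with hH1
  have H1p : H1 p = .O r := by simp [hH1, hH0, Function.update_of_ne hpn']
  have H1e : H1 (p-n) = .EL := by simp [hH1]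
  have H1b : ∀ z, p - n < z → z < p → H1 z = .B := by
    intro z h1 h2
    rw [hH1, Function.update_of_ne (by omega), hH0, Function.update_of_ne (by omega)]
    exact hB z (by omega) h2
  have H0e : H0 (p-n) = .B := by
    rw [hH0, Function.update_of_ne hpn]; exact hB _ (by omega) (by omega)
  have r1 : Reaches C w ⟨.incL, p-n, S, H0, lo, hi⟩
      ⟨.go .lback, p-n+1, S, H1, lo, hi⟩ := by
    apply reach1 (S' := S (p-n)) (h' := .EL) (d := .R)
    · simp only [act]
      rw [if_pos H0e]
    · simp
    · simp
    · rfl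
    · simp; omega
    · simp; omega
  have g2 := (IH (n-1) (by omega)).1 .lback (p-n+1) p S H1 lo hi (by omega) rfl
    (fun z h1 h2 => ⟨H1b z (by omega) (by omega), by simp [target, tin]⟩) (by simp [H1p])
    (by omega) (by omega)
  rw [max_eq_left hhi] at g2
  have e : updn (ι := ι) (Q := Q) .lback w S (p-n+1) (n-1) = .lback := by
    unfold updn; split_ifs <;> simp [upd]
  rw [e] at g2
  have r3 : Reaches C w ⟨.go .lback, p, S, H1, lo, hi⟩
      ⟨.go .ltoY, p-1, S, H1, lo, hi⟩ := by
    apply reach1 (S' := S p) (h' := .O r) (d := .L)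
    · simp [act, H1p, goO, hr]
    · simp; omega
    · simp
    · exact upd_same H1p
    · simp; omega
    · simp; omega
  have g4 := (IH (n-1) (by omega)).2 .ltoY (p-1) (p-n) S H1 lo hi (by omega) rfl
    (fun z h1 h2 => H1b z (by omega) (by omega)) (by simp [H1e]) (by omega) (by omega)
  rw [min_eq_left (by omega)] at g4
  have r5 : Reaches C w ⟨.go .ltoY, p-n, S, H1, lo, hi⟩
      ⟨.incL, p-(n+1:ℕ), S, H0, min lo (p-(n+1:ℕ)), hi⟩ := by
    apply reach1 (S' := S (p-n)) (h' := .B) (d := .L)
    · simp [act, H1e, goEL]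
    · simp; omega
    · simp
    · rw [hH1, Function.update_idem]; exact upd_same H0e
    · simp; omega
    · simp; omega
  have G := Guard.head r1 (g2.comp (fun _ => Guard.head r3 (g4.comp
    (fun _ => Guard.of_reaches r5 trivial))))
  refine G.congr ?_
  constructor
  · rintro ⟨h, _⟩; exact h
  · intro h
    refine ⟨h, ⟨?_, ?_⟩, trivial⟩
    · exact cond_mono h (fun z h1 h2 => ⟨by omega, by omega⟩)
    · intro z _ _; simp [bad]

theorem frameL_grow {N : ℕ}
    (IH : ∀ m < N, CrossR C w m ∧ CrossL C w m)
    {r : Info ι Q} (hr : dirR r = false) {p : ℤ} {S : ℤ → Finset ι}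
    {H : ℤ → Hd ι Q} {lo hi : ℤ} (hhi : p ≤ hi) :
    ∀ n : ℕ, n ≤ N →
    (∀ z, p - n ≤ z → z < p → H z = .B) →
    Guard C w (∀ k : ℕ, 1 ≤ k → k ≤ n → cond C w S (p-k+1) (k-1))
      ⟨.incL, p-(1:ℕ), S, Function.update H p (.O r), min lo (p-(1:ℕ)), hi⟩
      ⟨.incL, p-(n+1:ℕ), S, Function.update H p (.O r), min lo (p-(n+1:ℕ)), hi⟩ := by
  intro n
  induction n with
  | zero =>
    intro _ _
    apply Guard.of_reaches
    · exact Reaches.refl _
    · intro k h1 h2; omega
  | succ n ih =>
    intro hn hB
    have g1 := ih (by omega) (fun z h1 h2 => hB z (by push_cast at h1 ⊢; omega) h2)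
    have g2 := frameL_step (p := p) (S := S) (H := H) (C := C) (w := w) (n := n+1) (by omega)
      (fun m hm => IH m (by omega)) hr (lo := min lo (p-(n+1:ℕ))) (hi := hi)
      (min_le_right _ _) hhi hB
    have e : min (min lo (p-(n+1:ℕ))) (p - (n+1+1:ℕ)) = min lo (p - (n+1+1:ℕ)) := by
      push_cast; omega
    rw [e] at g2
    refine (g1.comp (fun _ => g2)).congr ?_
    constructor
    · rintro ⟨h1, h2⟩ k hk1 hk2
      by_cases e : k = n + 1
      · subst e; exact h2
      · exact h1 k hk1 (by omega)
    · intro h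
      exact ⟨fun k h1 h2 => h k h1 (by omega), h (n+1) (by omega) le_rfl⟩

theorem launchL {r : Info ι Q} (hr : dirR r = false) {p : ℤ} {S : ℤ → Finset ι}
    {H : ℤ → Hd ι Q} {lo hi : ℤ} (hhi : p ≤ hi) (hB : H p = .B) (ht : ¬ bad r (S p)) :
    Reaches C w ⟨.go r, p, S, H, lo, hi⟩
      ⟨.incL, p-(1:ℕ), S, Function.update H p (.O r), min lo (p-(1:ℕ)), hi⟩ := by
  apply reach1 (S' := S p) (h' := .O r) (d := .L)
  · have hb : ¬ tin (target C r) (S p) := by
      cases r <;> simp_all [target, dirR, tin]
    simp only [act, hB, if_neg hb, launch, if_neg ht, hr]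
    simp
  · simp; omega
  · simp
  · rfl
  · simp; omega
  · simp; omega

theorem launchL_bad {r : Info ι Q} (hr : dirR r = false) {p : ℤ} {S : ℤ → Finset ι}
    {H : ℤ → Hd ι Q} {lo hi : ℤ} (hB : H p = .B) (ht : bad r (S p)) :
    Halts C w ⟨.go r, p, S, H, lo, hi⟩ := by
  apply halt1
  have hb : ¬ tin (target C r) (S p) := by
    cases r <;> simp_all [target, dirR, tin]
  simp only [act, hB, if_neg hb, launch, if_pos ht]

theorem crossL_of {n : ℕ}
    (IH : ∀ m < n, CrossR C w m ∧ CrossL C w m) : CrossL C w n := by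
  intro r p y S H lo hi hy hr hB hstop hlo hhi
  rcases Nat.eq_zero_or_pos n with hn | hn
  · subst hn
    have e : p = y := by simpa using hy
    subst e
    apply Guard.of_reaches
    · rw [min_eq_left hlo]
      exact Reaches.refl _
    · exact ⟨cond_zero _ _ _ _, fun z h1 h2 => by omega⟩
  · obtain ⟨k, rfl⟩ : ∃ k, n = k + 1 := ⟨n - 1, by omega⟩
    have hBp := hB p (by omega) le_rfl
    by_cases hbad : bad r (S p)
    · refine ⟨fun h => absurd hbad (h.2 p (by omega) le_rfl), fun _ => launchL_bad hr hBp hbad⟩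
    have r1 := launchL (C := C) (w := w) hr (S := S) (H := H) (lo := lo) hhi hBp hbad
    have g2 := frameL_grow (p := p) (S := S) (H := H) (hi := hi) (lo := lo) (C := C) (w := w) (N := k)
      (fun m hm => IH m (by omega)) hr hhi k le_rfl
      (fun z h1 h2 => hB z (by omega) (by omega))
    have ey : p - ((k+1:ℕ):ℤ) = y := by rw [hy]; ring
    rw [ey] at g2
    have hyp : y ≠ p := by omega
    have H0p : (Function.update H p (Hd.O r)) p = .O r := by simp
    have H0y : (Function.update H p (Hd.O r)) y = H y := Function.update_of_ne hyp _ _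
    have r3 : Reaches C w
        ⟨.incL, y, S, Function.update H p (.O r), min lo y, hi⟩
        ⟨.go .lclean, y + 1, S, Function.update H p (.O r), min lo y, hi⟩ := by
      apply reach1 (S' := S y) (h' := H y) (d := .R)
      · simp only [act, H0y]
        rw [if_neg hstop]
      · simp
      · simp
      · exact upd_same H0y
      · simp
      · simp; omega
    have g4 := (IH k (by omega)).1 .lclean (y+1) p S
      (Function.update H p (.O r)) (min lo y) hi (by omega) rfl
      (fun z h1 h2 => by
        rw [Function.update_of_ne (by omega)]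
        exact ⟨hB z (by omega) (by omega), by simp [target, tin]⟩)
      (by simp) (by omega) (by omega)
    rw [max_eq_left hhi] at g4
    have e : updn (ι := ι) (Q := Q) .lclean w S (y+1) k = .lclean := by
      unfold updn; split_ifs <;> simp [upd]
    rw [e] at g4
    have r5 : Reaches C w ⟨.go .lclean, p, S,
        Function.update H p (.O r), min lo y, hi⟩
        ⟨.go r, p-1, S, H, min lo y, hi⟩ := by
      apply reach1 (S' := S p) (h' := .B) (d := .L)
      · simp [act, goO, hr]
      · simp; omega
      · simp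
      · rw [Function.update_idem]; exact upd_same hBp
      · simp; omega
      · simp; omega
    have g6 := (IH k (by omega)).2 r (p-1) y S H (min lo y) hi (by omega) hr
      (fun z h1 h2 => hB z h1 (by omega)) hstop (by omega) (by omega)
    rw [min_eq_left (min_le_right lo y)] at g6
    have G := Guard.head r1 (g2.comp (fun _ => Guard.head r3 (g4.comp (fun _ => Guard.head r5 g6))))
    refine G.congr ?_
    constructor
    · rintro ⟨h1, h2, h3, h4⟩
      refine ⟨?_, ?_⟩
      · simpa using h2
      · intro z hz hz'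
        by_cases e : z = p
        · rw [e]; exact hbad
        · exact h4 z hz (by omega)
    · rintro ⟨h1, h2⟩
      simp only [Nat.add_sub_cancel] at h1
      refine ⟨?_, h1, ?_, ?_⟩
      · intro j hj1 hj2
        exact cond_mono h1 (fun z h1 h2 => ⟨by omega, by omega⟩)
      · exact cond_mono h1 (fun z h1 h2 => ⟨by omega, by omega⟩)
      · intro z hz hz'
        exact h2 z hz (by omega)

theorem cross {τ : ι} {ρ : Q → ℕ} (PO : ProgOK C τ ρ) (w : ℤ → Bool) :
    ∀ n, CrossR C w n ∧ CrossL C w n := by
  intro n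
  induction n using Nat.strong_induction_on with
  | _ n ih => exact ⟨crossR_of PO ih, crossL_of ih⟩

end

end H74
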