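import Mathlib

/-!
# Turing machines, immortal sets, Medvedev reducibility

Definitions used by the statement about the degrees of immortal sets.
-/

namespace H74

/-- Head moves. -/
inductive Dir where
  | left
  | stay
  | right
deriving DecidableEq

/-- The displacement of a head move. -/
def Dir.toInt : Dir → ℤ
  | .left => -1
  | .stay => 0
  | .right => 1

/-- A Turing machine: state set `Fin q`, tape alphabet `Fin s`, and a partial transition
function `δ` (the machine halts where `δ` is `none`). -/
structure TM where
  /-- number of states -/
  q : ℕ
  /-- number of tape symbols -/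
  s : ℕ
  /-- partial transition function: new state, written symbol, move -/
  δ : Fin q → Fin s → Option (Fin q × Fin s × Dir)

/-- Configurations: a state and an arbitrary bi-infinite tape, with the head at cell `0`. -/
abbrev TM.Cfg (M : TM) : Type := Fin M.q × (ℤ → Fin M.s)

/-- One step: apply `δ` at cell `0`, then recentre the tape at the new head position.
`none` means that the machine halts. -/
def TM.step (M : TM) (c : M.Cfg) : Option M.Cfg :=
  (M.δ c.1 (c.2 0)).map
    (fun r => (r.1, fun z => Function.update c.2 0 r.2.1 (z + r.2.2.toInt)))

/-- The configuration after `n` steps (`none` if the machine has halted before). -/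
def TM.run (M : TM) (c : M.Cfg) : ℕ → Option M.Cfg
  | 0 => some c
  | n + 1 => (M.run c n).bind M.step

/-- The immortal set: the configurations from which the machine never halts. -/
def TM.immortal (M : TM) : Set M.Cfg := {c | ∀ n, M.run c n ≠ none}

/-- The computable coding of configurations by points of Cantor space: bit `⟨0, j⟩` says whether
the state is `j`, and bit `⟨m + 1, j⟩` says whether the `m`-th cell (cells are listed through the
bijection `ℤ ≃ ℕ` of Mathlib) holds the symbol `j`. -/
def TM.code (M : TM) (c : M.Cfg) (n : ℕ) : Bool :=
  if n.unpair.1 = 0 then decide (c.1.val = n.unpair.2)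
  else decide ((c.2 (Equiv.intEquivNat.symm (n.unpair.1 - 1))).val = n.unpair.2)

/-- The first `n` bits of `x`. -/
def pref (x : ℕ → Bool) (n : ℕ) : List Bool := (List.range n).map x

/-- `Π⁰₁` classes of Cantor space: the points all of whose finite initial segments are accepted
by a computable test. -/
def IsPi01 (P : Set (ℕ → Bool)) : Prop :=
  ∃ T : List Bool → Bool, Computable T ∧ P = {x | ∀ n, T (pref x n) = true}

/-- `x` is the value at `y` of the Turing functional given by `φ`: bit `n` of the value is
`φ σ n` for the shortest initial segment `σ` of `y` on which `φ σ n` is defined. -/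
def Computes (φ : List Bool → ℕ → Option Bool) (y x : ℕ → Bool) : Prop :=
  ∀ n, ∃ k, φ (pref y k) n = some (x n) ∧ ∀ j < k, φ (pref y j) n = none

/-- Medvedev reducibility `P ≤_M R`: one Turing functional maps every point of `R` into `P`. -/
def MedvedevLE (P R : Set (ℕ → Bool)) : Prop :=
  ∃ φ : List Bool → ℕ → Option Bool, Computable₂ φ ∧ ∀ y ∈ R, ∃ x ∈ P, Computes φ y x

/-- Medvedev equivalence. -/
def MedvedevEquiv (P R : Set (ℕ → Bool)) : Prop := MedvedevLE P R ∧ MedvedevLE R P

end H74
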