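import Pool.Agent.H74.Slope
import Pool.Agent.H74.TMDefs

set_option linter.unusedSectionVars false
set_option linter.unusedVariables false

namespace H74

theorem pref_succ (x : ℕ → Bool) (n : ℕ) : pref x (n+1) = pref x n ++ [x n] := by
  simp [pref, List.range_succ]

theorem pref_length (x : ℕ → Bool) (n : ℕ) : (pref x n).length = n := by simp [pref]

theorem pref_take (x : ℕ → Bool) {n m : ℕ} (h : n ≤ m) : (pref x m).take n = pref x n := by
  simp [pref, ← List.map_take, List.take_range, h]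

def KK (σ : List Bool) : ℕ := σ.foldl (fun a b => 8*a + (if b then 1 else 0)) 0

theorem KK_snoc (σ : List Bool) (b : Bool) : KK (σ ++ [b]) = 8 * KK σ + (if b then 1 else 0) := by
  simp [KK, List.foldl_append]

theorem KK_append (σ τ : List Bool) : KK (σ ++ τ) = KK σ * 8^τ.length + KK τ := by
  induction τ using List.reverseRecOn with
  | nil => simp [KK]
  | append_singleton τ b ih =>
    rw [← List.append_assoc, KK_snoc, ih, KK_snoc, List.length_append, List.length_singleton, pow_succ]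
    ring

theorem KK_lt (σ : List Bool) : 7 * KK σ + 1 ≤ 8^σ.length := by
  induction σ using List.reverseRecOn with
  | nil => simp [KK]
  | append_singleton τ b ih =>
    rw [KK_snoc, List.length_append, List.length_singleton, pow_succ]
    split_ifs <;> omega

/-- the count `c` on `σ.length` cells is near to the slope coded by `σ` -/
def near (σ : List Bool) (c : ℕ) : Prop :=
  4 * 8^σ.length * c ≤ σ.length * (8^σ.length + 4 * KK σ) + 12 * 8^σ.length ∧
  σ.length * (8^σ.length + 4 * KK σ) ≤ 4 * 8^σ.length * c + 12 * 8^σ.length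

instance (σ : List Bool) (c : ℕ) : Decidable (near σ c) := by unfold near; infer_instance

def decN (n L a : ℕ) : Bool :=
  decide (((8^(n+1)*(4*a) + 2*L - 8^(n+1)*L) / (4*L)) % 8 = 1)

theorem take_succ_getD (σ : List Bool) {n : ℕ} (h : n < σ.length) :
    σ.take (n+1) = σ.take n ++ [σ.getD n false] := by
  rw [List.take_add_one]
  simp [List.getD, List.getElem?_eq_getElem h]

theorem KK_take_mod (σ : List Bool) {n : ℕ} (h : n < σ.length) :
    KK (σ.take (n+1)) % 8 = if σ.getD n false then 1 else 0 := by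
  rw [take_succ_getD σ h, KK_snoc]
  split_ifs <;> omega

theorem KK_split (σ : List Bool) {m : ℕ} (h : m ≤ σ.length) :
    KK σ = KK (σ.take m) * 8^(σ.length - m) + KK (σ.drop m) := by
  conv_lhs => rw [← List.take_append_drop m σ]
  rw [KK_append, List.length_drop]

theorem decN_correct {n L a : ℕ} {σ : List Bool} {α : ℝ} (hn : n < σ.length)
    (hl : 40 * 8^(n+1) ≤ σ.length) (hL : 16 * 8^(n+1) ≤ L)
    (h1 : |(a : ℝ) - α * L| ≤ 2)
    (h2 : |α * σ.length - σ.length * (1/4 + KK σ / 8^σ.length)| ≤ 5) :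
    decN n L a = σ.getD n false := by
  set ℓ := σ.length with hℓ
  set m := n + 1 with hm
  have hsplit := KK_split σ (m := m) (by omega)
  have hR := KK_lt (σ.drop m)
  rw [List.length_drop] at hR
  set Km := KK (σ.take m) with hKm
  set R := KK (σ.drop m) with hRdef
  have hp8 : (0:ℝ) < 8^m := by positivity
  have hpl : (0:ℝ) < 8^ℓ := by positivity
  have hpd : (0:ℝ) < 8^(ℓ-m) := by positivity
  have hLpos : (0:ℝ) < L := by
    have : 0 < L := lt_of_lt_of_le (by positivity) hL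
    exact_mod_cast this
  have hlpos : (0:ℝ) < ℓ := by
    have : 0 < ℓ := lt_of_lt_of_le (by positivity) hl
    exact_mod_cast this
  have hpow : (8:ℝ)^ℓ = 8^m * 8^(ℓ-m) := by
    rw [← pow_add]; congr 1; omega
  have hKR : (KK σ : ℝ) = Km * 8^(ℓ-m) + R := by
    have := hsplit
    exact_mod_cast this
  have hR' : 7 * (R:ℝ) + 1 ≤ 8^(ℓ-m) := by exact_mod_cast hR
  have hR0 : (0:ℝ) ≤ R := by positivity
  have hL' : 16 * (8:ℝ)^m ≤ L := by exact_mod_cast hL
  have hl' : 40 * (8:ℝ)^m ≤ ℓ := by exact_mod_cast hl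
  -- value of 8^m * KK σ / 8^ℓ
  have hval : (8:ℝ)^m * (KK σ / 8^ℓ) = Km + R / 8^(ℓ-m) := by
    rw [hKR, hpow]; field_simp
  have hfrac0 : (0:ℝ) ≤ R / 8^(ℓ-m) := by positivity
  have hfrac1 : (R:ℝ) / 8^(ℓ-m) ≤ 1/7 := by
    rw [div_le_div_iff₀ hpd (by norm_num)]; linarith
  -- α estimate
  have hα : |α - (1/4 + KK σ / 8^ℓ)| ≤ 5 / ℓ := by
    rw [le_div_iff₀ hlpos]
    have e : |α - (1/4 + KK σ / 8^ℓ)| * ℓ = |α * ℓ - ℓ * (1/4 + KK σ / 8^ℓ)| := by
      rw [← abs_of_pos hlpos, ← abs_mul]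
      congr 1
      rw [abs_of_pos hlpos]; ring
    rw [e]; exact h2
  have hα8 : (8:ℝ)^m * (5/ℓ) ≤ 1/8 := by
    rw [mul_div_assoc', div_le_div_iff₀ hlpos (by norm_num)]; linarith
  have hα' : |(8:ℝ)^m * (α - 1/4) - (Km + R / 8^(ℓ-m))| ≤ 1/8 := by
    have e : (8:ℝ)^m * (α - 1/4) - (Km + R / 8^(ℓ-m)) = 8^m * (α - (1/4 + KK σ / 8^ℓ)) := by
      rw [← hval]; ring
    rw [e, abs_mul, abs_of_pos hp8]
    calc (8:ℝ)^m * |α - (1/4 + KK σ / 8^ℓ)| ≤ 8^m * (5/ℓ) :=
          mul_le_mul_of_nonneg_left hα hp8.le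
      _ ≤ 1/8 := hα8
  rw [abs_le] at hα' h1
  obtain ⟨a1, a2⟩ := hα'
  obtain ⟨b1, b2⟩ := h1
  -- the main inequalities
  have hb : (8:ℝ)^m * 8 ≤ L / 2 := by linarith
  have up : (8:ℝ)^m * (4*a) + 2*L < 4*L*(Km+1) + 8^m*L := by
    have h3 : (8:ℝ)^m * (4 * a) ≤ 8^m * (4 * (α * L + 2)) :=
      mul_le_mul_of_nonneg_left (by linarith) hp8.le
    have h4 : (8:ℝ)^m * (α - 1/4) ≤ Km + 1/7 + 1/8 := by linarith
    have h5 : (8:ℝ)^m * (α - 1/4) * (4 * L) ≤ (Km + 1/7 + 1/8) * (4 * L) :=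
      mul_le_mul_of_nonneg_right h4 (by linarith)
    nlinarith
  have low : 4*L*(Km:ℝ) + 8^m*L ≤ (8:ℝ)^m * (4*a) + 2*L := by
    have h3 : (8:ℝ)^m * (4 * (α * L - 2)) ≤ 8^m * (4 * a) :=
      mul_le_mul_of_nonneg_left (by linarith) hp8.le
    have h4 : (Km:ℝ) - 1/8 ≤ (8:ℝ)^m * (α - 1/4) := by linarith
    have h5 : (Km - 1/8) * (4 * L) ≤ (8:ℝ)^m * (α - 1/4) * (4 * L) :=
      mul_le_mul_of_nonneg_right h4 (by linarith)
    nlinarith
  have upN : 8^m * (4*a) + 2*L < 4*L*(Km+1) + 8^m*L := by exact_mod_cast up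
  have lowN : 4*L*Km + 8^m*L ≤ 8^m * (4*a) + 2*L := by exact_mod_cast low
  have hdiv : (8^m*(4*a) + 2*L - 8^m*L) / (4*L) = Km := by
    apply Nat.div_eq_of_lt_le
    · rw [mul_comm Km]; omega
    · rw [mul_comm (Km + 1)]; omega
  unfold decN
  rw [← hm, hdiv, hKm, KK_take_mod σ hn]
  cases σ.getD n false <;> simp

end H74
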