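import Pool.Agent.H74.Compute

set_option linter.unusedSectionVars false

namespace H74

noncomputable section
variable {ι Q : Type} [DecidableEq ι] [Fintype ι] [DecidableEq Q]

variable {C : Code ι Q} {w : ℤ → Bool}

def vv (w : ℤ → Bool) (S : ℤ → Finset ι) (x : ℤ) (n : ℕ) : Option (Val ι) :=
  if n = 0 then none else some (Vl w S x n)

theorem updn_rtoY (w0 : Bool) (S0 : Finset ι) (t : Option ι) (w : ℤ → Bool) (S : ℤ → Finset ι)
    (x : ℤ) (n : ℕ) :
    updn (Q := Q) (.rtoY w0 S0 t none) w S x n = .rtoY w0 S0 t (vv w S x n) := by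
  unfold updn vv
  split_ifs <;> simp [upd]

def dis (S : ℤ → Finset ι) (a : ℤ) (m : ℕ) : Prop :=
  ∀ z z', a ≤ z → z < z' → z' < a + m → Disjoint (S z) (S z')

theorem comb_spec {S : ℤ → Finset ι} {x : ℤ} {n : ℕ} (hn : 1 ≤ n)
    (hc : cond C w S (x+1) (n-1)) :
    (((-2 ≤ D w (n+1) x ∧ D w (n+1) x ≤ 2) ∧ dis S x (n+1)) →
      comb (w x) (S x) (vv w S (x+1) (n-1)) (w (x+n)) (S (x+n)) = some (Vl w S x (n+1))) ∧
    (¬ ((-2 ≤ D w (n+1) x ∧ D w (n+1) x ≤ 2) ∧ dis S x (n+1)) →
      comb (w x) (S x) (vv w S (x+1) (n-1)) (w (x+n)) (S (x+n)) = none) := by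
  obtain ⟨k, rfl⟩ : ∃ k, n = k + 1 := ⟨n - 1, by omega⟩
  simp only [Nat.add_sub_cancel] at hc ⊢
  have hD : D w (k + 1 + 1) x = D w k (x+1) + bi (w (x + k + 1)) - bi (w x) := by
    simp [D]
  have hxk : x + ((k + 1 : ℕ) : ℤ) = x + k + 1 := by push_cast; ring
  rw [hxk]
  rcases Nat.eq_zero_or_pos k with hk | hk
  · subst hk
    simp only [vv, if_true, comb]
    have hD' : D w (0 + 1 + 1) x = bi (w (x + 1)) - bi (w x) := by
      rw [hD]; simp [D]
    have hb : -2 ≤ D w (0 + 1 + 1) x ∧ D w (0 + 1 + 1) x ≤ 2 := by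
      rw [hD']; unfold bi; split_ifs <;> simp
    have hd : dis S x (0 + 1 + 1) ↔ Disjoint (S x) (S (x+((0:ℕ):ℤ)+1)) := by
      constructor
      · intro h; exact h x _ le_rfl (by simp) (by push_cast; omega)
      · intro h z z' h1 h2 h3
        have e1 : z = x := by push_cast at h3; omega
        have e2 : z' = x + ((0:ℕ):ℤ) + 1 := by push_cast at h3 ⊢; omega
        rw [e1, e2]; exact h
    rw [hd]
    constructor
    · rintro ⟨_, h⟩
      rw [if_pos h]
      simp only [Option.some.injEq]
      unfold Vl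
      congr 1
      · rw [hD']; simp
      · ext i
        simp only [Finset.mem_union, Finset.mem_biUnion, Finset.mem_Ico]
        constructor
        · rintro (h | h)
          · exact ⟨x, ⟨le_rfl, by push_cast; omega⟩, h⟩
          · exact ⟨_, ⟨by push_cast; omega, by push_cast; omega⟩, h⟩
        · rintro ⟨a, ⟨h1, h2⟩, h3⟩
          have : a = x ∨ a = x + ((0:ℕ):ℤ) + 1 := by push_cast at h2 ⊢; omega
          rcases this with rfl | rfl
          · left; exact h3
          · right; exact h3
    · intro h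
      rw [if_neg]
      intro h'
      exact h ⟨hb, h'⟩
  · have hkk : ¬ (k = 0) := by omega
    simp only [vv, if_neg hkk, comb]
    have hw := hc (x+1) k le_rfl le_rfl
    have hde : dec5 (Vl w S (x+1) k).d = D w k (x+1) := by
      simp only [Vl]; exact dec5_enc hw.1.1 hw.1.2
    rw [hde]
    have hF : (Vl w S (x+1) k).F = (Finset.Ico (x+1) (x+1+k)).biUnion S := rfl
    rw [hF]
    have hd : dis S x (k + 1 + 1) ↔
        (Disjoint ((Finset.Ico (x+1) (x+1+k)).biUnion S) (S x) ∧
         Disjoint ((Finset.Ico (x+1) (x+1+k)).biUnion S) (S (x+k+1)) ∧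
         Disjoint (S x) (S (x+k+1))) := by
      rw [Finset.disjoint_biUnion_left, Finset.disjoint_biUnion_left]
      constructor
      · intro h
        refine ⟨?_, ?_, ?_⟩
        · intro i hi
          rw [Finset.mem_Ico] at hi
          exact (h x i le_rfl (by omega) (by push_cast; omega)).symm
        · intro i hi
          rw [Finset.mem_Ico] at hi
          exact (h i _ (by omega) (by omega) (by push_cast; omega))
        · exact h x _ le_rfl (by omega) (by push_cast; omega)
      · rintro ⟨h1, h2, h3⟩ z z' hz hzz hz'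
        push_cast at hz'
        by_cases e1 : z = x
        · by_cases e2 : z' = x + k + 1
          · rw [e1, e2]; exact h3
          · rw [e1]; exact (h1 z' (by rw [Finset.mem_Ico]; omega)).symm
        · by_cases e2 : z' = x + k + 1
          · rw [e2]; exact (h2 z (by rw [Finset.mem_Ico]; omega))
          · exact hw.2.1 z z' (by omega) hzz (by omega)
    rw [hd, hD]
    constructor
    · rintro ⟨⟨h1, h2⟩, h3, h4, h5⟩
      rw [if_pos ⟨h1, h2, h3, h4, h5⟩]
      simp only [Option.some.injEq]
      unfold Vl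
      rw [hD]
      congr 1
      ext i
      simp only [Finset.mem_union, Finset.mem_biUnion, Finset.mem_Ico]
      constructor
      · rintro ((⟨a, ⟨h1, h2⟩, h⟩ | h) | h)
        · exact ⟨a, ⟨by omega, by push_cast; omega⟩, h⟩
        · exact ⟨x, ⟨le_rfl, by push_cast; omega⟩, h⟩
        · exact ⟨_, ⟨by omega, by push_cast; omega⟩, h⟩
      · rintro ⟨a, ⟨ha1, ha2⟩, ha3⟩
        by_cases e1 : a = x
        · left; right; rw [← e1]; exact ha3
        · by_cases e2 : a = x + k + 1
          · right; rw [← e2]; exact ha3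
          · left; left; exact ⟨a, ⟨by omega, by push_cast at ha2; omega⟩, ha3⟩
    · intro h
      rw [if_neg]
      rintro ⟨h1, h2, h3, h4, h5⟩
      exact h ⟨⟨h1, h2⟩, h3, h4, h5⟩

/-- one size step of a right frame -/
theorem frameR_step {τ : ι} {ρ : Q → ℕ} (PO : ProgOK C τ ρ) {n : ℕ} (hn : 1 ≤ n)
    (IH : ∀ m < n, CrossR C w m ∧ CrossL C w m)
    {r : Info ι Q} (hr : dirR r = true) (t : Option ι) {x : ℤ} {S : ℤ → Finset ι}
    {H : ℤ → Hd ι Q} {lo hi : ℤ} (hlo : lo ≤ x) (hhi : x + n ≤ hi)
    (hB : ∀ z, x < z → z ≤ x + n → H z = .B) (ht : ¬ tin t (S (x+n))) :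
    Guard C w (cond C w S (x+1) (n-1) ∧ winok C w S x (n+1))
      ⟨.incR (Vl w S x n) t, x+n, S, Function.update H x (.O r), lo, hi⟩
      ⟨.incR (Vl w S x (n+1)) t, x+(n+1:ℕ), S, Function.update H x (.O r), lo, max hi (x+(n+1:ℕ))⟩ := by
  have hxn : x + n ≠ x := by omega
  have hxn' : x ≠ x + n := by omega
  set H0 := Function.update H x (Hd.O r) with hH0
  set H1 := Function.update H0 (x+n) (Hd.ER) with hH1
  have H1x : H1 x = .O r := by simp [hH1, hH0, Function.update_of_ne hxn']
  have H1e : H1 (x+n) = .ER := by simp [hH1]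
  have H1b : ∀ z, x < z → z < x + n → H1 z = .B := by
    intro z h1 h2
    rw [hH1, Function.update_of_ne (by omega), hH0, Function.update_of_ne (by omega)]
    exact hB z h1 (by omega)
  have H0e : H0 (x+n) = .B := by
    rw [hH0, Function.update_of_ne hxn]; exact hB _ (by omega) le_rfl
  -- the flag
  by_cases hflag : (Vl w S x n).F = ∅ ∧ S (x+n) = ∅
  · have hfree : ∀ z, x ≤ z → z ≤ x + n → S z = ∅ := by
      intro z h1 h2
      by_cases e : z = x + n
      · rw [e]; exact hflag.2
      · have h3 := hflag.1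
        simp only [Vl] at h3
        rw [← Finset.subset_empty] at h3 ⊢
        refine subset_trans ?_ h3
        apply Finset.subset_biUnion_of_mem S
        rw [Finset.mem_Ico]; omega
    -- step 1
    have r1 : Reaches C w ⟨.incR (Vl w S x n) t, x+n, S, H0, lo, hi⟩
        ⟨.go (.rinit t), x+n-1, S, H1, lo, hi⟩ := by
      apply reach1 (S' := S (x+n)) (h' := .ER) (d := .L)
      · simp only [act]
        rw [if_pos ⟨H0e, ht⟩, if_pos hflag]
      · simp; omega
      · simp
      · rfl
      · simp; omega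
      · simp; omega
    have g2 := (IH (n-1) (by omega)).2 (.rinit t) (x+n-1) x S H1 lo hi (by omega) rfl
      (fun z h1 h2 => H1b z h1 (by omega)) (by simp [H1x]) (by omega) (by omega)
    rw [min_eq_left hlo] at g2
    have r3 : Reaches C w ⟨.go (.rinit t), x, S, H1, lo, hi⟩
        ⟨.go (.ret C.q0 t), x, marks S (fun _ => some x), H1, lo, hi⟩ := by
      apply reach1 (S' := Finset.univ) (h' := .O r) (d := .N)
      · simp [act, H1x, goO, hr]
      · simp
      · funext z
        by_cases e : z = x
        · subst e; ext i; simp [marks]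
        · ext i; simp [marks, Function.update_of_ne e, Ne.symm e]
      · exact upd_same H1x
      · simp; omega
      · simp; omega
    have F : FrameCtx C w x n S H1 lo hi :=
      ⟨hn, hfree, ⟨r, H1x, hr⟩, H1b, H1e, hlo, hhi, fun m hm => (IH m hm).1, fun m hm => (IH m hm).2⟩
    obtain ⟨B, b1, b2, g4⟩ := compute_guard F PO t
    have g5 := (IH (n-1) (by omega)).1 (.rtoY (w x) ∅ t none) (x+1) (x+n) S H1 lo hi (by omega) rfl
      (fun z h1 h2 => ⟨H1b z (by omega) (by omega), by simp [target, tin]⟩) (by simp [H1e])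
      (by omega) (by omega)
    rw [updn_rtoY, max_eq_left hhi] at g5
    have hSx : S x = ∅ := hfree x le_rfl (by omega)
    have g6 : cond C w S (x+1) (n-1) → Guard C w ((-2 ≤ D w (n+1) x ∧ D w (n+1) x ≤ 2) ∧ dis S x (n+1))
        ⟨.go (.rtoY (w x) ∅ t (vv w S (x+1) (n-1))), x+n, S, H1, lo, hi⟩
        ⟨.incR (Vl w S x (n+1)) t, x+(n+1:ℕ), S, H0, lo, max hi (x+(n+1:ℕ))⟩ := by
      intro hc
      obtain ⟨s1, s2⟩ := comb_spec hn hc
      rw [hSx] at s1 s2
      constructor
      · intro h
        apply reach1 (S' := S (x+n)) (h' := .B) (d := .R)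
        · simp only [act, H1e, goER]
          rw [s1 h]
        · simp; omega
        · simp
        · rw [hH1, Function.update_idem]; exact upd_same H0e
        · simp; omega
        · simp; omega
      · intro h
        apply halt1
        simp only [act, H1e, goER]
        rw [s2 h]
    have G := Guard.head r1 (g2.comp (fun _ => Guard.head r3 (g4.comp (fun _ => g5.comp g6))))
    refine G.congr ?_
    constructor
    · rintro ⟨_, hb, hc, h1, h2⟩
      exact ⟨hc, h1, h2, fun _ _ => b2 hb⟩
    · rintro ⟨hc, h1, h2, h3⟩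
      refine ⟨⟨?_, by simp [bad]⟩, b1 ⟨hc, h3 (by omega) (fun z hz hz' => hfree z hz (by push_cast at hz'; omega))⟩,
        hc, h1, h2⟩
      exact cond_mono hc (fun z hz hz' => ⟨hz, by omega⟩)
  · have hfree : ¬ ∀ z, x ≤ z → z < x + (n+1:ℕ) → S z = ∅ := by
      intro h
      apply hflag
      constructor
      · simp only [Vl]
        rw [← Finset.subset_empty]
        intro i hi
        rw [Finset.mem_biUnion] at hi
        obtain ⟨a, ha, ha'⟩ := hi
        rw [Finset.mem_Ico] at ha
        rw [h a ha.1 (by push_cast; omega)] at ha'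
        exact ha'
      · exact h _ (by omega) (by push_cast; omega)
    have r1 : Reaches C w ⟨.incR (Vl w S x n) t, x+n, S, H0, lo, hi⟩
        ⟨.go (.ret C.qfin t), x+n-1, S, H1, lo, hi⟩ := by
      apply reach1 (S' := S (x+n)) (h' := .ER) (d := .L)
      · simp only [act]
        rw [if_pos ⟨H0e, ht⟩, if_neg hflag]
      · simp; omega
      · simp
      · rfl
      · simp; omega
      · simp; omega
    have g2 := (IH (n-1) (by omega)).2 (.ret C.qfin t) (x+n-1) x S H1 lo hi (by omega) rfl
      (fun z h1 h2 => H1b z h1 (by omega)) (by simp [H1x]) (by omega) (by omega)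
    rw [min_eq_left hlo] at g2
    have r3 : Reaches C w ⟨.go (.ret C.qfin t), x, S, H1, lo, hi⟩
        ⟨.go (.rtoY (w x) (S x) t none), x+1, S, H1, lo, hi⟩ := by
      apply reach1 (S' := S x) (h' := .O r) (d := .R)
      · simp [act, H1x, goO, hr, retAct, PO.fin_q]
      · simp
      · simp
      · exact upd_same H1x
      · simp; omega
      · simp; omega
    have g5 := (IH (n-1) (by omega)).1 (.rtoY (w x) (S x) t none) (x+1) (x+n) S H1 lo hi (by omega) rfl
      (fun z h1 h2 => ⟨H1b z (by omega) (by omega), by simp [target, tin]⟩) (by simp [H1e])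
      (by omega) (by omega)
    rw [updn_rtoY, max_eq_left hhi] at g5
    have g6 : cond C w S (x+1) (n-1) → Guard C w ((-2 ≤ D w (n+1) x ∧ D w (n+1) x ≤ 2) ∧ dis S x (n+1))
        ⟨.go (.rtoY (w x) (S x) t (vv w S (x+1) (n-1))), x+n, S, H1, lo, hi⟩
        ⟨.incR (Vl w S x (n+1)) t, x+(n+1:ℕ), S, H0, lo, max hi (x+(n+1:ℕ))⟩ := by
      intro hc
      obtain ⟨s1, s2⟩ := comb_spec hn hc
      constructor
      · intro h
        apply reach1 (S' := S (x+n)) (h' := .B) (d := .R)
        · simp only [act, H1e, goER]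
          rw [s1 h]
        · simp; omega
        · simp
        · rw [hH1, Function.update_idem]; exact upd_same H0e
        · simp; omega
        · simp; omega
      · intro h
        apply halt1
        simp only [act, H1e, goER]
        rw [s2 h]
    have G := Guard.head r1 (g2.comp (fun _ => Guard.head r3 (g5.comp g6)))
    refine G.congr ?_
    constructor
    · rintro ⟨_, hc, h1, h2⟩
      exact ⟨hc, h1, h2, fun _ h => absurd h hfree⟩
    · rintro ⟨hc, h1, h2, h3⟩
      refine ⟨⟨?_, by simp [bad]⟩, hc, h1, h2⟩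
      exact cond_mono hc (fun z hz hz' => ⟨hz, by omega⟩)

end

end H74
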