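import Pool.Agent.H74.Digits

set_option linter.unusedSectionVars false
set_option linter.unusedVariables false

namespace H74

def Sp (p : ℕ → Bool) (i : ℕ) : ℕ := i * (8^i + 4 * KK (pref p i)) / (4*8^i)

def wp (p : ℕ → Bool) : ℤ → Bool
  | .ofNat i => decide (Sp p (i+1) = Sp p i + 1)
  | .negSucc _ => false

theorem wp_nat (p : ℕ → Bool) (i : ℕ) : wp p (i : ℤ) = decide (Sp p (i+1) = Sp p i + 1) := rfl

theorem E_bd (p : ℕ → Bool) {i N : ℕ} (h : i ≤ N) :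
    4 * 8^N * (Sp p i : ℤ) ≤ i * (8^N + 4 * KK (pref p N)) ∧
    7 * (i * ((8:ℤ)^N + 4 * KK (pref p N)) - 4 * 8^N * Sp p i) < 32 * 8^N := by
  have hs := KK_split (pref p N) (m := i) (by rw [pref_length]; exact h)
  rw [pref_take p h, pref_length] at hs
  have hR := KK_lt ((pref p N).drop i)
  rw [List.length_drop, pref_length] at hR
  set R := KK ((pref p N).drop i)
  set Ki := KK (pref p i) with hKi
  have hpow : (8:ℤ)^N = 8^i * 8^(N-i) := by rw [← pow_add]; congr 1; omega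
  have hdiv1 : 4 * 8^i * Sp p i ≤ i * (8^i + 4 * Ki) := by
    unfold Sp; exact Nat.mul_div_le _ _
  have hdiv2 : i * (8^i + 4 * Ki) < 4 * 8^i * (Sp p i + 1) := by
    have := Nat.lt_mul_div_succ (i * (8^i + 4 * Ki)) (b := 4 * 8^i) (by positivity)
    simpa [Sp] using this
  have hi : i ≤ 8^i := (Nat.lt_pow_self (by norm_num)).le
  have hsZ : (KK (pref p N) : ℤ) = Ki * 8^(N-i) + R := by exact_mod_cast hs
  have hRZ : 7 * (R:ℤ) + 1 ≤ 8^(N-i) := by exact_mod_cast hR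
  have hR0 : (0:ℤ) ≤ R := by positivity
  have d1 : 4 * 8^i * (Sp p i : ℤ) ≤ i * (8^i + 4 * Ki) := by exact_mod_cast hdiv1
  have d2 : (i:ℤ) * (8^i + 4 * Ki) < 4 * 8^i * (Sp p i + 1) := by exact_mod_cast hdiv2
  have hiZ : (i:ℤ) ≤ 8^i := by exact_mod_cast hi
  have hi0 : (0:ℤ) ≤ i := by positivity
  rw [hsZ, hpow]
  set X : ℤ := 8^i with hX
  set Y : ℤ := 8^(N-i) with hY
  have hY0 : 0 < Y := by positivity
  have hX0 : 0 < X := by positivity
  have e : (i:ℤ) * (X * Y + 4 * (Ki * Y + R)) - 4 * (X * Y) * Sp p i =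
      Y * (i * (X + 4 * Ki) - 4 * X * Sp p i) + 4 * (i * R) := by ring
  have t0 : 0 ≤ i * (X + 4 * (Ki:ℤ)) - 4 * X * Sp p i := by linarith
  have t1 : i * (X + 4 * (Ki:ℤ)) - 4 * X * Sp p i ≤ 4 * X - 1 := by
    have : (i:ℤ) * (X + 4 * Ki) < 4 * X * Sp p i + 4 * X := by linarith
    omega
  constructor
  · have h1 := mul_nonneg hY0.le t0
    have h2 := mul_nonneg hi0 hR0
    linarith
  · rw [e]
    have h1 : Y * (i * (X + 4 * (Ki:ℤ)) - 4 * X * Sp p i) ≤ Y * (4 * X - 1) :=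
      mul_le_mul_of_nonneg_left t1 hY0.le
    have h2 : (i:ℤ) * R ≤ X * R := mul_le_mul_of_nonneg_right hiZ hR0
    have h3 : X * (7 * R) ≤ X * (Y - 1) := mul_le_mul_of_nonneg_left (by linarith) hX0.le
    nlinarith

theorem KN_bd (p : ℕ → Bool) (N : ℕ) : 7 * (KK (pref p N) : ℤ) + 1 ≤ 8^N := by
  have := KK_lt (pref p N)
  rw [pref_length] at this
  exact_mod_cast this

theorem Sp_step (p : ℕ → Bool) (i : ℕ) : Sp p (i+1) = Sp p i ∨ Sp p (i+1) = Sp p i + 1 := by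
  obtain ⟨a1, a2⟩ := E_bd p (i := i) (N := i+1) (by omega)
  obtain ⟨b1, b2⟩ := E_bd p (i := i+1) (N := i+1) le_rfl
  have hK := KN_bd p (i+1)
  have hK0 : (0:ℤ) ≤ KK (pref p (i+1)) := by positivity
  set Z : ℤ := 8^(i+1) with hZ
  set K : ℤ := (KK (pref p (i+1)) : ℤ) with hKd
  have hZ0 : 0 < Z := by positivity
  have h1 : (Sp p i : ℤ) ≤ Sp p (i+1) := by
    by_contra hcon
    push Not at hcon
    have h2 : (Sp p (i+1) : ℤ) ≤ Sp p i - 1 := by omega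
    have h3 : 4 * Z * (Sp p (i+1) : ℤ) ≤ 4 * Z * (Sp p i - 1) :=
      mul_le_mul_of_nonneg_left h2 (by linarith)
    push_cast at b2
    nlinarith
  have h2 : (Sp p (i+1) : ℤ) ≤ Sp p i + 1 := by
    by_contra hcon
    push Not at hcon
    have h2 : (Sp p i : ℤ) + 2 ≤ Sp p (i+1) := by omega
    have h3 : 4 * Z * ((Sp p i : ℤ) + 2) ≤ 4 * Z * Sp p (i+1) :=
      mul_le_mul_of_nonneg_left h2 (by linarith)
    push_cast at b1
    nlinarith
  omega

theorem A_wp (p : ℕ → Bool) (x n : ℕ) : A (wp p) (x:ℤ) n = (Sp p (x+n) : ℤ) - Sp p x := by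
  induction n with
  | zero => simp [A]
  | succ n ih =>
    simp only [A]
    rw [ih]
    have e : (x:ℤ) + (n:ℤ) = ((x+n : ℕ) : ℤ) := by push_cast; ring
    rw [e, wp_nat]
    rcases Sp_step p (x+n) with h | h
    · rw [show x + (n+1) = x + n + 1 by ring, h]
      simp [bi]
    · rw [show x + (n+1) = x + n + 1 by ring, h]
      simp [bi]; ring

theorem D_wp (p : ℕ → Bool) (x m : ℕ) : -2 ≤ D (wp p) m (x:ℤ) ∧ D (wp p) m (x:ℤ) ≤ 2 := by
  rcases Nat.even_or_odd m with ⟨n, hn⟩ | ⟨n, hn⟩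
  · have e : m = 2 * n := by omega
    rw [e, (D_spec (wp p) n x).1]
    have e1 : (x:ℤ) + (n:ℤ) = ((x+n : ℕ) : ℤ) := by push_cast; ring
    rw [e1, A_wp, A_wp]
    obtain ⟨a1, a2⟩ := E_bd p (i := x+n+n) (N := x+n+n) le_rfl
    obtain ⟨b1, b2⟩ := E_bd p (i := x+n) (N := x+n+n) (by omega)
    obtain ⟨c1, c2⟩ := E_bd p (i := x) (N := x+n+n) (by omega)
    push_cast at a1 a2 b1 b2 c1 c2
    set Z : ℤ := 8^(x+n+n) with hZ
    set K : ℤ := (KK (pref p (x+n+n)) : ℤ) with hKd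
    have hZ0 : 0 < Z := by positivity
    constructor
    · by_contra hcon
      push Not at hcon
      have h3 : 4 * Z * ((Sp p (x+n+n) : ℤ) - Sp p (x+n) - (Sp p (x+n) - Sp p x)) ≤ 4 * Z * (-3) :=
        mul_le_mul_of_nonneg_left (by omega) (by linarith)
      nlinarith
    · by_contra hcon
      push Not at hcon
      have h3 : 4 * Z * 3 ≤ 4 * Z * ((Sp p (x+n+n) : ℤ) - Sp p (x+n) - (Sp p (x+n) - Sp p x)) :=
        mul_le_mul_of_nonneg_left (by omega) (by linarith)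
      nlinarith
  · rw [hn, (D_spec (wp p) n x).2]
    have e1 : (x:ℤ) + (n:ℤ) + 1 = ((x+n+1 : ℕ) : ℤ) := by push_cast; ring
    rw [e1, A_wp, A_wp]
    obtain ⟨a1, a2⟩ := E_bd p (i := x+n+1+n) (N := x+n+1+n) le_rfl
    obtain ⟨d1, d2⟩ := E_bd p (i := x+n+1) (N := x+n+1+n) (by omega)
    obtain ⟨b1, b2⟩ := E_bd p (i := x+n) (N := x+n+1+n) (by omega)
    obtain ⟨c1, c2⟩ := E_bd p (i := x) (N := x+n+1+n) (by omega)
    push_cast at a1 a2 b1 b2 c1 c2 d1 d2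
    set Z : ℤ := 8^(x+n+1+n) with hZ
    set K : ℤ := (KK (pref p (x+n+1+n)) : ℤ) with hKd
    have hZ0 : 0 < Z := by positivity
    constructor
    · by_contra hcon
      push Not at hcon
      have h3 : 4 * Z * ((Sp p (x+n+1+n) : ℤ) - Sp p (x+n+1) - (Sp p (x+n) - Sp p x)) ≤ 4 * Z * (-3) :=
        mul_le_mul_of_nonneg_left (by omega) (by linarith)
      nlinarith
    · by_contra hcon
      push Not at hcon
      have h3 : 4 * Z * 3 ≤ 4 * Z * ((Sp p (x+n+1+n) : ℤ) - Sp p (x+n+1) - (Sp p (x+n) - Sp p x)) :=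
        mul_le_mul_of_nonneg_left (by omega) (by linarith)
      nlinarith

/-- number of ones -/
def cnt (β : ℕ → Bool) : ℕ → ℕ
  | 0 => 0
  | n+1 => cnt β n + (if β n then 1 else 0)

theorem cnt_A (w : ℤ → Bool) (x : ℤ) (n : ℕ) : (cnt (fun i => w (x+i)) n : ℤ) = A w x n := by
  induction n with
  | zero => simp [cnt, A]
  | succ n ih =>
    simp only [cnt, A]
    push_cast
    rw [ih]
    simp [bi]

theorem near_wp (p : ℕ → Bool) (x ℓ : ℕ) : near (pref p ℓ) (cnt (fun i => wp p ((x:ℤ)+i)) ℓ) := by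
  have hc := cnt_A (wp p) x ℓ
  rw [A_wp] at hc
  set c := cnt (fun i => wp p ((x:ℤ)+i)) ℓ
  unfold near
  rw [pref_length]
  have hs := KK_split (pref p (x+ℓ)) (m := ℓ) (by rw [pref_length]; omega)
  rw [pref_take p (by omega : ℓ ≤ x + ℓ), pref_length, Nat.add_sub_cancel] at hs
  have hR := KK_lt ((pref p (x+ℓ)).drop ℓ)
  rw [List.length_drop, pref_length, Nat.add_sub_cancel] at hR
  set R := KK ((pref p (x+ℓ)).drop ℓ)
  obtain ⟨a1, a2⟩ := E_bd p (i := x+ℓ) (N := x+ℓ) le_rfl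
  obtain ⟨b1, b2⟩ := E_bd p (i := x) (N := x+ℓ) (by omega)
  push_cast at a1 a2 b1 b2
  have hpow : (8:ℤ)^(x+ℓ) = 8^ℓ * 8^x := by rw [← pow_add]; congr 1; omega
  have hsZ : (KK (pref p (x+ℓ)) : ℤ) = KK (pref p ℓ) * 8^x + R := by exact_mod_cast hs
  have hRZ : 7 * (R:ℤ) + 1 ≤ 8^x := by exact_mod_cast hR
  have hR0 : (0:ℤ) ≤ R := by positivity
  have hl : (ℓ:ℤ) ≤ 8^ℓ := by
    have : ℓ ≤ 8^ℓ := (Nat.lt_pow_self (by norm_num)).le
    exact_mod_cast this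
  have hl0 : (0:ℤ) ≤ ℓ := by positivity
  rw [hsZ, hpow] at a1 a2 b1 b2
  set K : ℤ := (KK (pref p ℓ) : ℤ) with hK
  set X : ℤ := 8^ℓ with hX
  set Y : ℤ := 8^x with hY
  have hX0 : 0 < X := by positivity
  have hY0 : 0 < Y := by positivity
  have hlR : (ℓ:ℤ) * (7 * R) ≤ X * (Y - 1) :=
    mul_le_mul hl (by linarith) (by linarith) hX0.le
  have hlR0 : 0 ≤ (ℓ:ℤ) * R := mul_nonneg hl0 hR0
  -- Y * (4 X c - ℓ (X + 4K)) is small
  have key1 : Y * (4 * X * c) ≤ Y * (ℓ * (X + 4 * K) + 12 * X) := by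
    rw [hc]
    nlinarith
  have key2 : Y * (ℓ * (X + 4 * K)) ≤ Y * (4 * X * c + 12 * X) := by
    rw [hc]
    nlinarith
  have k1 := le_of_mul_le_mul_left key1 hY0
  have k2 := le_of_mul_le_mul_left key2 hY0
  constructor
  · have : (4 * 8^ℓ * c : ℤ) ≤ ℓ * (8^ℓ + 4 * KK (pref p ℓ)) + 12 * 8^ℓ := k1
    exact_mod_cast this
  · have : (ℓ * (8^ℓ + 4 * KK (pref p ℓ)) : ℤ) ≤ 4 * 8^ℓ * c + 12 * 8^ℓ := k2
    exact_mod_cast this

end H74
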