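import Mathlib

/-!
# The machine (helper file for MP_4596be_lc)

Cell contents: a read-only bit `w`, a finite set `S` of soft marks, a hard mark `H`.
-/

namespace H74

/-- Instructions of the register programs run inside frames. -/
inductive Instr (ι Q : Type) where
  | inc (i : ι) (q' : Q)
  | dec (i : ι) (q' q'' : Q)
  | read (i : ι) (q1 q0 : Q)
  | clr (i : ι) (q' : Q)
  | fin
  | rej

structure Val (ι : Type) where
  d : Fin 5
  F : Finset ι
deriving DecidableEq

inductive Info (ι Q : Type) where
  | lback
  | lclean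
  | rtoY (w0 : Bool) (S0 : Finset ι) (t : Option ι) (val : Option (Val ι))
  | find (q : Q) (t : Option ι)
  | ltoY
  | rclean (v : Val ι) (t : Option ι)
  | rinit (t : Option ι)
  | ret (q : Q) (t : Option ι)
deriving DecidableEq

inductive Hd (ι Q : Type) where
  | B
  | O (r : Info ι Q)
  | ER
  | EL
deriving DecidableEq

inductive State (ι Q : Type) where
  | go (r : Info ι Q)
  | incR (v : Val ι) (t : Option ι)
  | incL
  | incM (i : ι) (q : Q) (t : Option ι)
  | decM (i : ι) (q : Q) (t : Option ι)
deriving DecidableEq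

/-- Bare program: code, initial state, overflow state, final state. -/
structure Code (ι Q : Type) where
  prog : Q → Instr ι Q
  q0 : Q
  qov : Q
  qfin : Q

/-- Head moves. -/
inductive Mv where
  | L | N | R
deriving DecidableEq

def Mv.z : Mv → ℤ
  | .L => -1
  | .N => 0
  | .R => 1

@[simp] theorem Mv.z_L : Mv.z .L = -1 := rfl
@[simp] theorem Mv.z_N : Mv.z .N = 0 := rfl
@[simp] theorem Mv.z_R : Mv.z .R = 1 := rfl

section
variable {ι Q : Type} [DecidableEq ι] [Fintype ι] [DecidableEq Q]

/-- direction of a search: `true` = right -/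
def dirR : Info ι Q → Bool
  | .lback => true
  | .lclean => true
  | .rtoY _ _ _ _ => true
  | .find _ _ => true
  | .ltoY => false
  | .rclean _ _ => false
  | .rinit _ => false
  | .ret _ _ => false

/-- label an instruction looks for -/
def lab (C : Code ι Q) (q : Q) : Option ι :=
  match C.prog q with
  | .inc i _ => some i
  | .dec i _ _ => some i
  | .read i _ _ => some i
  | .clr i _ => some i
  | .fin => none
  | .rej => none

def target (C : Code ι Q) : Info ι Q → Option ι
  | .find q _ => lab C q
  | _ => none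

def tin : Option ι → Finset ι → Prop
  | none, _ => False
  | some i, S => i ∈ S

instance (t : Option ι) (S : Finset ι) : Decidable (tin t S) := by
  cases t <;> unfold tin <;> infer_instance

/-- bad cell for a cleaning search -/
def bad : Info ι Q → Finset ι → Prop
  | .rclean _ t, S => tin t S
  | _, _ => False

instance (r : Info ι Q) (S : Finset ι) : Decidable (bad r S) := by
  cases r <;> unfold bad <;> infer_instance

def upd : Info ι Q → Val ι → Info ι Q
  | .rtoY w0 S0 t none, v => .rtoY w0 S0 t (some v)
  | r, _ => r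

def bi (b : Bool) : ℤ := if b then 1 else 0

def enc (z : ℤ) : Fin 5 := if z = -2 then 0 else if z = -1 then 1 else if z = 0 then 2 else if z = 1 then 3 else 4
def dec5 (d : Fin 5) : ℤ := (d.val : ℤ) - 2

theorem dec5_enc {z : ℤ} (h1 : -2 ≤ z) (h2 : z ≤ 2) : dec5 (enc z) = z := by
  unfold dec5 enc
  split_ifs <;> simp_all
  omega

def comb (w0 : Bool) (S0 : Finset ι) (val : Option (Val ι)) (w : Bool) (S : Finset ι) :
    Option (Val ι) :=
  match val with
  | none =>
    if Disjoint S0 S then some ⟨enc (bi w - bi w0), S0 ∪ S⟩ else none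
  | some v =>
    if -2 ≤ dec5 v.d + bi w - bi w0 ∧ dec5 v.d + bi w - bi w0 ≤ 2 ∧
      Disjoint v.F S0 ∧ Disjoint v.F S ∧ Disjoint S0 S then
      some ⟨enc (dec5 v.d + bi w - bi w0), v.F ∪ S0 ∪ S⟩ else none

def softAct (C : Code ι Q) (q : Q) (t : Option ι) (w : Bool) (S : Finset ι) :
    Option (State ι Q × Finset ι × Hd ι Q × Mv) :=
  match C.prog q with
  | .inc i q' => some (.incM i q' t, S.erase i, .B, .R)
  | .dec i q' _ => some (.decM i q' t, S.erase i, .B, .L)
  | .read _ q1 q0 => some (.go (.ret (if w then q1 else q0) t), S, .B, .N)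
  | .clr i q' => some (.go (.ret q' t), S.erase i, .B, .N)
  | .fin => none
  | .rej => none

def retAct (C : Code ι Q) (q : Q) (t : Option ι) (w : Bool) (S : Finset ι) (h : Hd ι Q) :
    Option (State ι Q × Finset ι × Hd ι Q × Mv) :=
  match C.prog q with
  | .inc i q' => if i ∈ S then some (.incM i q' t, S.erase i, h, .R) else some (.go (.find q t), S, h, .R)
  | .dec i _ q'' => if i ∈ S then some (.go (.ret q'' t), S, h, .N) else some (.go (.find q t), S, h, .R)
  | .read i q1 q0 => if i ∈ S then some (.go (.ret (if w then q1 else q0) t), S, h, .N)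
      else some (.go (.find q t), S, h, .R)
  | .clr i q' => if i ∈ S then some (.go (.ret q' t), S.erase i, h, .N)
      else some (.go (.find q t), S, h, .R)
  | .fin => some (.go (.rtoY w S t none), S, h, .R)
  | .rej => none

/-- arrival of `go r` (for `find`) at a soft stop (blank hard layer) -/
def goSoft (C : Code ι Q) (r : Info ι Q) (w : Bool) (S : Finset ι) :
    Option (State ι Q × Finset ι × Hd ι Q × Mv) :=
  match r with
  | .find q t => softAct C q t w S
  | _ => none

/-- arrival of `go r` at an origin mark -/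
def goO (C : Code ι Q) (r : Info ι Q) (r' : Info ι Q) (w : Bool) (S : Finset ι) :
    Option (State ι Q × Finset ι × Hd ι Q × Mv) :=
  match r with
  | .lback => if dirR r' then none else some (.go .ltoY, S, .O r', .L)
  | .lclean => if dirR r' then none else some (.go r', S, .B, .L)
  | .rclean v t => if dirR r' ∧ target C r' = t then some (.go (upd r' v), S, .B, .R) else none
  | .rinit t => if dirR r' then some (.go (.ret C.q0 t), Finset.univ, .O r', .N) else none
  | .ret q t => if dirR r' then retAct C q t w S (.O r') else none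
  | _ => none

def goER (C : Code ι Q) (r : Info ι Q) (w : Bool) (S : Finset ι) :
    Option (State ι Q × Finset ι × Hd ι Q × Mv) :=
  match r with
  | .rtoY w0 S0 t val =>
    match comb w0 S0 val w S with
    | none => none
    | some v => some (.incR v t, S, .B, .R)
  | .find q t =>
    match C.prog q with
    | .clr _ q' => some (.go (.ret q' t), S, .ER, .L)
    | _ => none
  | _ => none

def goEL (r : Info ι Q) (S : Finset ι) :
    Option (State ι Q × Finset ι × Hd ι Q × Mv) :=
  match r with
  | .ltoY => some (.incL, S, .B, .L)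
  | _ => none

/-- `go r` at a blank cell without soft stop: launch a frame -/
def launch (C : Code ι Q) (r : Info ι Q) (S : Finset ι) :
    Option (State ι Q × Finset ι × Hd ι Q × Mv) :=
  if bad r S then none
  else if dirR r then some (.incR ⟨2, S⟩ (target C r), S, .O r, .R)
  else some (.incL, S, .O r, .L)

/-- The local rule. -/
def act (C : Code ι Q) (st : State ι Q) (w : Bool) (S : Finset ι) (h : Hd ι Q) :
    Option (State ι Q × Finset ι × Hd ι Q × Mv) :=
  match st with
  | .go r =>
    match h with
    | .B => if tin (target C r) S then goSoft C r w S else launch C r S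
    | .O r' => goO C r r' w S
    | .ER => goER C r w S
    | .EL => goEL r S
  | .incR v t =>
    if h = .B ∧ ¬ tin t S then
      some (.go (if v.F = ∅ ∧ S = ∅ then .rinit t else .ret C.qfin t), S, .ER, .L)
    else some (.go (.rclean v t), S, h, .L)
  | .incL => if h = .B then some (.go .lback, S, .EL, .R) else some (.go .lclean, S, h, .R)
  | .incM i q' t =>
    if h = .B then some (.go (.ret q' t), insert i S, .B, .N) else some (.go (.ret C.qov t), S, h, .L)
  | .decM i q' t => some (.go (.ret q' t), insert i S, h, .N)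

/-- Configurations in absolute coordinates, with ghost visited interval `[lo, hi]`. -/
structure Conf (ι Q : Type) where
  st : State ι Q
  pos : ℤ
  S : ℤ → Finset ι
  H : ℤ → Hd ι Q
  lo : ℤ
  hi : ℤ

def step (C : Code ι Q) (w : ℤ → Bool) (c : Conf ι Q) : Option (Conf ι Q) :=
  match act C c.st (w c.pos) (c.S c.pos) (c.H c.pos) with
  | none => none
  | some (st', S', h', d) =>
    some ⟨st', c.pos + d.z, Function.update c.S c.pos S', Function.update c.H c.pos h',
      min c.lo (c.pos + d.z), max c.hi (c.pos + d.z)⟩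

def Stp (C : Code ι Q) (w : ℤ → Bool) (c c' : Conf ι Q) : Prop := step C w c = some c'

def Reaches (C : Code ι Q) (w : ℤ → Bool) : Conf ι Q → Conf ι Q → Prop :=
  Relation.ReflTransGen (Stp C w)

def Halts (C : Code ι Q) (w : ℤ → Bool) (c : Conf ι Q) : Prop :=
  ∃ c', Reaches C w c c' ∧ step C w c' = none

variable {C : Code ι Q} {w : ℤ → Bool}

theorem Reaches.refl (c : Conf ι Q) : Reaches C w c c := Relation.ReflTransGen.refl

theorem Reaches.trans {a b c : Conf ι Q} (h1 : Reaches C w a b) (h2 : Reaches C w b c) :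
    Reaches C w a c := Relation.ReflTransGen.trans h1 h2

theorem reach1 {st st' : State ι Q} {p p' : ℤ} {S S'' : ℤ → Finset ι} {H H'' : ℤ → Hd ι Q}
    {lo hi lo' hi' : ℤ} {S' : Finset ι} {h' : Hd ι Q} {d : Mv}
    (h : act C st (w p) (S p) (H p) = some (st', S', h', d))
    (hp : p' = p + d.z) (hS : S'' = Function.update S p S') (hH : H'' = Function.update H p h')
    (hlo : lo' = min lo (p + d.z)) (hhi : hi' = max hi (p + d.z)) :
    Reaches C w ⟨st, p, S, H, lo, hi⟩ ⟨st', p', S'', H'', lo', hi'⟩ := by
  apply Relation.ReflTransGen.single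
  subst hp hS hH hlo hhi
  simp [Stp, step, h]

theorem halt1 {st : State ι Q} {p : ℤ} {S : ℤ → Finset ι} {H : ℤ → Hd ι Q}
    {lo hi : ℤ} (h : act C st (w p) (S p) (H p) = none) :
    Halts C w ⟨st, p, S, H, lo, hi⟩ :=
  ⟨_, Reaches.refl _, by simp [step, h]⟩

theorem Halts.of_reaches {a b : Conf ι Q} (h1 : Reaches C w a b) (h2 : Halts C w b) :
    Halts C w a := by
  obtain ⟨c, hc, hn⟩ := h2
  exact ⟨c, h1.trans hc, hn⟩

theorem Reaches.halts {a b : Conf ι Q} (h1 : Reaches C w a b) (h2 : Halts C w a) :
    Halts C w b := by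
  obtain ⟨c, hc, hn⟩ := h2
  induction h1 using Relation.ReflTransGen.head_induction_on with
  | refl => exact ⟨c, hc, hn⟩
  | @head x y hxy _ ih =>
    apply ih
    rcases Relation.ReflTransGen.cases_head hc with h | ⟨z, hz, hz'⟩
    · subst h
      simp only [Stp, hn] at hxy
      exact absurd hxy (by simp)
    · simp only [Stp] at hxy hz
      rw [hxy] at hz
      cases hz
      exact hz'

theorem Reaches.halts_iff {a b : Conf ι Q} (h1 : Reaches C w a b) :
    Halts C w a ↔ Halts C w b := ⟨h1.halts, Halts.of_reaches h1⟩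

/-- Guarded reachability. -/
def Guard (C : Code ι Q) (w : ℤ → Bool) (A : Prop) (c c' : Conf ι Q) : Prop :=
  (A → Reaches C w c c') ∧ (¬ A → Halts C w c)

theorem Guard.of_reaches {A : Prop} {c c' : Conf ι Q} (h : Reaches C w c c') (hA : A) :
    Guard C w A c c' := ⟨fun _ => h, fun h' => absurd hA h'⟩

theorem Guard.comp {A B : Prop} {c c1 c2 : Conf ι Q} (h1 : Guard C w A c c1)
    (h2 : A → Guard C w B c1 c2) : Guard C w (A ∧ B) c c2 := by
  constructor
  · rintro ⟨a, b⟩
    exact (h1.1 a).trans ((h2 a).1 b)
  · intro h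
    by_cases a : A
    · exact Halts.of_reaches (h1.1 a) ((h2 a).2 (fun b => h ⟨a, b⟩))
    · exact h1.2 a

theorem Guard.head {B : Prop} {c c1 c2 : Conf ι Q} (h1 : Reaches C w c c1)
    (h2 : Guard C w B c1 c2) : Guard C w B c c2 :=
  ⟨fun b => h1.trans (h2.1 b), fun nb => Halts.of_reaches h1 (h2.2 nb)⟩

theorem Guard.tail {B : Prop} {c c1 c2 : Conf ι Q} (h1 : Guard C w B c c1)
    (h2 : B → Reaches C w c1 c2) : Guard C w B c c2 :=
  ⟨fun b => (h1.1 b).trans (h2 b), h1.2⟩

theorem Guard.congr {A B : Prop} {c c' : Conf ι Q} (h : Guard C w A c c') (e : A ↔ B) :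
    Guard C w B c c' := by
  rw [← e]; exact h

theorem Guard.halts {A : Prop} {c c' : Conf ι Q} (h : Guard C w A c c') (h2 : A → Halts C w c') :
    Halts C w c := by
  by_cases a : A
  · exact Halts.of_reaches (h.1 a) (h2 a)
  · exact h.2 a

theorem Guard.cond_of_not_halts {A : Prop} {c c' : Conf ι Q} (h : Guard C w A c c')
    (h2 : ¬ Halts C w c) : A ∧ Reaches C w c c' := by
  by_cases a : A
  · exact ⟨a, h.1 a⟩
  · exact absurd (h.2 a) h2

end

end H74
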