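import Pool.Agent.H74.Conv

set_option linter.unusedSectionVars false
set_option linter.unusedVariables false

namespace H74

open Primrec

theorem symm_even (k : ℕ) : Equiv.intEquivNat.symm (2*k) = (k : ℤ) := by
  rw [Equiv.symm_apply_eq]
  rfl

theorem symm_odd (k : ℕ) : Equiv.intEquivNat.symm (2*k+1) = Int.negSucc k := by
  rw [Equiv.symm_apply_eq]
  rfl

def SL (σ : List Bool) (i : ℕ) : ℕ := i * (8^i + 4 * KK (σ.take i)) / (4*8^i)

def wL (σ : List Bool) (m : ℕ) : Bool :=
  if m % 2 = 0 then decide (SL σ (m/2+1) = SL σ (m/2) + 1) else false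

theorem SL_pref (p : ℕ → Bool) {i k : ℕ} (h : i ≤ k) : SL (pref p k) i = Sp p i := by
  unfold SL Sp
  rw [pref_take p h]

theorem wL_pref (p : ℕ → Bool) {m k : ℕ} (h : m / 2 + 1 ≤ k) :
    wL (pref p k) m = wp p (Equiv.intEquivNat.symm m) := by
  unfold wL
  rcases Nat.even_or_odd m with ⟨j, hj⟩ | ⟨j, hj⟩
  · have e : m = 2 * j := by omega
    subst e
    rw [symm_even, wp_nat, if_pos (by omega), SL_pref p h, SL_pref p (by omega)]
    congr 2 <;> simp
  · subst hj
    rw [symm_odd, if_neg (by omega)]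
    rfl

def phi1 (i0 a1 a0 : ℕ) (σ : List Bool) (n : ℕ) : Option Bool :=
  if n + 2 ≤ σ.length then
    some (if n.unpair.1 = 0 then decide (i0 = n.unpair.2)
      else decide ((if wL σ (n.unpair.1 - 1) = true then a1 else a0) = n.unpair.2))
  else none

theorem prim_SL : Primrec₂ SL := by
  unfold SL
  have hi : Primrec (fun p : List Bool × ℕ => p.2) := snd
  have hpow : Primrec (fun p : List Bool × ℕ => 8^p.2) := prim_pow.comp (Primrec.const 8) hi
  have hK : Primrec (fun p : List Bool × ℕ => KK (p.1.take p.2)) :=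
    prim_KK.comp (Primrec.list_take.comp snd fst)
  exact Primrec.nat_div.comp
    (Primrec.nat_mul.comp hi (Primrec.nat_add.comp hpow (Primrec.nat_mul.comp (Primrec.const 4) hK)))
    (Primrec.nat_mul.comp (Primrec.const 4) hpow)

theorem prim_wL : Primrec₂ wL := by
  unfold wL
  have hh : Primrec (fun p : List Bool × ℕ => p.2 / 2) :=
    Primrec.nat_div.comp snd (Primrec.const 2)
  have h1 : PrimrecPred (fun p : List Bool × ℕ => p.2 % 2 = 0) :=
    Primrec.eq.comp (Primrec.nat_mod.comp snd (Primrec.const 2)) (Primrec.const 0)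
  have h2 : PrimrecPred (fun p : List Bool × ℕ => SL p.1 (p.2/2+1) = SL p.1 (p.2/2) + 1) :=
    Primrec.eq.comp (prim_SL.comp fst (Primrec.nat_add.comp hh (Primrec.const 1)))
      (Primrec.nat_add.comp (prim_SL.comp fst hh) (Primrec.const 1))
  exact Primrec.ite h1 h2.decide (Primrec.const false)

theorem prim_phi1 (i0 a1 a0 : ℕ) : Primrec₂ (phi1 i0 a1 a0) := by
  unfold phi1
  have hlen : Primrec (fun p : List Bool × ℕ => p.1.length) := Primrec.list_length.comp fst
  have u1 : Primrec (fun p : List Bool × ℕ => p.2.unpair.1) := fst.comp (Primrec.unpair.comp snd)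
  have u2 : Primrec (fun p : List Bool × ℕ => p.2.unpair.2) := snd.comp (Primrec.unpair.comp snd)
  have hw : Primrec (fun p : List Bool × ℕ => wL p.1 (p.2.unpair.1 - 1)) :=
    prim_wL.comp fst (Primrec.nat_sub.comp u1 (Primrec.const 1))
  apply Primrec.ite
  · exact Primrec.nat_le.comp (Primrec.nat_add.comp snd (Primrec.const 2)) hlen
  · apply Primrec.option_some.comp
    apply Primrec.ite
    · exact Primrec.eq.comp u1 (Primrec.const 0)
    · exact (Primrec.eq.comp (Primrec.const i0) u2).decide
    · exact (Primrec.eq.comp (Primrec.ite (Primrec.eq.comp hw (Primrec.const true))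
        (Primrec.const a1) (Primrec.const a0)) u2).decide
  · exact Primrec.const none

noncomputable section

variable {ι Q : Type} [DecidableEq ι] [Fintype ι] [DecidableEq Q] [Fintype Q]

/-- the initial configuration carrying `w` -/
def conf0 (ι Q : Type) : Conf ι Q :=
  ⟨.go (.rtoY false ∅ none none), 0, fun _ => ∅, fun _ => .B, 0, 0⟩

theorem computes_phi1 (C : Code ι Q) (p : ℕ → Bool) :
    Computes (phi1 (eS ι Q (.go (.rtoY false ∅ none none))).val
      (eT ι Q (true, ∅, .B)).val (eT ι Q (false, ∅, .B)).val) p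
      ((toTM C).code (toCfg C (wp p) (conf0 ι Q))) := by
  intro n
  refine ⟨n+2, ?_, ?_⟩
  · unfold phi1
    rw [pref_length, if_pos le_rfl]
    congr 1
    unfold TM.code
    by_cases h : n.unpair.1 = 0
    · rw [if_pos h, if_pos h]
      rfl
    · rw [if_neg h, if_neg h]
      have hle : n.unpair.1 ≤ n := Nat.unpair_left_le n
      rw [wL_pref p (by omega)]
      have e : ((toCfg C (wp p) (conf0 ι Q)).2 (Equiv.intEquivNat.symm (n.unpair.1 - 1))) =
          eT ι Q (wp p (0 + Equiv.intEquivNat.symm (n.unpair.1 - 1)), ∅, .B) := rfl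
      rw [e, zero_add]
      cases wp p (Equiv.intEquivNat.symm (n.unpair.1 - 1)) <;> simp
  · intro j hj
    unfold phi1
    rw [pref_length, if_neg (by omega)]

end

end H74
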