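import Pool.Agent.H74.Phi1

set_option linter.unusedSectionVars false
set_option linter.unusedVariables false

namespace H74

open Primrec

def dirN : Dir → ℕ
  | .left => 0
  | .stay => 1
  | .right => 2

def tab (M : TM) : List (List (Option (ℕ × ℕ × ℕ))) :=
  List.ofFn fun q : Fin M.q => List.ofFn fun a : Fin M.s =>
    (M.δ q a).map fun r => (r.1.val, r.2.1.val, dirN r.2.2)

def dl (M : TM) (q a : ℕ) : Option (ℕ × ℕ × ℕ) := ((tab M).getD q []).getD a none

theorem dl_eq (M : TM) (q : Fin M.q) (a : Fin M.s) :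
    dl M q.val a.val = (M.δ q a).map fun r => (r.1.val, r.2.1.val, dirN r.2.2) := by
  have h1 : (tab M).getD q.val [] = List.ofFn fun a : Fin M.s =>
      (M.δ q a).map fun r => (r.1.val, r.2.1.val, dirN r.2.2) := by
    unfold tab
    rw [List.getD_eq_getElem _ _ (by simp), List.getElem_ofFn]
  unfold dl
  rw [h1, List.getD_eq_getElem _ _ (by simp), List.getElem_ofFn]

theorem prim_dl (M : TM) : Primrec₂ (dl M) := by
  unfold dl
  have h1 : Primrec (fun p : ℕ × ℕ => (tab M).getD p.1 []) :=
    (Primrec.list_getD []).comp (Primrec.const (tab M)) fst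
  exact (Primrec.list_getD none).comp h1 snd

abbrev Zp : Type := ℕ × List ℕ × ℕ × List ℕ

def zstep (M : TM) (z : Zp) : Option Zp :=
  (dl M z.1 z.2.2.1).bind (fun r =>
    if r.2.2 = 0 then z.2.1.head?.map (fun c => (r.1, z.2.1.tail, c, r.2.1 :: z.2.2.2))
    else if r.2.2 = 1 then some (r.1, z.2.1, r.2.1, z.2.2.2)
    else z.2.2.2.head?.map (fun c => (r.1, r.2.1 :: z.2.1, c, z.2.2.2.tail)))

def xstep (M : TM) (x : Zp × ℕ × ℕ) : Option (Zp × ℕ × ℕ) :=
  (zstep M x.1).map (fun z => (z, min x.2.1 z.2.1.length, max x.2.2 z.2.1.length))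

def simN (M : TM) (x0 : Zp × ℕ × ℕ) : ℕ → Option (Zp × ℕ × ℕ)
  | 0 => some x0
  | n+1 => (simN M x0 n).bind (xstep M)

theorem prim_zstep (M : TM) : Primrec (zstep M) := by
  unfold zstep
  have z1 : Primrec (fun z : Zp => z.1) := fst
  have z2 : Primrec (fun z : Zp => z.2.1) := fst.comp snd
  have z3 : Primrec (fun z : Zp => z.2.2.1) := fst.comp (snd.comp snd)
  have z4 : Primrec (fun z : Zp => z.2.2.2) := snd.comp (snd.comp snd)
  apply Primrec.option_bind ((prim_dl M).comp z1 z3)
  -- p : Zp × (ℕ × ℕ × ℕ)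
  have r1 : Primrec (fun p : Zp × (ℕ × ℕ × ℕ) => p.2.1) := fst.comp snd
  have r2 : Primrec (fun p : Zp × (ℕ × ℕ × ℕ) => p.2.2.1) := fst.comp (snd.comp snd)
  have r3 : Primrec (fun p : Zp × (ℕ × ℕ × ℕ) => p.2.2.2) := snd.comp (snd.comp snd)
  have w2 : Primrec (fun p : Zp × (ℕ × ℕ × ℕ) => p.1.2.1) := z2.comp fst
  have w4 : Primrec (fun p : Zp × (ℕ × ℕ × ℕ) => p.1.2.2.2) := z4.comp fst
  apply Primrec.ite (Primrec.eq.comp r3 (Primrec.const 0))
  · apply Primrec.option_map (Primrec.list_head?.comp w2)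
    exact Primrec.pair (r1.comp fst) (Primrec.pair (Primrec.list_tail.comp (w2.comp fst))
      (Primrec.pair snd (Primrec.list_cons.comp (r2.comp fst) (w4.comp fst))))
  · apply Primrec.ite (Primrec.eq.comp r3 (Primrec.const 1))
    · exact Primrec.option_some.comp (Primrec.pair r1 (Primrec.pair w2 (Primrec.pair r2 w4)))
    · apply Primrec.option_map (Primrec.list_head?.comp w4)
      exact Primrec.pair (r1.comp fst) (Primrec.pair (Primrec.list_cons.comp (r2.comp fst) (w2.comp fst))
        (Primrec.pair snd (Primrec.list_tail.comp (w4.comp fst))))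

theorem prim_xstep (M : TM) : Primrec (xstep M) := by
  unfold xstep
  apply Primrec.option_map ((prim_zstep M).comp fst)
  have hl : Primrec (fun p : (Zp × ℕ × ℕ) × Zp => p.2.2.1.length) :=
    Primrec.list_length.comp (fst.comp (snd.comp snd))
  exact Primrec.pair snd (Primrec.pair
    (Primrec.nat_min.comp (fst.comp (snd.comp fst)) hl)
    (Primrec.nat_max.comp (snd.comp (snd.comp fst)) hl))

theorem prim_simN (M : TM) : Primrec₂ (simN M) := by
  have h : Primrec₂ (fun (x0 : Zp × ℕ × ℕ) (n : ℕ) =>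
      (Nat.rec (some x0) (fun _ o => o.bind (xstep M)) n : Option (Zp × ℕ × ℕ))) := by
    apply Primrec.nat_rec (g := fun (_ : Zp × ℕ × ℕ) (p : ℕ × Option (Zp × ℕ × ℕ)) =>
      p.2.bind (xstep M)) Primrec.option_some
    apply Primrec.option_bind (snd.comp snd)
    exact (prim_xstep M).comp snd
  refine h.of_eq ?_
  intro x0 n
  induction n with
  | zero => rfl
  | succ n ih => simp only [simN, ← ih]

/-- symbol of the cell number `c` according to the code prefix `σ` -/
def symAt (s : ℕ) (σ : List Bool) (c : ℕ) : ℕ :=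
  (List.range s).findIdx (fun j => σ.getD (Nat.pair (c+1) j) false)

def stAt (q : ℕ) (σ : List Bool) : ℕ :=
  (List.range q).findIdx (fun j => σ.getD (Nat.pair 0 j) false)

theorem prim_symAt (s : ℕ) : Primrec₂ (symAt s) := by
  unfold symAt
  apply Primrec.list_findIdx (Primrec.const (List.range s))
  exact (Primrec.list_getD false).comp (fst.comp fst)
    (Primrec₂.natPair.comp (Primrec.nat_add.comp (snd.comp fst) (Primrec.const 1)) snd)

theorem prim_stAt (q : ℕ) : Primrec (stAt q) := by
  unfold stAt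
  apply Primrec.list_findIdx (Primrec.const (List.range q))
  exact (Primrec.list_getD false).comp fst (Primrec₂.natPair.comp (Primrec.const 0) snd)

theorem findIdx_range {s v : ℕ} (hv : v < s) {p : ℕ → Bool} (h1 : p v = true)
    (h2 : ∀ j < v, p j = false) : (List.range s).findIdx p = v := by
  rw [List.findIdx_eq (by simpa using hv)]
  constructor
  · simpa using h1
  · intro j hj
    simpa using h2 j hj

def idx (t i : ℕ) : ℕ := if i < t then 2*(t-i-1)+1 else 2*(i-t)

theorem idx_symm (t i : ℕ) : Equiv.intEquivNat.symm (idx t i) = (i:ℤ) - t := by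
  unfold idx
  split_ifs with h
  · rw [symm_odd, Int.negSucc_eq]; omega
  · rw [symm_even]; omega

def x0 (M : TM) (σ : List Bool) (t : ℕ) : Zp × ℕ × ℕ :=
  ((stAt M.q σ, (List.range t).map (fun k => symAt M.s σ (2*k+1)), symAt M.s σ 0,
    (List.range t).map (fun k => symAt M.s σ (2*(k+1)))), t, t)

theorem prim_x0 (M : TM) : Primrec₂ (x0 M) := by
  unfold x0
  have hs : Primrec (fun p : List Bool × ℕ => stAt M.q p.1) := (prim_stAt M.q).comp fst
  have h1 : Primrec (fun p : List Bool × ℕ => (List.range p.2).map (fun k => symAt M.s p.1 (2*k+1))) := by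
    apply Primrec.list_map (Primrec.list_range.comp snd)
    exact (prim_symAt M.s).comp (fst.comp fst) (Primrec.nat_double_succ.comp snd)
  have h2 : Primrec (fun p : List Bool × ℕ => symAt M.s p.1 0) :=
    (prim_symAt M.s).comp fst (Primrec.const 0)
  have h3 : Primrec (fun p : List Bool × ℕ => (List.range p.2).map (fun k => symAt M.s p.1 (2*(k+1)))) := by
    apply Primrec.list_map (Primrec.list_range.comp snd)
    exact (prim_symAt M.s).comp (fst.comp fst)
      (Primrec.nat_double.comp (Primrec.nat_add.comp snd (Primrec.const 1)))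
  exact Primrec.pair (Primrec.pair hs (Primrec.pair h1 (Primrec.pair h2 h3))) (Primrec.pair snd snd)

/-- bound on the number of code bits needed for `t` steps -/
def gB (M : TM) (t : ℕ) : ℕ := (2*t + M.s + M.q + 3)^2

def phi2 (M : TM) (wt : List Bool) (σ : List Bool) (n : ℕ) : Option Bool :=
  if gB M σ.length.unpair.1 ≤ σ.length then
    (simN M (x0 M σ σ.length.unpair.1) σ.length.unpair.1).bind (fun x =>
      if 16*8^(n+1) ≤ x.2.2 - x.2.1 - 3 then
        some (decN n (x.2.2 - x.2.1 - 3)
          (cnt (fun i => wt.getD (symAt M.s σ (idx σ.length.unpair.1 (x.2.1+2+i))) false)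
            (x.2.2 - x.2.1 - 3)))
      else none)
  else none

theorem prim_decN {α : Type} [Primcodable α] {f g h : α → ℕ} (hf : Primrec f) (hg : Primrec g)
    (hh : Primrec h) : Primrec (fun a => decN (f a) (g a) (h a)) := by
  unfold decN
  have hp : Primrec (fun a => 8^(f a+1)) :=
    prim_pow.comp (Primrec.const 8) (Primrec.nat_add.comp hf (Primrec.const 1))
  have e1 : Primrec (fun a => 8^(f a+1)*(4*h a) + 2*g a - 8^(f a+1)*g a) :=
    Primrec.nat_sub.comp
      (Primrec.nat_add.comp (Primrec.nat_mul.comp hp (Primrec.nat_mul.comp (Primrec.const 4) hh))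
        (Primrec.nat_mul.comp (Primrec.const 2) hg))
      (Primrec.nat_mul.comp hp hg)
  have e2 : Primrec (fun a => (8^(f a+1)*(4*h a) + 2*g a - 8^(f a+1)*g a) / (4*g a) % 8) :=
    Primrec.nat_mod.comp (Primrec.nat_div.comp e1 (Primrec.nat_mul.comp (Primrec.const 4) hg))
      (Primrec.const 8)
  exact (Primrec.eq.comp e2 (Primrec.const 1)).decide

theorem prim_cnt {α : Type} [Primcodable α] {β : α → ℕ → Bool} {f : α → ℕ} (hβ : Primrec₂ β)
    (hf : Primrec f) : Primrec (fun a => cnt (β a) (f a)) := by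
  have h : Primrec (fun a => (Nat.rec 0 (fun i c => c + (if β a i = true then 1 else 0)) (f a) : ℕ)) := by
    apply Primrec.nat_rec' (h := fun (a : α) (p : ℕ × ℕ) => p.2 + (if β a p.1 = true then 1 else 0))
      hf (Primrec.const 0)
    apply Primrec.nat_add.comp (snd.comp snd)
    exact Primrec.ite (Primrec.eq.comp (hβ.comp fst (fst.comp snd)) (Primrec.const true))
      (Primrec.const 1) (Primrec.const 0)
  refine h.of_eq ?_
  intro a
  induction f a with
  | zero => rfl
  | succ n ih => simp only [cnt, ← ih]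

theorem prim_phi2 (M : TM) (wt : List Bool) : Primrec₂ (phi2 M wt) := by
  unfold phi2
  have hlen : Primrec (fun p : List Bool × ℕ => p.1.length) := Primrec.list_length.comp fst
  have ht : Primrec (fun p : List Bool × ℕ => p.1.length.unpair.1) :=
    fst.comp (Primrec.unpair.comp hlen)
  have hg : Primrec (fun p : List Bool × ℕ => gB M p.1.length.unpair.1) := by
    unfold gB
    apply prim_pow.comp _ (Primrec.const 2)
    exact Primrec.nat_add.comp (Primrec.nat_add.comp (Primrec.nat_add.comp
      (Primrec.nat_mul.comp (Primrec.const 2) ht) (Primrec.const M.s)) (Primrec.const M.q)) (Primrec.const 3)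
  apply Primrec.ite (Primrec.nat_le.comp hg hlen) _ (Primrec.const none)
  apply Primrec.option_bind ((prim_simN M).comp ((prim_x0 M).comp fst ht) ht)
  -- p : (List Bool × ℕ) × (Zp × ℕ × ℕ)
  have hmn : Primrec (fun p : (List Bool × ℕ) × (Zp × ℕ × ℕ) => p.2.2.1) := fst.comp (snd.comp snd)
  have hmx : Primrec (fun p : (List Bool × ℕ) × (Zp × ℕ × ℕ) => p.2.2.2) := snd.comp (snd.comp snd)
  have hL : Primrec (fun p : (List Bool × ℕ) × (Zp × ℕ × ℕ) => p.2.2.2 - p.2.2.1 - 3) :=
    Primrec.nat_sub.comp (Primrec.nat_sub.comp hmx hmn) (Primrec.const 3)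
  have hn : Primrec (fun p : (List Bool × ℕ) × (Zp × ℕ × ℕ) => p.1.2) := snd.comp fst
  have hb : Primrec (fun p : (List Bool × ℕ) × (Zp × ℕ × ℕ) => 16*8^(p.1.2+1)) :=
    Primrec.nat_mul.comp (Primrec.const 16)
      (prim_pow.comp (Primrec.const 8) (Primrec.nat_add.comp hn (Primrec.const 1)))
  apply Primrec.ite (Primrec.nat_le.comp hb hL) _ (Primrec.const none)
  apply Primrec.option_some.comp
  apply prim_decN hn hL
  apply prim_cnt _ hL
  -- the bit function
  have hidx : Primrec₂ idx := by
    unfold idx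
    apply Primrec.ite (Primrec.nat_lt.comp snd fst)
    · exact Primrec.nat_double_succ.comp (Primrec.nat_sub.comp (Primrec.nat_sub.comp fst snd) (Primrec.const 1))
    · exact Primrec.nat_double.comp (Primrec.nat_sub.comp snd fst)
  apply (Primrec.list_getD false).comp (Primrec.const wt)
  apply (prim_symAt M.s).comp (fst.comp (fst.comp fst))
  apply hidx.comp (ht.comp (fst.comp fst))
  exact Primrec.nat_add.comp (Primrec.nat_add.comp (hmn.comp fst) (Primrec.const 2)) snd

end H74
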