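import Pool.Agent.H74.Phi2

set_option linter.unusedSectionVars false
set_option linter.unusedVariables false

namespace H74

noncomputable section

variable {ι Q : Type} [DecidableEq ι] [Fintype ι] [DecidableEq Q] [Fintype Q]

def cellv (w : ℤ → Bool) (c : Conf ι Q) (z : ℤ) : ℕ := (eT ι Q (w z, c.S z, c.H z)).val

structure Rep (w : ℤ → Bool) (ρ : ℕ) (c : Conf ι Q) (x : Zp × ℕ × ℕ) : Prop where
  hq : x.1.1 = (eS ι Q c.st).val
  hL : ∃ n : ℕ, (n:ℤ) = c.pos + ρ ∧
    x.1.2.1 = (List.range n).map (fun i : ℕ => cellv w c (c.pos - 1 - i))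
  ha : x.1.2.2.1 = cellv w c c.pos
  hR : ∃ m : ℕ, (m:ℤ) = ρ - c.pos ∧
    x.1.2.2.2 = (List.range m).map (fun i : ℕ => cellv w c (c.pos + 1 + i))
  hmn : (x.2.1 : ℤ) = c.lo + ρ
  hmx : (x.2.2 : ℤ) = c.hi + ρ

theorem rep_step (C : Code ι Q) {w : ℤ → Bool} {ρ : ℕ} {c c' : Conf ι Q} {x : Zp × ℕ × ℕ}
    (h : Rep w ρ c x) (hs : step C w c = some c') (h1 : 0 < c.pos + ρ) (h2 : 0 < ρ - c.pos) :
    ∃ x', xstep (toTM C) x = some x' ∧ Rep w ρ c' x' := by
  obtain ⟨hq, ⟨n, hn, hL⟩, ha, ⟨m, hm, hR⟩, hmn, hmx⟩ := h
  obtain ⟨⟨q, L, a, R⟩, mn, mx⟩ := x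
  simp only at hq hL ha hR hmn hmx
  unfold step at hs
  cases hact : act C c.st (w c.pos) (c.S c.pos) (c.H c.pos) with
  | none => simp [hact] at hs
  | some r =>
    obtain ⟨st', S', h', d⟩ := r
    simp only [hact, Option.some.injEq] at hs
    have hdl : dl (toTM C) q a = some ((eS ι Q st').val, (eT ι Q (w c.pos, S', h')).val, dirN d.dir) := by
      rw [hq, ha]
      unfold cellv
      have := dl_eq (toTM C) (eS ι Q c.st) (eT ι Q (w c.pos, c.S c.pos, c.H c.pos))
      refine this.trans ?_
      simp [toTM, hact]
    obtain ⟨n', rfl⟩ : ∃ n', n = n' + 1 := ⟨n - 1, by omega⟩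
    obtain ⟨m', rfl⟩ : ∃ m', m = m' + 1 := ⟨m - 1, by omega⟩
    -- cells away from the head are unchanged
    have hcell : ∀ z, z ≠ c.pos → cellv w c' z = cellv w c z := by
      intro z hz
      rw [← hs]
      unfold cellv
      simp [Function.update_of_ne hz]
    have hcell0 : cellv w c' c.pos = (eT ι Q (w c.pos, S', h')).val := by
      rw [← hs]
      unfold cellv
      simp
    have hst' : c'.st = st' := by rw [← hs]
    have hpos' : c'.pos = c.pos + d.z := by rw [← hs]
    have hlo' : c'.lo = min c.lo (c.pos + d.z) := by rw [← hs]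
    have hhi' : c'.hi = max c.hi (c.pos + d.z) := by rw [← hs]
    cases d with
    | L =>
      simp only [Mv.z_L] at hpos' hlo' hhi'
      refine ⟨(((eS ι Q st').val, (List.range n').map (fun i : ℕ => cellv w c (c.pos - 1 - (i+1 : ℕ))),
        cellv w c (c.pos - 1), (eT ι Q (w c.pos, S', h')).val :: R), min mn n', max mx n'), ?_, ?_⟩
      · unfold xstep zstep
        simp only [hdl, Option.bind_some, dirN, Mv.dir, if_true]
        rw [hL, List.range_succ_eq_map]
        simp [List.map_map, Function.comp_def]
      · refine ⟨by rw [hst'], ⟨n', by rw [hpos']; push_cast at hn; omega, ?_⟩, ?_, ⟨m'+2, by rw [hpos']; push_cast at hm ⊢; omega, ?_⟩, ?_, ?_⟩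
        · simp only
          apply List.map_congr_left
          intro i _
          rw [hcell _ (by rw [hpos']; omega), hpos']
          congr 1
          push_cast; ring
        · simp only
          rw [hpos', hcell _ (by omega)]
          congr 1
        · simp only
          rw [List.range_succ_eq_map, List.map_cons, List.map_map]
          congr 1
          · rw [← hcell0, hpos']
            congr 1
            simp
          · rw [hR]
            apply List.map_congr_left
            intro i _
            simp only [Function.comp_apply]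
            rw [hcell _ (by rw [hpos']; push_cast; omega), hpos']
            congr 1
            push_cast; ring
        · simp only; rw [hlo']; push_cast at hn ⊢; omega
        · simp only; rw [hhi']; push_cast at hn ⊢; omega
    | N =>
      simp only [Mv.z_N, add_zero] at hpos' hlo' hhi'
      refine ⟨(((eS ι Q st').val, L, (eT ι Q (w c.pos, S', h')).val, R), min mn L.length, max mx L.length), ?_, ?_⟩
      · unfold xstep zstep
        simp only [hdl, Option.bind_some, dirN, Mv.dir]
        simp
      · refine ⟨by rw [hst'], ⟨n'+1, by rw [hpos']; omega, ?_⟩, ?_, ⟨m'+1, by rw [hpos']; omega, ?_⟩, ?_, ?_⟩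
        · simp only
          rw [hL]
          apply List.map_congr_left
          intro i _
          rw [hcell _ (by rw [hpos']; omega), hpos']
        · simp only
          rw [hpos', hcell0]
        · simp only
          rw [hR]
          apply List.map_congr_left
          intro i _
          rw [hcell _ (by rw [hpos']; omega), hpos']
        · simp only; rw [hlo', hL]; simp; push_cast at hn; omega
        · simp only; rw [hhi', hL]; simp; push_cast at hn; omega
    | R =>
      simp only [Mv.z_R] at hpos' hlo' hhi'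
      refine ⟨(((eS ι Q st').val, (eT ι Q (w c.pos, S', h')).val :: L,
        cellv w c (c.pos + 1), (List.range m').map (fun i : ℕ => cellv w c (c.pos + 1 + (i+1 : ℕ)))),
        min mn (n'+2), max mx (n'+2)), ?_, ?_⟩
      · unfold xstep zstep
        simp only [hdl, Option.bind_some, dirN, Mv.dir]
        rw [hR, List.range_succ_eq_map, hL]
        simp [List.map_map, Function.comp_def]
      · refine ⟨by rw [hst'], ⟨n'+2, by rw [hpos']; push_cast at hn ⊢; omega, ?_⟩, ?_, ⟨m', by rw [hpos']; push_cast at hm; omega, ?_⟩, ?_, ?_⟩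
        · simp only
          rw [List.range_succ_eq_map, List.map_cons, List.map_map]
          congr 1
          · rw [← hcell0, hpos']
            congr 1
            simp
          · rw [hL]
            apply List.map_congr_left
            intro i _
            simp only [Function.comp_apply]
            rw [hcell _ (by rw [hpos']; push_cast; omega), hpos']
            congr 1
            push_cast; ring
        · simp only
          rw [hpos', hcell _ (by omega)]
        · simp only
          apply List.map_congr_left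
          intro i _
          rw [hcell _ (by rw [hpos']; omega), hpos']
          congr 1
          push_cast; ring
        · simp only; rw [hlo']; push_cast at hn ⊢; omega
        · simp only; rw [hhi']; push_cast at hn ⊢; omega

theorem pos_bd {C : Code ι Q} {w : ℤ → Bool} {c : Conf ι Q} (h0 : c.pos = 0) : ∀ {n : ℕ}
    {c' : Conf ι Q}, runO C w c n = some c' → -(n:ℤ) ≤ c'.pos ∧ c'.pos ≤ n := by
  intro n
  induction n with
  | zero => intro c' h; simp [runO] at h; subst h; rw [h0]; simp
  | succ n ih =>
    intro c' h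
    simp only [runO, Option.bind_eq_some_iff] at h
    obtain ⟨d, h1, h2⟩ := h
    have h3 := ih h1
    unfold step at h2
    split at h2
    · simp at h2
    · rename_i st' S' h' mv _
      simp only [Option.some.injEq] at h2
      subst h2
      simp only
      cases mv <;> simp <;> omega

theorem sim_rep (C : Code ι Q) {w : ℤ → Bool} {t : ℕ} {c : Conf ι Q} {x : Zp × ℕ × ℕ}
    (h0 : c.pos = 0) (h : Rep w t c x) (hnh : ¬ Halts C w c) :
    ∀ k ≤ t, ∃ c' x', runO C w c k = some c' ∧ simN (toTM C) x k = some x' ∧ Rep w t c' x' := by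
  intro k
  induction k with
  | zero => intro _; exact ⟨c, x, rfl, rfl, h⟩
  | succ k ih =>
    intro hk
    obtain ⟨c1, x1, h1, h2, h3⟩ := ih (by omega)
    have hp := pos_bd h0 h1
    obtain ⟨c2, hc2⟩ := runO_some_of_not_halts hnh (k+1)
    have hs : step C w c1 = some c2 := by
      simpa [runO, h1] using hc2
    obtain ⟨x2, hx2, hr⟩ := rep_step C h3 hs (by omega) (by omega)
    exact ⟨c2, x2, hc2, by simp [simN, h2, hx2], hr⟩

/-! ### reading the code -/

theorem pref_getD (y : ℕ → Bool) {k i : ℕ} (h : i < k) : (pref y k).getD i false = y i := by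
  rw [List.getD_eq_getElem _ _ (by rw [pref_length]; exact h)]
  simp [pref]

theorem symAt_code (M : TM) (y : M.Cfg) {k t c : ℕ} (hk : gB M t ≤ k) (hc : c ≤ 2*t) :
    symAt M.s (pref (M.code y) k) c = (y.2 (Equiv.intEquivNat.symm c)).val := by
  unfold symAt
  have hlt : ∀ j < M.s, Nat.pair (c+1) j < k := by
    intro j hj
    refine lt_of_lt_of_le (Nat.pair_lt_max_add_one_sq _ _) (le_trans ?_ hk)
    unfold gB
    apply Nat.pow_le_pow_left
    omega
  have hval : ∀ j < M.s, (pref (M.code y) k).getD (Nat.pair (c+1) j) false =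
      decide ((y.2 (Equiv.intEquivNat.symm c)).val = j) := by
    intro j hj
    rw [pref_getD _ (hlt j hj)]
    simp [TM.code]
  apply findIdx_range (y.2 (Equiv.intEquivNat.symm c)).isLt
  · rw [hval _ (y.2 (Equiv.intEquivNat.symm c)).isLt]; simp
  · intro j hj
    rw [hval j (lt_trans hj (y.2 (Equiv.intEquivNat.symm c)).isLt)]
    simp only [decide_eq_false_iff_not]
    omega

theorem stAt_code (M : TM) (y : M.Cfg) {k t : ℕ} (hk : gB M t ≤ k) :
    stAt M.q (pref (M.code y) k) = y.1.val := by
  unfold stAt
  have hlt : ∀ j < M.q, Nat.pair 0 j < k := by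
    intro j hj
    refine lt_of_lt_of_le (Nat.pair_lt_max_add_one_sq _ _) (le_trans ?_ hk)
    unfold gB
    apply Nat.pow_le_pow_left
    omega
  have hval : ∀ j < M.q, (pref (M.code y) k).getD (Nat.pair 0 j) false =
      decide (y.1.val = j) := by
    intro j hj
    rw [pref_getD _ (hlt j hj)]
    simp [TM.code]
  apply findIdx_range y.1.isLt
  · rw [hval _ y.1.isLt]; simp
  · intro j hj
    rw [hval j (lt_trans hj y.1.isLt)]
    simp only [decide_eq_false_iff_not]
    omega

def wtab (ι Q : Type) [DecidableEq ι] [Fintype ι] [DecidableEq Q] [Fintype Q] : List Bool :=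
  List.ofFn fun a : Fin (Fintype.card (Sym ι Q)) => ((eT ι Q).symm a).1

theorem wtab_getD (a : Fin (Fintype.card (Sym ι Q))) :
    (wtab ι Q).getD a.val false = ((eT ι Q).symm a).1 := by
  unfold wtab
  rw [List.getD_eq_getElem _ _ (by rw [List.length_ofFn]; exact a.isLt), List.getElem_ofFn]

theorem rep_init (C : Code ι Q) (y : (toTM C).Cfg) {k t : ℕ} (hk : gB (toTM C) t ≤ k) :
    Rep (wOf C y) t (confOf C y) (x0 (toTM C) (pref ((toTM C).code y) k) t) := by
  have hcv : ∀ z, cellv (wOf C y) (confOf C y) z = (y.2 z).val := by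
    intro z
    unfold cellv wOf confOf
    simp only
    have : (eT ι Q) (((eT ι Q).symm (y.2 z)).1, ((eT ι Q).symm (y.2 z)).2.1, ((eT ι Q).symm (y.2 z)).2.2)
      = y.2 z := Equiv.apply_symm_apply (eT ι Q) (y.2 z)
    rw [this]
  refine ⟨?_, ⟨t, by simp [confOf], ?_⟩, ?_, ⟨t, by simp [confOf], ?_⟩, ?_, ?_⟩
  · simp only [x0]
    rw [stAt_code _ _ hk]
    have : (eS ι Q) (confOf C y).st = y.1 := Equiv.apply_symm_apply (eS ι Q) y.1
    rw [this]
  · simp only [x0]
    apply List.map_congr_left
    intro i hi
    rw [List.mem_range] at hi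
    rw [hcv, symAt_code _ _ hk (by omega), symm_odd, Int.negSucc_eq]
    congr 2
    simp [confOf]; ring_nf
  · simp only [x0]
    rw [hcv, symAt_code _ _ hk (by omega)]
    have := symm_even 0
    simp only [mul_zero] at this
    rw [this]
    simp [confOf]
  · simp only [x0]
    apply List.map_congr_left
    intro i hi
    rw [List.mem_range] at hi
    rw [hcv, symAt_code _ _ hk (by omega), symm_even]
    congr 2
    simp [confOf]; ring_nf
  · simp [x0, confOf]
  · simp [x0, confOf]

/-- value of the second functional -/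
theorem phi2_value (C : Code ι Q) (y : (toTM C).Cfg)
    (hnh : ¬ Halts C (wOf C y) (confOf C y)) (k n : ℕ)
    (hk : gB (toTM C) k.unpair.1 ≤ k) :
    ∃ c, runO C (wOf C y) (confOf C y) k.unpair.1 = some c ∧
      phi2 (toTM C) (wtab ι Q) (pref ((toTM C).code y) k) n =
        if 16*8^(n+1) ≤ (c.hi - c.lo - 3).toNat then
          some (decN n (c.hi - c.lo - 3).toNat
            (A (wOf C y) (c.lo + 2) (c.hi - c.lo - 3).toNat).toNat)
        else none := by
  set t := k.unpair.1 with ht
  have hrep := rep_init C y hk
  obtain ⟨c, x, h1, h2, h3⟩ := sim_rep C rfl hrep hnh t le_rfl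
  refine ⟨c, h1, ?_⟩
  unfold phi2
  rw [pref_length, ← ht, if_pos hk, h2, Option.bind_some]
  have hinv := runO_inv (C := C) (w := wOf C y) (c := confOf C y) (by simp [confOf]) h1
  have hlen : x.2.2 - x.2.1 - 3 = (c.hi - c.lo - 3).toNat := by
    have := h3.hmn
    have := h3.hmx
    omega
  rw [hlen]
  by_cases hc : 16*8^(n+1) ≤ (c.hi - c.lo - 3).toNat
  · rw [if_pos hc, if_pos hc]
    congr 2
    have hAnn := (A_bd (wOf C y) (c.lo + 2) (c.hi - c.lo - 3).toNat).1
    have hcnt := cnt_A (wOf C y) (c.lo + 2) (c.hi - c.lo - 3).toNat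
    have heq : cnt (fun i => (wtab ι Q).getD (symAt (toTM C).s (pref ((toTM C).code y) k)
        (idx t (x.2.1 + 2 + i))) false) (c.hi - c.lo - 3).toNat =
        cnt (fun i => wOf C y (c.lo + 2 + i)) (c.hi - c.lo - 3).toNat := by
      have hcong : ∀ (β β' : ℕ → Bool) (N : ℕ), (∀ i < N, β i = β' i) → cnt β N = cnt β' N := by
        intro β β' N
        induction N with
        | zero => intro _; rfl
        | succ N ih =>
          intro h
          simp only [cnt]
          rw [ih (fun i hi => h i (by omega)), h N (by omega)]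
      apply hcong
      intro i hi
      have hmn := h3.hmn
      have hhi := hinv.2.2
      simp only [confOf] at hhi
      have hb : x.2.1 + 2 + i ≤ 2 * t := by omega
      have hidx : idx t (x.2.1 + 2 + i) ≤ 2 * t := by
        unfold idx; split_ifs <;> omega
      rw [symAt_code _ _ hk hidx, idx_symm]
      have e : ((x.2.1 + 2 + i : ℕ) : ℤ) - t = c.lo + 2 + i := by push_cast; omega
      rw [e]
      exact wtab_getD (y.2 (c.lo + 2 + i))
    rw [heq]
    omega
  · rw [if_neg hc, if_neg hc]

end

end H74
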