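import Pool.Agent.H74.Analysis

set_option linter.unusedSectionVars false
set_option linter.unusedVariables false

namespace H74

open Primrec

theorem prim_pow : Primrec₂ ((· ^ ·) : ℕ → ℕ → ℕ) := Primrec₂.unpaired'.1 Nat.Primrec.pow

theorem prim_KK : Primrec KK := by
  have : Primrec (fun σ : List Bool => σ.foldl (fun (a : ℕ) (b : Bool) => 8*a + (if b then 1 else 0)) 0) := by
    apply Primrec.list_foldl (h := fun _ (p : ℕ × Bool) => 8*p.1 + (if p.2 then 1 else 0)) Primrec.id (Primrec.const 0)
    apply Primrec.nat_add.comp
    · exact Primrec.nat_mul.comp (Primrec.const 8) (fst.comp snd)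
    · exact Primrec.ite (Primrec.eq.comp (snd.comp snd) (Primrec.const true)) (Primrec.const 1) (Primrec.const 0)
  exact this

theorem prim_near : PrimrecRel (fun (σ : List Bool) (c : ℕ) => near σ c) := by
  unfold near
  have hlen : Primrec (fun p : List Bool × ℕ => p.1.length) := Primrec.list_length.comp fst
  have hpow : Primrec (fun p : List Bool × ℕ => 8^p.1.length) :=
    prim_pow.comp (Primrec.const 8) hlen
  have hK : Primrec (fun p : List Bool × ℕ => KK p.1) := prim_KK.comp fst
  have e1 : Primrec (fun p : List Bool × ℕ => 4 * 8^p.1.length * p.2) :=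
    Primrec.nat_mul.comp (Primrec.nat_mul.comp (Primrec.const 4) hpow) snd
  have e2 : Primrec (fun p : List Bool × ℕ => p.1.length * (8^p.1.length + 4 * KK p.1)) :=
    Primrec.nat_mul.comp hlen (Primrec.nat_add.comp hpow (Primrec.nat_mul.comp (Primrec.const 4) hK))
  have e3 : Primrec (fun p : List Bool × ℕ => 12 * 8^p.1.length) :=
    Primrec.nat_mul.comp (Primrec.const 12) hpow
  exact PrimrecPred.and (Primrec.nat_le.comp e1 (Primrec.nat_add.comp e2 e3))
    (Primrec.nat_le.comp e2 (Primrec.nat_add.comp e1 e3))

theorem prim_allL : Primrec allL := by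
  have h : Primrec (fun n : ℕ => (Nat.rec [[]] (fun _ IH => List.flatMap (fun σ => [σ ++ [false], σ ++ [true]]) IH) n : List (List Bool))) := by
    apply Primrec.nat_rec₁ (f := fun _ IH => List.flatMap (fun σ => [σ ++ [false], σ ++ [true]]) IH)
    apply Primrec.list_flatMap snd
    have a1 : Primrec₂ (fun (_ : ℕ × List (List Bool)) (σ : List Bool) => σ ++ [false]) :=
      Primrec.list_append.comp snd (Primrec.const _)
    have a2 : Primrec₂ (fun (_ : ℕ × List (List Bool)) (σ : List Bool) => σ ++ [true]) :=
      Primrec.list_append.comp snd (Primrec.const _)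
    exact Primrec.list_cons.comp a1 (Primrec.list_cons.comp a2 (Primrec.const []))
  refine h.of_eq ?_
  intro n
  induction n with
  | zero => rfl
  | succ n ih => simp only [allL, ← ih]

theorem prim_goodT {T : List Bool → Bool} (hT : Primrec T) : Primrec₂ (goodT T) := by
  have hR : PrimrecRel (fun (σ : List Bool) (c : ℕ) => T σ = true ∧ near σ c) :=
    PrimrecPred.and (Primrec.eq.comp (hT.comp fst) (Primrec.const true)) prim_near
  have h1 := hR.exists_mem_list
  have h2 : PrimrecPred (fun p : ℕ × ℕ => ∃ σ ∈ allL p.1, T σ = true ∧ near σ p.2) :=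
    h1.comp (prim_allL.comp fst) snd
  exact h2.decide

theorem prim_hfun {T : List Bool → Bool} (hT : Primrec T) (b : Bool) :
    Primrec (hfun (goodT T) b) := by
  unfold hfun
  have e1 : Primrec (fun v : ℕ => v.unpair.1 + 1) :=
    Primrec.nat_add.comp (fst.comp Primrec.unpair) (Primrec.const 1)
  have e2 : Primrec (fun v : ℕ => v.unpair.2 + (if b then 1 else 0)) :=
    Primrec.nat_add.comp (snd.comp Primrec.unpair) (Primrec.const _)
  apply Primrec.ite
  · exact Primrec.eq.comp ((prim_goodT hT).comp e1 e2) (Primrec.const true)
  · exact Primrec.nat_add.comp (Primrec₂.natPair.comp e1 e2) (Primrec.const 1)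
  · exact Primrec.const 0

theorem comp_hfun {T : List Bool → Bool} (hT : Primrec T) (b : Bool) :
    Compiles (fun v : List.Vector ℕ 1 => hfun (goodT T) b v.head) :=
  compiles_primrec' (Nat.Primrec'.prim_iff₁.2 (prim_hfun hT b))

/-! ### primitive recursive trees -/

def treeOf (c : Nat.Partrec.Code) (σ : List Bool) : Bool :=
  decide (∀ m < σ.length + 1, Nat.Partrec.Code.evaln σ.length c (Encodable.encode (σ.take m)) ≠ some 0)

theorem prim_treeOf (c : Nat.Partrec.Code) : Primrec (treeOf c) := by
  have hR : PrimrecRel (fun (m : ℕ) (σ : List Bool) =>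
      Nat.Partrec.Code.evaln σ.length c (Encodable.encode (σ.take m)) ≠ some 0) := by
    apply PrimrecPred.not
    apply Primrec.eq.comp _ (Primrec.const (some 0))
    have h1 : Primrec (fun p : ℕ × List Bool => ((p.2.length, c), Encodable.encode (p.2.take p.1))) :=
      Primrec.pair (Primrec.pair (Primrec.list_length.comp snd) (Primrec.const c))
        (Primrec.encode.comp (Primrec.list_take.comp fst snd))
    exact Nat.Partrec.Code.primrec_evaln.comp h1
  have h1 := hR.forall_mem_list
  have h2 : PrimrecPred (fun σ : List Bool => ∀ m ∈ List.range (σ.length + 1),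
      Nat.Partrec.Code.evaln σ.length c (Encodable.encode (σ.take m)) ≠ some 0) :=
    h1.comp (Primrec.list_range.comp (Primrec.nat_add.comp Primrec.list_length (Primrec.const 1)))
      Primrec.id
  have h3 := h2.decide
  refine h3.of_eq ?_
  intro σ
  simp [treeOf]

theorem exists_prim_tree {T : List Bool → Bool} (hT : Computable T) :
    ∃ T' : List Bool → Bool, Primrec T' ∧ (∀ σ m, T' σ = true → T' (σ.take m) = true) ∧
      ∀ x : ℕ → Bool, (∀ n, T' (pref x n) = true) ↔ (∀ n, T (pref x n) = true) := by
  have hT' : Partrec (fun σ => (Part.some (T σ) : Part Bool)) := hT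
  obtain ⟨c, hc⟩ := Nat.Partrec.Code.exists_code.1 hT'
  have hev : ∀ σ : List Bool, Nat.Partrec.Code.eval c (Encodable.encode σ) =
      Part.some (Encodable.encode (T σ)) := by
    intro σ
    rw [hc]
    simp [Encodable.encodek]
  refine ⟨treeOf c, prim_treeOf c, ?_, ?_⟩
  · intro σ m h
    simp only [treeOf, decide_eq_true_eq] at h ⊢
    intro j hj he
    have hle : (σ.take m).length ≤ σ.length := by simp
    have hj' : j ≤ (σ.take m).length := by omega
    have h1 : (σ.take m).take j = σ.take j := by
      rw [List.take_take]
      congr 1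
      rw [List.length_take] at hj'
      omega
    apply h j (by omega)
    rw [h1] at he
    exact Nat.Partrec.Code.evaln_mono hle he
  · intro x
    constructor
    · intro h n
      by_contra hcon
      have hf : T (pref x n) = false := by simpa using hcon
      have h1 : (0:ℕ) ∈ Nat.Partrec.Code.eval c (Encodable.encode (pref x n)) := by
        rw [hev, hf]; simp
      obtain ⟨k, hk⟩ := Nat.Partrec.Code.evaln_complete.1 h1
      have h2 := h (max k n)
      simp only [treeOf, decide_eq_true_eq, pref_length] at h2
      apply h2 n (by omega)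
      rw [pref_take x (le_max_right k n)]
      exact Nat.Partrec.Code.evaln_mono (le_max_left k n) hk
    · intro h n
      simp only [treeOf, decide_eq_true_eq, pref_length]
      intro m hm he
      rw [pref_take x (by omega : m ≤ n)] at he
      have h1 := Nat.Partrec.Code.evaln_sound he
      rw [hev, h m] at h1
      simp at h1

end H74
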