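import Pool.Agent.H74.Top3

set_option linter.unusedSectionVars false
set_option linter.unusedVariables false

namespace H74

noncomputable section
variable {ι Q : Type} [DecidableEq ι] [Fintype ι] [DecidableEq Q]

variable {C : Code ι Q} {w : ℤ → Bool}

def runO (C : Code ι Q) (w : ℤ → Bool) (c : Conf ι Q) : ℕ → Option (Conf ι Q)
  | 0 => some c
  | n+1 => (runO C w c n).bind (step C w)

theorem reaches_of_runO {c : Conf ι Q} : ∀ {n : ℕ} {c' : Conf ι Q}, runO C w c n = some c' →
    Reaches C w c c' := by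
  intro n
  induction n with
  | zero => intro c' h; simp [runO] at h; subst h; exact Reaches.refl _
  | succ n ih =>
    intro c' h
    simp only [runO, Option.bind_eq_some_iff] at h
    obtain ⟨d, h1, h2⟩ := h
    exact Relation.ReflTransGen.tail (ih h1) h2

theorem runO_of_reaches {c c' : Conf ι Q} (h : Reaches C w c c') :
    ∃ n, runO C w c n = some c' := by
  induction h with
  | refl => exact ⟨0, rfl⟩
  | @tail a b _ hs ih =>
    obtain ⟨n, hn⟩ := ih
    refine ⟨n+1, ?_⟩
    simp only [runO, hn, Option.bind_some]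
    exact hs

theorem step_lohi {c c' : Conf ι Q} (h : step C w c = some c') :
    c'.lo ≤ c.lo ∧ c.hi ≤ c'.hi ∧ c'.hi ≤ c.hi + 1 ∨ ¬ (c.lo ≤ c.pos ∧ c.pos ≤ c.hi) := by
  unfold step at h
  split at h
  · simp at h
  · rename_i st' S' h' d _
    simp only [Option.some.injEq] at h
    subst h
    by_cases hc : c.lo ≤ c.pos ∧ c.pos ≤ c.hi
    · left
      refine ⟨min_le_left _ _, le_max_left _ _, ?_⟩
      simp only
      cases d <;> simp <;> omega
    · right; exact hc

theorem step_inv {c c' : Conf ι Q} (h : step C w c = some c') :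
    c'.lo ≤ c'.pos ∧ c'.pos ≤ c'.hi ∧ c'.lo ≤ c.lo ∧ c.hi ≤ c'.hi := by
  unfold step at h
  split at h
  · simp at h
  · rename_i st' S' h' d _
    simp only [Option.some.injEq] at h
    subst h
    refine ⟨min_le_right _ _, le_max_right _ _, min_le_left _ _, le_max_left _ _⟩

theorem runO_inv {c : Conf ι Q} (h0 : c.lo ≤ c.pos ∧ c.pos ≤ c.hi) :
    ∀ {n : ℕ} {c' : Conf ι Q}, runO C w c n = some c' →
      c'.lo ≤ c'.pos ∧ c'.pos ≤ c'.hi ∧ c'.hi ≤ c.hi + n := by
  intro n
  induction n with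
  | zero => intro c' h; simp [runO] at h; subst h; exact ⟨h0.1, h0.2, by simp⟩
  | succ n ih =>
    intro c' h
    simp only [runO, Option.bind_eq_some_iff] at h
    obtain ⟨d, h1, h2⟩ := h
    have h3 := ih h1
    have h4 := step_inv h2
    have h5 := step_lohi h2
    refine ⟨h4.1, h4.2.1, ?_⟩
    rcases h5 with h5 | h5
    · push_cast; omega
    · exact absurd ⟨h3.1, h3.2.1⟩ h5

theorem runO_mono {c : Conf ι Q} {n : ℕ} {c1 : Conf ι Q} (h1 : runO C w c n = some c1) :
    ∀ (k : ℕ) {c2 : Conf ι Q}, runO C w c (n+k) = some c2 → c2.lo ≤ c1.lo ∧ c1.hi ≤ c2.hi := by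
  intro k
  induction k with
  | zero => intro c2 h; rw [Nat.add_zero, h1] at h; cases h; exact ⟨le_rfl, le_rfl⟩
  | succ k ih =>
    intro c2 h
    rw [← Nat.add_assoc] at h
    simp only [runO, Option.bind_eq_some_iff] at h
    obtain ⟨d, h3, h4⟩ := h
    have := ih h3
    have := step_inv h4
    omega

theorem runO_some_of_not_halts {c : Conf ι Q} (h : ¬ Halts C w c) :
    ∀ n, ∃ c', runO C w c n = some c' := by
  intro n
  induction n with
  | zero => exact ⟨c, rfl⟩
  | succ n ih =>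
    obtain ⟨d, hd⟩ := ih
    cases hs : step C w d with
    | none => exact absurd ⟨d, reaches_of_runO hd, hs⟩ h
    | some e => exact ⟨e, by simp [runO, hd, hs]⟩

theorem not_halts_of_runO {c : Conf ι Q} (h : ∀ n, ∃ c', runO C w c n = some c') :
    ¬ Halts C w c := by
  rintro ⟨d, h1, h2⟩
  obtain ⟨n, hn⟩ := runO_of_reaches h1
  obtain ⟨e, he⟩ := h (n+1)
  simp [runO, hn, h2] at he

/-- Soundness, in terms of runs. -/
theorem run_sound {τ : ι} {ρ : Q → ℕ} (PO : ProgOK C τ ρ) (st : State ι Q) (x : ℤ)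
    (S : ℤ → Finset ι) (H : ℤ → Hd ι Q) (hnh : ¬ Halts C w ⟨st, x, S, H, x, x⟩) :
    (∀ n c', runO C w ⟨st, x, S, H, x, x⟩ n = some c' → Wd C w c'.lo c'.hi) ∧
    (∀ N : ℕ, ∃ n c', runO C w ⟨st, x, S, H, x, x⟩ n = some c' ∧ (N : ℤ) ≤ c'.hi - c'.lo) := by
  have hI := top_inf PO st x S H hnh
  constructor
  · intro n c' hc
    obtain ⟨d, h1, h2, h3⟩ := hI ((c'.hi - c'.lo).toNat + 1)
    obtain ⟨m, hm⟩ := runO_of_reaches h1
    rcases Nat.le_total m n with hmn | hmn
    · obtain ⟨k, rfl⟩ := Nat.exists_eq_add_of_le hmn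
      have := runO_mono hm k hc
      push_cast at h2
      omega
    · obtain ⟨k, rfl⟩ := Nat.exists_eq_add_of_le hmn
      have := runO_mono hc k hm
      exact Wd_mono h3 this.1 this.2
  · intro N
    obtain ⟨d, h1, h2, h3⟩ := hI N
    obtain ⟨m, hm⟩ := runO_of_reaches h1
    exact ⟨m, d, hm, h2⟩

/-- Completeness. -/
theorem run_complete {τ : ι} {ρ : Q → ℕ} (PO : ProgOK C τ ρ)
    (hc : ∀ n, cond C w (fun _ => ∅) 0 n) :
    ¬ Halts C w ⟨.go (.rtoY false ∅ none none), 0, fun _ => ∅, fun _ => .B, 0, 0⟩ := by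
  rintro ⟨d, h1, h2⟩
  obtain ⟨K, hK⟩ := runO_of_reaches h1
  set c0 : Conf ι Q := ⟨.go (.rtoY false ∅ none none), 0, fun _ => ∅, fun _ => .B, 0, 0⟩ with hc0
  have e1 : Reaches C w c0 _ := launchR (C := C) (w := w) (r := .rtoY false ∅ none none) rfl
    (S := fun _ => ∅) (H := fun _ => .B) (hi := 0) (lo := 0) (x := 0)
    le_rfl rfl (by simp [target, tin])
  have g2 := frameR_grow (x := 0) (S := fun _ => ∅) (H := fun _ => .B) (hi := 0) (lo := 0) PO
    (r := .rtoY false ∅ none none) (N := K+1)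
    (fun m hm => cross PO w m) rfl (target C (.rtoY false ∅ none none)) le_rfl (K+1) le_rfl
    (fun z h1 h2 => ⟨rfl, by simp [target, tin]⟩)
  have hre := e1.trans (g2.1 (by
    intro k h1 h2
    refine ⟨cond_mono (hc (k+1)) (fun z h1 h2 => by omega), ?_⟩
    exact hc (k+1) 0 (k+1) le_rfl (by simp)))
  obtain ⟨m, hm⟩ := runO_of_reaches hre
  have hinv := (runO_inv (C := C) (w := w) (c := c0) (by simp [hc0]) hm).2.2
  simp only [hc0] at hinv
  have hmK : K + 1 ≤ m := by push_cast at hinv; omega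
  have hnone : runO C w c0 (K+1) = none := by simp [runO, hK, h2]
  have hall : ∀ k, runO C w c0 (K+1+k) = none := by
    intro k
    induction k with
    | zero => exact hnone
    | succ k ih => rw [← Nat.add_assoc]; simp [runO, ih]
  obtain ⟨k, rfl⟩ := Nat.exists_eq_add_of_le hmK
  rw [hall k] at hm
  simp at hm

end

end H74
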