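import Pool.Agent.H74.Cmd
import Pool.Agent.H74.Run

set_option linter.unusedSectionVars false
set_option linter.unusedVariables false

namespace H74

/-! ### the unbounded machine of a command run forever -/

section
variable {K : ℕ}

def fprog (body : Cmd (Fin K)) (s : body.Q) : UI (Fin K) body.Q :=
  (body.instr s).map (fun o => o.getD body.entry)

def urun (body : Cmd (Fin K)) (u : ℕ → Option Bool) : ℕ → Option (body.Q × (Fin K → ℕ))
  | 0 => some (body.entry, fun _ => 0)
  | n+1 => (urun body u n).bind (fun c => ustep u (fprog body c.1) c.2)

theorem urun_bound (body : Cmd (Fin K)) (u : ℕ → Option Bool) :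
    ∀ n c, urun body u n = some c → ∀ i, c.2 i ≤ n := by
  intro n
  induction n with
  | zero =>
    intro c h i
    simp only [urun, Option.some.injEq] at h
    subst h; simp
  | succ n ih =>
    intro c h i
    simp only [urun, Option.bind_eq_some_iff] at h
    obtain ⟨⟨s, g⟩, h1, h2⟩ := h
    have hb := ih _ h1
    simp only at hb h2
    cases hp : fprog body s with
    | inc j q =>
      simp only [hp, ustep, Option.some.injEq] at h2
      subst h2
      by_cases e : i = j
      · subst e; simp [hb i]
      · simp [e]; have := hb i; omega
    | dec j q q' =>
      simp only [hp, ustep] at h2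
      split_ifs at h2
      · simp only [Option.some.injEq] at h2
        subst h2
        have := hb i; simp; omega
      · simp only [Option.some.injEq] at h2
        subst h2
        by_cases e : i = j
        · subst e; have := hb i; simp; omega
        · have := hb i; simp [e]; omega
    | read j q q' =>
      simp only [hp, ustep] at h2
      cases hu : u (g j) with
      | none => simp [hu] at h2
      | some b =>
        simp only [hu, Option.some.injEq] at h2
        subst h2
        have := hb i; simp; omega
    | rej => simp [hp, ustep] at h2

theorem urun_none {body : Cmd (Fin K)} {u : ℕ → Option Bool} {n : ℕ}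
    (h : urun body u n = none) : ∀ k, urun body u (n+k) = none := by
  intro k
  induction k with
  | zero => exact h
  | succ k ih => rw [← Nat.add_assoc]; simp [urun, ih]

def UR (body : Cmd (Fin K)) (u : ℕ → Option Bool) :
    body.Q × (Fin K → ℕ) → body.Q × (Fin K → ℕ) → Prop :=
  Relation.ReflTransGen (fun c c' => ustep u (fprog body c.1) c.2 = some c')

theorem urun_of_UR {body : Cmd (Fin K)} {u : ℕ → Option Bool}
    {c c' : body.Q × (Fin K → ℕ)} (h : UR body u c c') {n : ℕ} (hn : urun body u n = some c) :
    ∃ m, urun body u m = some c' := by
  induction h with
  | refl => exact ⟨n, hn⟩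
  | @tail a b _ hs ih =>
    obtain ⟨m, hm⟩ := ih
    exact ⟨m+1, by simp only [urun, hm, Option.bind_some]; exact hs⟩

theorem UR_of_SR {body : Cmd (Fin K)} {u : ℕ → Option Bool}
    {x y : Option body.Q × (Fin K → ℕ)} (h : SR body u x y) :
    UR body u (x.1.getD body.entry, x.2) (y.1.getD body.entry, y.2) := by
  induction h with
  | refl => exact Relation.ReflTransGen.refl
  | @tail a b _ hs ih =>
    refine Relation.ReflTransGen.tail ih ?_
    obtain ⟨a1, a2⟩ := a
    cases a1 with
    | none => simp [sstep] at hs
    | some s =>
      simp only [Option.getD_some, fprog, ustep_map]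
      simp only [sstep] at hs
      rw [hs]
      rfl

/-- the loop body of the checking program -/
def bodyC (hd st out : Fin K) (c1 c0 : Cmd (Fin K)) : Cmd (Fin K) :=
  .seq (.ifr hd c1 c0) (.seq (.rejz out) (.seq (.loop st (.dec st))
    (.seq (.loop out (.inc st)) (.inc hd))))

/-- traces of the online automaton `h` -/
def tr (h : Bool → ℕ → ℕ) (β : ℕ → Bool) : ℕ → Option ℕ
  | 0 => some 0
  | n+1 => (tr h β n).bind (fun v => match h (β n) v with | 0 => none | v'+1 => some v')

theorem exists_body (h : Bool → ℕ → ℕ)
    (h1 : Compiles (fun v : List.Vector ℕ 1 => h true v.head))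
    (h0 : Compiles (fun v : List.Vector ℕ 1 => h false v.head)) :
    ∃ (K : ℕ) (body : Cmd (Fin K)),
      (∀ (u : ℕ → Option Bool) (β : ℕ → Bool) (ℓ v : ℕ), (∀ i < ℓ, u i = some (β i)) →
        tr h β ℓ = some v → ∃ n g, urun body u n = some (body.entry, g) ∧ ℓ ≤ n) ∧
      (∀ (u : ℕ → Option Bool) (β : ℕ → Bool) (ℓ v : ℕ), (∀ i ≤ ℓ, u i = some (β i)) →
        tr h β ℓ = some v → h (β ℓ) v = 0 →
        ∃ n s g, urun body u n = some (s, g) ∧ fprog body s = .rej) := by
  obtain ⟨s1, h1⟩ := h1
  obtain ⟨s0, h0⟩ := h0
  let K := 3 + s1 + s0
  let hd : Fin K := ⟨0, by omega⟩
  let st : Fin K := ⟨1, by omega⟩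
  let out : Fin K := ⟨2, by omega⟩
  have hhs : hd ≠ st := by intro h; simp [hd, st] at h
  have hho : hd ≠ out := by intro h; simp [hd, out] at h
  have hso : st ≠ out := by intro h; simp [st, out] at h
  obtain ⟨c1, hc1⟩ := h1 K (fun _ => st) out 3 (fun _ => by simp [st]) (by simp [out])
    (fun _ => hso) (by omega)
  obtain ⟨c0, hc0⟩ := h0 K (fun _ => st) out 3 (fun _ => by simp [st]) (by simp [out])
    (fun _ => hso) (by omega)
  refine ⟨K, bodyC hd st out c1 c0, ?_⟩
  set body := bodyC hd st out c1 c0 with hbody
  let reg : ℕ → ℕ → Fin K → ℕ := fun ℓ v r => if r = hd then ℓ else if r = st then v else 0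
  have reg_hd : ∀ ℓ v, reg ℓ v hd = ℓ := fun ℓ v => by simp [reg]
  have reg_st : ∀ ℓ v, reg ℓ v st = v := fun ℓ v => by simp [reg, Ne.symm hhs]
  have reg_out : ∀ ℓ v, reg ℓ v out = 0 := fun ℓ v => by simp [reg, Ne.symm hho, Ne.symm hso]
  -- the first part
  have first : ∀ (u : ℕ → Option Bool) (b : Bool) (ℓ v : ℕ), u ℓ = some b →
      Exec (.ifr hd c1 c0) u (reg ℓ v) (Function.update (reg ℓ v) out (h b v)) := by
    intro u b ℓ v hu
    apply exec_ifr (v := b)
    · rw [reg_hd]; exact hu
    · have hz : ∀ r : Fin K, 3 ≤ r.val → reg ℓ v r = 0 := by
        intro r hr
        have e1 : r ≠ hd := by intro h; rw [h] at hr; simp [hd] at hr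
        have e2 : r ≠ st := by intro h; rw [h] at hr; simp [st] at hr
        simp [reg, e1, e2]
      cases b with
      | true =>
        rw [if_pos rfl]
        refine (hc1 u _ hz (reg_out _ _)).congr ?_
        simp only [← List.Vector.get_zero, List.Vector.get_ofFn, reg_st]
      | false =>
        rw [if_neg (by simp)]
        refine (hc0 u _ hz (reg_out _ _)).congr ?_
        simp only [← List.Vector.get_zero, List.Vector.get_ofFn, reg_st]
  have second : ∀ (u : ℕ → Option Bool) (ℓ v v' : ℕ),
      Exec (.seq (.rejz out) (.seq (.loop st (.dec st))
        (.seq (.loop out (.inc st)) (.inc hd)))) u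
        (Function.update (reg ℓ v) out (v'+1)) (reg (ℓ+1) v') := by
    intro u ℓ v v'
    have f1 := exec_rejz (u := u) (g := Function.update (reg ℓ v) out (v'+1)) (i := out) (k := v')
      (by simp)
    have f2 := exec_clear u st _ (Function.update (Function.update (reg ℓ v) out (v'+1)) out v') le_rfl
    have f3 := exec_move u (i := out) (a := st) (Ne.symm hso) v'
      (Function.update (Function.update (Function.update (reg ℓ v) out (v'+1)) out v') st 0)
      (by rw [Function.update_of_ne (Ne.symm hso)]; simp)
    refine (exec_seq f1 (exec_seq f2 (exec_seq f3 (exec_inc u _ hd)))).congr ?_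
    funext r
    by_cases e1 : r = hd
    · subst e1
      simp [hhs, hho, reg_hd]
    · rw [Function.update_of_ne e1]
      by_cases e2 : r = st
      · subst e2
        rw [reg_st]; simp
      · rw [Function.update_of_ne e2]
        by_cases e3 : r = out
        · subst e3; simp [reg_out]
        · rw [Function.update_of_ne e3, Function.update_of_ne e2, Function.update_of_ne e3,
            Function.update_of_ne e3]
          simp [reg, e1, e2]
  have whole : ∀ (u : ℕ → Option Bool) (b : Bool) (ℓ v v' : ℕ), u ℓ = some b → h b v = v' + 1 →
      UR body u (body.entry, reg ℓ v) (body.entry, reg (ℓ+1) v') := by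
    intro u b ℓ v v' hu hh
    have f1 := first u b ℓ v hu
    rw [hh] at f1
    exact UR_of_SR (exec_seq f1 (second u ℓ v v'))
  have reach : ∀ (u : ℕ → Option Bool) (β : ℕ → Bool) (ℓ v : ℕ), (∀ i < ℓ, u i = some (β i)) →
      tr h β ℓ = some v → ∃ n, urun body u n = some (body.entry, reg ℓ v) := by
    intro u β ℓ
    induction ℓ with
    | zero =>
      intro v _ hv
      simp only [tr, Option.some.injEq] at hv
      subst hv
      refine ⟨0, ?_⟩
      simp only [urun]
      congr 2
      funext r
      simp [reg]
    | succ ℓ ih =>
      intro v hu hv
      simp only [tr, Option.bind_eq_some_iff] at hv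
      obtain ⟨v0, hv0, hv1⟩ := hv
      obtain ⟨n, hn⟩ := ih v0 (fun i hi => hu i (by omega)) hv0
      cases hh : h (β ℓ) v0 with
      | zero => simp [hh] at hv1
      | succ v' =>
        simp only [hh, Option.some.injEq] at hv1
        subst hv1
        exact urun_of_UR (whole u (β ℓ) ℓ v0 v' (hu ℓ (by omega)) hh) hn
  constructor
  · intro u β ℓ v hu hv
    obtain ⟨n, hn⟩ := reach u β ℓ v hu hv
    refine ⟨n, _, hn, ?_⟩
    have := urun_bound body u n _ hn hd
    simp only [reg_hd] at this
    exact this
  · intro u β ℓ v hu hv hz
    obtain ⟨n, hn⟩ := reach u β ℓ v (fun i hi => hu i (by omega)) hv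
    have f1 := first u (β ℓ) ℓ v (hu ℓ le_rfl)
    have f2 : Rejs body u (reg ℓ v) := by
      refine rejs_seq_right f1 (rejs_seq_left (rejs_rejz ?_))
      simp [hz]
    obtain ⟨s, g', h3, h4⟩ := f2
    obtain ⟨m, hm⟩ := urun_of_UR (UR_of_SR h3) hn
    refine ⟨m, s, g', hm, ?_⟩
    simp only [fprog, h4, UI.map]

end

/-! ### the timed program -/

noncomputable section
variable {K : ℕ} {Q : Type} [DecidableEq Q]

def tprog (prog : Q → UI (Fin K) Q) : (Q × Bool) ⊕ Fin (K+2) →
    Instr (Fin (K+1)) ((Q × Bool) ⊕ Fin (K+2))
  | .inl (s, false) =>
    match prog s with
    | .inc i s' => .inc i.succ (.inl (s', true))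
    | .dec i s' s'' => .dec i.succ (.inl (s', true)) (.inl (s'', true))
    | .read i s1 s0 => .read i.succ (.inl (s1, true)) (.inl (s0, true))
    | .rej => .rej
  | .inl (s, true) => .inc 0 (.inl (s, false))
  | .inr j => if h : j = 0 then .fin else .clr (j.pred h) (.inr (j.pred h).castSucc)

def tcode (prog : Q → UI (Fin K) Q) (e : Q) : Code (Fin (K+1)) ((Q × Bool) ⊕ Fin (K+2)) :=
  ⟨tprog prog, .inl (e, false), .inr (Fin.last (K+1)), .inr 0⟩

def trank (K : ℕ) : (Q × Bool) ⊕ Fin (K+2) → ℕ
  | .inl (_, false) => K + 4
  | .inl (_, true) => K + 3
  | .inr j => j.val

theorem tprog_ok (prog : Q → UI (Fin K) Q) (e : Q) :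
    ProgOK (tcode prog e) 0 (trank K) := by
  refine ⟨?_, ?_, ?_, ?_, ?_, ?_, ?_, ?_⟩
  · simp [tcode, tprog]
  · intro q i q' h
    rcases q with ⟨s, b⟩ | j
    · cases b <;> simp [trank, tcode]
    · simp only [tcode, tprog] at h
      split_ifs at h
  · intro q i q' h hi
    rcases q with ⟨s, b⟩ | j
    · cases b with
      | false =>
        simp only [tcode, tprog] at h
        cases hp : prog s with
        | inc j s' =>
          simp only [hp, Instr.inc.injEq] at h
          rw [← h.2]; simp [trank]
        | dec j s' s'' => simp [hp] at h
        | read j s' s'' => simp [hp] at h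
        | rej => simp [hp] at h
      | true =>
        simp only [tcode, tprog, Instr.inc.injEq] at h
        exact absurd h.1.symm hi
    · simp only [tcode, tprog] at h
      split_ifs at h
  · intro q i q' q'' h
    rcases q with ⟨s, b⟩ | j
    · cases b with
      | false =>
        simp only [tcode, tprog] at h
        cases hp : prog s with
        | inc j s' => simp [hp] at h
        | dec j s' s'' =>
          simp only [hp, Instr.dec.injEq] at h
          rw [← h.1]; exact Fin.succ_ne_zero _
        | read j s' s'' => simp [hp] at h
        | rej => simp [hp] at h
      | true => simp [tcode, tprog] at h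
    · simp only [tcode, tprog] at h
      split_ifs at h
  · intro q i q' q'' h
    rcases q with ⟨s, b⟩ | j
    · cases b with
      | false =>
        simp only [tcode, tprog] at h
        cases hp : prog s with
        | inc j s' => simp [hp] at h
        | dec j s' s'' =>
          simp only [hp, Instr.dec.injEq] at h
          rw [← h.2.1, ← h.2.2]; simp [trank]
        | read j s' s'' => simp [hp] at h
        | rej => simp [hp] at h
      | true => simp [tcode, tprog] at h
    · simp only [tcode, tprog] at h
      split_ifs at h
  · intro q i q' q'' h
    rcases q with ⟨s, b⟩ | j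
    · cases b with
      | false =>
        simp only [tcode, tprog] at h
        cases hp : prog s with
        | inc j s' => simp [hp] at h
        | dec j s' s'' => simp [hp] at h
        | read j s' s'' =>
          simp only [hp, Instr.read.injEq] at h
          rw [← h.2.1, ← h.2.2]; simp [trank]
        | rej => simp [hp] at h
      | true => simp [tcode, tprog] at h
    · simp only [tcode, tprog] at h
      split_ifs at h
  · intro q i q' h
    rcases q with ⟨s, b⟩ | j
    · cases b with
      | false =>
        simp only [tcode, tprog] at h
        cases hp : prog s with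
        | inc j s' => simp [hp] at h
        | dec j s' s'' => simp [hp] at h
        | read j s' s'' => simp [hp] at h
        | rej => simp [hp] at h
      | true => simp [tcode, tprog] at h
    · simp only [tcode, tprog] at h
      split_ifs at h with hj
      simp only [Instr.clr.injEq] at h
      rw [← h.2]
      simp only [trank, Fin.val_castSucc, Fin.val_pred]
      have : j.val ≠ 0 := fun h => hj (Fin.ext h)
      omega
  · -- fin_none
    intro w x N q f hr hq
    have inv : ∀ c : ((Q × Bool) ⊕ Fin (K+2)) × (Fin (K+1) → Option ℤ),
        AR (tcode prog e) w x N ((tcode prog e).q0, fun _ => some x) c →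
        (∀ j, c.1 = .inr j → ∀ i : Fin (K+1), j.val ≤ i.val → c.2 i = none) := by
      intro c hc
      induction hc with
      | refl => intro j hj; simp [tcode] at hj
      | @tail a b _ hs ih =>
        obtain ⟨q1, f1⟩ := a
        obtain ⟨q2, f2⟩ := b
        intro j hj i hi
        simp only at hj ih ⊢
        subst hj
        unfold astep at hs
        simp only at hs
        cases hq1 : (tcode prog e).prog q1 with
        | inc i0 q' =>
          simp only [hq1] at hs
          cases hf : f1 i0 with
          | none => simp [hf] at hs
          | some z =>
            simp only [hf] at hs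
            split_ifs at hs
            · simp only [Option.some.injEq, Prod.mk.injEq] at hs
              exfalso
              rcases q1 with ⟨s, b⟩ | j1
              · cases b with
                | false =>
                  simp only [tcode, tprog] at hq1
                  cases hp : prog s with
                  | inc j s' => simp only [hp, Instr.inc.injEq] at hq1; rw [← hq1.2] at hs; simp at hs
                  | dec j s' s'' => simp [hp] at hq1
                  | read j s' s'' => simp [hp] at hq1
                  | rej => simp [hp] at hq1
                | true =>
                  simp only [tcode, tprog, Instr.inc.injEq] at hq1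
                  rw [← hq1.2] at hs; simp at hs
              · simp only [tcode, tprog] at hq1
                split_ifs at hq1
            · simp only [Option.some.injEq, Prod.mk.injEq] at hs
              have hj : j = Fin.last (K+1) := by
                have := hs.1
                simp only [tcode, Sum.inr.injEq] at this
                exact this.symm
              rw [hj] at hi
              simp only [Fin.val_last] at hi
              have := i.isLt
              omega
        | dec i0 q' q'' =>
          exfalso
          rcases q1 with ⟨s, b⟩ | j1
          · cases b with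
            | false =>
              simp only [tcode, tprog] at hq1
              cases hp : prog s with
              | inc j s' => simp [hp] at hq1
              | dec j s' s'' =>
                simp only [hp, Instr.dec.injEq] at hq1
                simp only [tcode, tprog, hp] at hs
                split at hs
                · simp at hs
                · split_ifs at hs <;> simp at hs
              | read j s' s'' => simp [hp] at hq1
              | rej => simp [hp] at hq1
            | true => simp [tcode, tprog] at hq1
          · simp only [tcode, tprog] at hq1
            split_ifs at hq1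
        | read i0 q' q'' =>
          exfalso
          rcases q1 with ⟨s, b⟩ | j1
          · cases b with
            | false =>
              simp only [tcode, tprog] at hq1
              cases hp : prog s with
              | inc j s' => simp [hp] at hq1
              | dec j s' s'' => simp [hp] at hq1
              | read j s' s'' =>
                simp only [hp, Instr.read.injEq] at hq1
                simp only [tcode, tprog, hp] at hs
                split at hs
                · simp at hs
                · simp only [Option.some.injEq, Prod.mk.injEq] at hs
                  have := hs.1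
                  split_ifs at this
              | rej => simp [hp] at hq1
            | true => simp [tcode, tprog] at hq1
          · simp only [tcode, tprog] at hq1
            split_ifs at hq1
        | clr i0 q' =>
          simp only [hq1, Option.some.injEq, Prod.mk.injEq] at hs
          obtain ⟨hs1, rfl⟩ := hs
          rcases q1 with ⟨s, b⟩ | j1
          · exfalso
            cases b with
            | false =>
              simp only [tcode, tprog] at hq1
              cases hp : prog s with
              | inc j s' => simp [hp] at hq1
              | dec j s' s'' => simp [hp] at hq1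
              | read j s' s'' => simp [hp] at hq1
              | rej => simp [hp] at hq1
            | true => simp [tcode, tprog] at hq1
          · simp only [tcode, tprog] at hq1
            split_ifs at hq1 with hj1
            simp only [Instr.clr.injEq] at hq1
            rw [hs1] at hq1
            obtain ⟨e1, e2⟩ := hq1
            simp only [Sum.inr.injEq] at e2
            have hjv : j.val = j1.val - 1 := by
              rw [← e2]; simp
            have hj1v : j1.val ≠ 0 := fun h => hj1 (Fin.ext h)
            by_cases hii : i = i0
            · rw [hii]; simp
            · rw [Function.update_of_ne hii]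
              apply ih j1 rfl i
              have : i0.val = j1.val - 1 := by rw [← e1]; simp
              have h2 : i.val ≠ i0.val := fun h => hii (Fin.ext h)
              omega
        | fin => simp [hq1] at hs
        | rej => simp [hq1] at hs
    rcases q with ⟨s, b⟩ | j
    · exfalso
      cases b with
      | false =>
        simp only [tcode, tprog] at hq
        cases hp : prog s with
        | inc j s' => simp [hp] at hq
        | dec j s' s'' => simp [hp] at hq
        | read j s' s'' => simp [hp] at hq
        | rej => simp [hp] at hq
      | true => simp [tcode, tprog] at hq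
    · simp only [tcode, tprog] at hq
      split_ifs at hq with hj
      funext i
      exact inv _ hr j rfl i (by rw [hj]; simp)

end

end H74
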