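import Pool.Agent.H74.Cross

set_option linter.unusedSectionVars false

namespace H74

noncomputable section
variable {ι Q : Type} [DecidableEq ι] [Fintype ι] [DecidableEq Q]

structure FrameCtx (C : Code ι Q) (w : ℤ → Bool) (x : ℤ) (N : ℕ) (S : ℤ → Finset ι)
    (H : ℤ → Hd ι Q) (lo hi : ℤ) : Prop where
  N1 : 1 ≤ N
  S0 : ∀ z, x ≤ z → z ≤ x + N → S z = ∅
  HO : ∃ r, H x = .O r ∧ dirR r = true
  HB : ∀ z, x < z → z < x + N → H z = .B
  HE : H (x+N) = .ER
  hlo : lo ≤ x
  hhi : x + N ≤ hi
  cR : ∀ m < N, CrossR C w m
  cL : ∀ m < N, CrossL C w m

variable {C : Code ι Q} {w : ℤ → Bool} {x : ℤ} {N : ℕ} {S : ℤ → Finset ι}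
    {H : ℤ → Hd ι Q} {lo hi : ℤ}

@[simp] theorem updn_find (q : Q) (t : Option ι) (w : ℤ → Bool) (S : ℤ → Finset ι) (x : ℤ) (n : ℕ) :
    updn (.find q t) w S x n = .find q t := by
  simp [updn, upd]

theorem ret_back (F : FrameCtx C w x N S H lo hi) (q : Q) (t : Option ι) (f : ι → Option ℤ)
    (p : ℤ) (h1 : x ≤ p) (h2 : p < x + N) :
    ∃ B : Prop, (cond C w S (x+1) (N-1) → B) ∧
      Guard C w B ⟨.go (.ret q t), p, marks S f, H, lo, hi⟩
        ⟨.go (.ret q t), x, marks S f, H, lo, hi⟩ := by
  obtain ⟨r, hO, hr⟩ := F.HO
  have h := F.cL (p - x).toNat (by have := F.N1; omega) (.ret q t) p x (marks S f) H lo hi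
    (by omega) rfl (fun z hz hz' => F.HB z hz (by omega)) (by simp [hO])
    (by have := F.hlo; omega) (by have := F.hhi; omega)
  rw [min_eq_left F.hlo] at h
  refine ⟨_, ?_, h⟩
  intro hc
  refine ⟨cond_marks f F.S0 hc (by omega) F.N1, ?_⟩
  intro z _ _
  simp [bad]

theorem find_to (F : FrameCtx C w x N S H lo hi) (q : Q) (t : Option ι) (f : ι → Option ℤ)
    (i : ι) (hi' : lab C q = some i) (z : ℤ) (hz : x < z) (hz' : z < x + N) (hf : f i = some z) :
    ∃ B : Prop, (cond C w S (x+1) (N-1) → B) ∧
      Guard C w B ⟨.go (.find q t), x+1, marks S f, H, lo, hi⟩
        ⟨.go (.find q t), z, marks S f, H, lo, hi⟩ := by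
  have h := F.cR (z - (x+1)).toNat (by have := F.N1; omega) (.find q t) (x+1) z (marks S f) H lo hi
    (by omega) rfl ?_ ?_ (by have := F.hlo; omega) (by have := F.hhi; omega)
  · rw [max_eq_left (by have := F.hhi; omega), updn_find] at h
    refine ⟨_, ?_, h⟩
    intro hc
    exact cond_marks f F.S0 hc (by omega) F.N1
  · intro y hy hy'
    refine ⟨F.HB y (by omega) (by omega), ?_⟩
    simp only [target, hi', tin]
    rw [mem_marks (F.S0 y (by omega) (by omega)), hf]
    simp; omega
  · right
    simp only [target, hi', tin]
    rw [mem_marks (F.S0 z (by omega) (by omega)), hf]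

theorem find_end (F : FrameCtx C w x N S H lo hi) (q : Q) (t : Option ι) (f : ι → Option ℤ)
    (i : ι) (hi' : lab C q = some i) (hf : f i = none) :
    ∃ B : Prop, (cond C w S (x+1) (N-1) → B) ∧
      Guard C w B ⟨.go (.find q t), x+1, marks S f, H, lo, hi⟩
        ⟨.go (.find q t), x+N, marks S f, H, lo, hi⟩ := by
  have hN1 := F.N1
  have h := F.cR (N-1) (by omega) (.find q t) (x+1) (x+N) (marks S f) H lo hi
    (by omega) rfl ?_ ?_ (by have := F.hlo; omega) (by have := F.hhi; omega)
  · rw [max_eq_left F.hhi, updn_find] at h
    refine ⟨_, ?_, h⟩
    intro hc
    exact cond_marks f F.S0 hc (by omega) F.N1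
  · intro y hy hy'
    refine ⟨F.HB y (by omega) (by omega), ?_⟩
    simp only [target, hi', tin]
    rw [mem_marks (F.S0 y (by omega) (by omega)), hf]
    simp
  · left
    simp [F.HE]

/-- compose two existentially guarded reachabilities -/
theorem exGuard_comp {A : Prop} {c c1 c2 : Conf ι Q}
    (h1 : ∃ B : Prop, (A → B) ∧ Guard C w B c c1)
    (h2 : ∃ B : Prop, (A → B) ∧ Guard C w B c1 c2) :
    ∃ B : Prop, (A → B) ∧ Guard C w B c c2 := by
  obtain ⟨B1, a1, g1⟩ := h1
  obtain ⟨B2, a2, g2⟩ := h2
  exact ⟨B1 ∧ B2, fun a => ⟨a1 a, a2 a⟩, g1.comp (fun _ => g2)⟩

theorem exGuard_of_reaches {A : Prop} {c c1 : Conf ι Q} (h : Reaches C w c c1) :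
    ∃ B : Prop, (A → B) ∧ Guard C w B c c1 :=
  ⟨True, fun _ => trivial, Guard.of_reaches h trivial⟩

theorem exGuard_head {A : Prop} {c c1 c2 : Conf ι Q} (h : Reaches C w c c1)
    (h2 : ∃ B : Prop, (A → B) ∧ Guard C w B c1 c2) :
    ∃ B : Prop, (A → B) ∧ Guard C w B c c2 :=
  exGuard_comp (exGuard_of_reaches h) h2

theorem sim_step (F : FrameCtx C w x N S H lo hi) (t : Option ι) {q q' : Q}
    {f f' : ι → Option ℤ} (hf : ∀ i z, f i = some z → x ≤ z ∧ z < x + N)
    (hs : astep C w x N (q, f) = some (q', f')) :
    ∃ B : Prop, (cond C w S (x+1) (N-1) → B) ∧
      Guard C w B ⟨.go (.ret q t), x, marks S f, H, lo, hi⟩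
        ⟨.go (.ret q' t), x, marks S f', H, lo, hi⟩ := by
  obtain ⟨r, hO, hr⟩ := F.HO
  have hN1 := F.N1
  have hlo := F.hlo
  have hhi := F.hhi
  have hSx : S x = ∅ := F.S0 x (by omega) (by omega)
  unfold astep at hs
  simp only at hs
  cases hq : C.prog q with
  | inc i q1 =>
    have hlab : lab C q = some i := by simp [lab, hq]
    simp only [hq] at hs
    cases hfi : f i with
    | none => simp [hfi] at hs
    | some z =>
      obtain ⟨hxz, hzN⟩ := hf _ _ hfi
      simp only [hfi] at hs
      by_cases hzx : z = x
      · subst hzx
        -- mark at the origin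
        have hmem : i ∈ marks S f z := by rw [mem_marks hSx, hfi]
        have r1 : Reaches C w ⟨.go (.ret q t), z, marks S f, H, lo, hi⟩
            ⟨.incM i q1 t, z+1, marks S (Function.update f i none), H, lo, hi⟩ := by
          apply reach1 (S' := (marks S f z).erase i) (h' := .O r) (d := .R)
          · simp [act, hO, goO, hr, retAct, hq, hmem]
          · simp
          · rw [marks_erase hSx hfi]
          · exact upd_same hO
          · simp; omega
          · simp; omega
        split_ifs at hs with hlt
        · simp only [Option.some.injEq, Prod.mk.injEq] at hs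
          obtain ⟨rfl, rfl⟩ := hs
          have hB := F.HB (z+1) (by omega) hlt
          have r2 : Reaches C w ⟨.incM i q1 t, z+1, marks S (Function.update f i none), H, lo, hi⟩
              ⟨.go (.ret q1 t), z+1, marks S (Function.update f i (some (z+1))), H, lo, hi⟩ := by
            apply reach1 (S' := insert i (marks S (Function.update f i none) (z+1))) (h' := .B)
              (d := .N)
            · simp [act, hB]
            · simp
            · rw [marks_insert (by simp)]; simp
            · exact upd_same hB
            · simp; omega
            · simp; omega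
          exact exGuard_head (r1.trans r2) (ret_back F _ _ _ _ (by omega) (by omega))
        · simp only [Option.some.injEq, Prod.mk.injEq] at hs
          obtain ⟨rfl, rfl⟩ := hs
          have hE : H (z+1) = .ER := by
            have : z + 1 = z + N := by omega
            rw [this]; exact F.HE
          have r2 : Reaches C w ⟨.incM i q1 t, z+1, marks S (Function.update f i none), H, lo, hi⟩
              ⟨.go (.ret C.qov t), z, marks S (Function.update f i none), H, lo, hi⟩ := by
            apply reach1 (S' := (marks S (Function.update f i none) (z+1))) (h' := .ER)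
              (d := .L)
            · simp [act, hE]
            · simp
            · simp
            · exact upd_same hE
            · simp; omega
            · simp; omega
          exact exGuard_of_reaches (r1.trans r2)
      · have hzx' : x < z := by omega
        have hSz : S z = ∅ := F.S0 z (by omega) (by omega)
        have hnmem : i ∉ marks S f x := by
          rw [mem_marks hSx, hfi]; simp; exact hzx
        have r0 : Reaches C w ⟨.go (.ret q t), x, marks S f, H, lo, hi⟩
            ⟨.go (.find q t), x+1, marks S f, H, lo, hi⟩ := by
          apply reach1 (S' := (marks S f x)) (h' := .O r) (d := .R)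
          · simp [act, hO, goO, hr, retAct, hq, hnmem]
          · simp
          · simp
          · exact upd_same hO
          · simp; omega
          · simp; omega
        have r1 := find_to F q t f i hlab z hzx' hzN hfi
        have hBz := F.HB z hzx' hzN
        have hmem : i ∈ marks S f z := by rw [mem_marks hSz, hfi]
        have r2 : Reaches C w ⟨.go (.find q t), z, marks S f, H, lo, hi⟩
            ⟨.incM i q1 t, z+1, marks S (Function.update f i none), H, lo, hi⟩ := by
          apply reach1 (S' := (marks S f z).erase i) (h' := .B) (d := .R)
          · simp [act, hBz, target, hlab, tin, hmem, goSoft, softAct, hq]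
          · simp
          · rw [marks_erase hSz hfi]
          · exact upd_same hBz
          · simp; omega
          · simp; omega
        split_ifs at hs with hlt
        · simp only [Option.some.injEq, Prod.mk.injEq] at hs
          obtain ⟨rfl, rfl⟩ := hs
          have hB := F.HB (z+1) (by omega) hlt
          have r3 : Reaches C w ⟨.incM i q1 t, z+1, marks S (Function.update f i none), H, lo, hi⟩
              ⟨.go (.ret q1 t), z+1, marks S (Function.update f i (some (z+1))), H, lo, hi⟩ := by
            apply reach1 (S' := insert i (marks S (Function.update f i none) (z+1))) (h' := .B)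
              (d := .N)
            · simp [act, hB]
            · simp
            · rw [marks_insert (by simp)]; simp
            · exact upd_same hB
            · simp; omega
            · simp; omega
          exact exGuard_head r0 (exGuard_comp r1 (exGuard_head (r2.trans r3)
            (ret_back F _ _ _ _ (by omega) (by omega))))
        · simp only [Option.some.injEq, Prod.mk.injEq] at hs
          obtain ⟨rfl, rfl⟩ := hs
          have hE : H (z+1) = .ER := by
            have : z + 1 = x + N := by omega
            rw [this]; exact F.HE
          have r3 : Reaches C w ⟨.incM i q1 t, z+1, marks S (Function.update f i none), H, lo, hi⟩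
              ⟨.go (.ret C.qov t), z, marks S (Function.update f i none), H, lo, hi⟩ := by
            apply reach1 (S' := (marks S (Function.update f i none) (z+1))) (h' := .ER)
              (d := .L)
            · simp [act, hE]
            · simp
            · simp
            · exact upd_same hE
            · simp; omega
            · simp; omega
          exact exGuard_head r0 (exGuard_comp r1 (exGuard_head (r2.trans r3)
            (ret_back F _ _ _ _ (by omega) (by omega))))
  | dec i q1 q2 =>
    have hlab : lab C q = some i := by simp [lab, hq]
    simp only [hq] at hs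
    cases hfi : f i with
    | none => simp [hfi] at hs
    | some z =>
      obtain ⟨hxz, hzN⟩ := hf _ _ hfi
      simp only [hfi] at hs
      split_ifs at hs with hzx
      · subst hzx
        simp only [Option.some.injEq, Prod.mk.injEq] at hs
        obtain ⟨rfl, rfl⟩ := hs
        have hmem : i ∈ marks S f z := by rw [mem_marks hSx, hfi]
        have r1 : Reaches C w ⟨.go (.ret q t), z, marks S f, H, lo, hi⟩
            ⟨.go (.ret q2 t), z, marks S f, H, lo, hi⟩ := by
          apply reach1 (S' := (marks S f z)) (h' := .O r) (d := .N)
          · simp [act, hO, goO, hr, retAct, hq, hmem]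
          · simp
          · simp
          · exact upd_same hO
          · simp; omega
          · simp; omega
        exact exGuard_of_reaches r1
      · have hzx' : x < z := by omega
        simp only [Option.some.injEq, Prod.mk.injEq] at hs
        obtain ⟨rfl, rfl⟩ := hs
        have hSz : S z = ∅ := F.S0 z (by omega) (by omega)
        have hnmem : i ∉ marks S f x := by
          rw [mem_marks hSx, hfi]; simp; exact hzx
        have r0 : Reaches C w ⟨.go (.ret q t), x, marks S f, H, lo, hi⟩
            ⟨.go (.find q t), x+1, marks S f, H, lo, hi⟩ := by
          apply reach1 (S' := (marks S f x)) (h' := .O r) (d := .R)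
          · simp [act, hO, goO, hr, retAct, hq, hnmem]
          · simp
          · simp
          · exact upd_same hO
          · simp; omega
          · simp; omega
        have r1 := find_to F q t f i hlab z hzx' hzN hfi
        have hBz := F.HB z hzx' hzN
        have hmem : i ∈ marks S f z := by rw [mem_marks hSz, hfi]
        have r2 : Reaches C w ⟨.go (.find q t), z, marks S f, H, lo, hi⟩
            ⟨.decM i q1 t, z-1, marks S (Function.update f i none), H, lo, hi⟩ := by
          apply reach1 (S' := (marks S f z).erase i) (h' := .B) (d := .L)
          · simp [act, hBz, target, hlab, tin, hmem, goSoft, softAct, hq]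
          · simp; omega
          · rw [marks_erase hSz hfi]
          · exact upd_same hBz
          · simp; omega
          · simp; omega
        have r3 : Reaches C w ⟨.decM i q1 t, z-1, marks S (Function.update f i none), H, lo, hi⟩
            ⟨.go (.ret q1 t), z-1, marks S (Function.update f i (some (z-1))), H, lo, hi⟩ := by
          apply reach1 (S' := insert i (marks S (Function.update f i none) (z-1))) (h' := H (z-1))
            (d := .N)
          · simp [act]
          · simp
          · rw [marks_insert (by simp)]; simp
          · simp
          · simp; omega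
          · simp; omega
        exact exGuard_head r0 (exGuard_comp r1 (exGuard_head (r2.trans r3)
            (ret_back F _ _ _ _ (by omega) (by omega))))
  | read i q1 q2 =>
    have hlab : lab C q = some i := by simp [lab, hq]
    simp only [hq] at hs
    cases hfi : f i with
    | none => simp [hfi] at hs
    | some z =>
      obtain ⟨hxz, hzN⟩ := hf _ _ hfi
      simp only [hfi, Option.some.injEq, Prod.mk.injEq] at hs
      obtain ⟨rfl, rfl⟩ := hs
      by_cases hzx : z = x
      · subst hzx
        have hmem : i ∈ marks S f z := by rw [mem_marks hSx, hfi]
        have r1 : Reaches C w ⟨.go (.ret q t), z, marks S f, H, lo, hi⟩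
            ⟨.go (.ret (if w z then q1 else q2) t), z, marks S f, H, lo, hi⟩ := by
          apply reach1 (S' := (marks S f z)) (h' := .O r) (d := .N)
          · simp [act, hO, goO, hr, retAct, hq, hmem]
          · simp
          · simp
          · exact upd_same hO
          · simp; omega
          · simp; omega
        exact exGuard_of_reaches r1
      · have hzx' : x < z := by omega
        have hSz : S z = ∅ := F.S0 z (by omega) (by omega)
        have hnmem : i ∉ marks S f x := by
          rw [mem_marks hSx, hfi]; simp; exact hzx
        have r0 : Reaches C w ⟨.go (.ret q t), x, marks S f, H, lo, hi⟩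
            ⟨.go (.find q t), x+1, marks S f, H, lo, hi⟩ := by
          apply reach1 (S' := (marks S f x)) (h' := .O r) (d := .R)
          · simp [act, hO, goO, hr, retAct, hq, hnmem]
          · simp
          · simp
          · exact upd_same hO
          · simp; omega
          · simp; omega
        have r1 := find_to F q t f i hlab z hzx' hzN hfi
        have hBz := F.HB z hzx' hzN
        have hmem : i ∈ marks S f z := by rw [mem_marks hSz, hfi]
        have r2 : Reaches C w ⟨.go (.find q t), z, marks S f, H, lo, hi⟩
            ⟨.go (.ret (if w z then q1 else q2) t), z, marks S f, H, lo, hi⟩ := by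
          apply reach1 (S' := (marks S f z)) (h' := .B) (d := .N)
          · simp [act, hBz, target, hlab, tin, hmem, goSoft, softAct, hq]
          · simp
          · simp
          · exact upd_same hBz
          · simp; omega
          · simp; omega
        exact exGuard_head r0 (exGuard_comp r1 (exGuard_head r2
            (ret_back F _ _ _ _ (by omega) (by omega))))
  | clr i q1 =>
    have hlab : lab C q = some i := by simp [lab, hq]
    simp only [hq, Option.some.injEq, Prod.mk.injEq] at hs
    obtain ⟨rfl, rfl⟩ := hs
    by_cases hfx : f i = some x
    · have hmem : i ∈ marks S f x := by rw [mem_marks hSx, hfx]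
      have r1 : Reaches C w ⟨.go (.ret q t), x, marks S f, H, lo, hi⟩
          ⟨.go (.ret q1 t), x, marks S (Function.update f i none), H, lo, hi⟩ := by
        apply reach1 (S' := (marks S f x).erase i) (h' := .O r) (d := .N)
        · simp [act, hO, goO, hr, retAct, hq, hmem]
        · simp
        · rw [marks_erase hSx hfx]
        · exact upd_same hO
        · simp; omega
        · simp; omega
      exact exGuard_of_reaches r1
    · have hnmem : i ∉ marks S f x := by
        rw [mem_marks hSx]; exact hfx
      have r0 : Reaches C w ⟨.go (.ret q t), x, marks S f, H, lo, hi⟩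
          ⟨.go (.find q t), x+1, marks S f, H, lo, hi⟩ := by
        apply reach1 (S' := (marks S f x)) (h' := .O r) (d := .R)
        · simp [act, hO, goO, hr, retAct, hq, hnmem]
        · simp
        · simp
        · exact upd_same hO
        · simp; omega
        · simp; omega
      cases hfi : f i with
      | none =>
        have r1 := find_end F q t f i hlab hfi
        have hE := F.HE
        have r2 : Reaches C w ⟨.go (.find q t), x+N, marks S f, H, lo, hi⟩
            ⟨.go (.ret q1 t), x+N-1, marks S f, H, lo, hi⟩ := by
          apply reach1 (S' := (marks S f (x+N))) (h' := .ER) (d := .L)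
          · simp [act, hE, goER, hq]
          · simp; omega
          · simp
          · exact upd_same hE
          · simp; omega
          · simp; omega
        have e : Function.update f i none = f := by
          rw [← hfi]; simp
        rw [e]
        exact exGuard_head r0 (exGuard_comp r1 (exGuard_head r2
            (ret_back F _ _ _ _ (by omega) (by omega))))
      | some z =>
        obtain ⟨hxz, hzN⟩ := hf _ _ hfi
        have hzx : z ≠ x := by rintro rfl; exact hfx hfi
        have hzx' : x < z := by omega
        have hSz : S z = ∅ := F.S0 z (by omega) (by omega)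
        have r1 := find_to F q t f i hlab z hzx' hzN hfi
        have hBz := F.HB z hzx' hzN
        have hmem : i ∈ marks S f z := by rw [mem_marks hSz, hfi]
        have r2 : Reaches C w ⟨.go (.find q t), z, marks S f, H, lo, hi⟩
            ⟨.go (.ret q1 t), z, marks S (Function.update f i none), H, lo, hi⟩ := by
          apply reach1 (S' := (marks S f z).erase i) (h' := .B) (d := .N)
          · simp [act, hBz, target, hlab, tin, hmem, goSoft, softAct, hq]
          · simp
          · rw [marks_erase hSz hfi]
          · exact upd_same hBz
          · simp; omega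
          · simp; omega
        exact exGuard_head r0 (exGuard_comp r1 (exGuard_head r2
            (ret_back F _ _ _ _ (by omega) (by omega))))
  | fin => simp [hq] at hs
  | rej => simp [hq] at hs

theorem sim_stuck (F : FrameCtx C w x N S H lo hi) (t : Option ι) {q : Q}
    {f : ι → Option ℤ} (hf : ∀ i z, f i = some z → x ≤ z ∧ z < x + N)
    (hs : astep C w x N (q, f) = none) (hq0 : C.prog q ≠ .fin) :
    Halts C w ⟨.go (.ret q t), x, marks S f, H, lo, hi⟩ := by
  obtain ⟨r, hO, hr⟩ := F.HO
  have hN1 := F.N1
  have hlo := F.hlo
  have hhi := F.hhi
  have hSx : S x = ∅ := F.S0 x (by omega) (by omega)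
  have key : ∀ i, lab C q = some i → f i = none → (∀ q', C.prog q ≠ .clr i q') →
      (∀ h, retAct C q t (w x) (marks S f x) h = some (.go (.find q t), marks S f x, h, .R)) →
      Halts C w ⟨.go (.ret q t), x, marks S f, H, lo, hi⟩ := by
    intro i hlab hfi hnc hact
    have r0 : Reaches C w ⟨.go (.ret q t), x, marks S f, H, lo, hi⟩
        ⟨.go (.find q t), x+1, marks S f, H, lo, hi⟩ := by
      apply reach1 (S' := (marks S f x)) (h' := .O r) (d := .R)
      · simp [act, hO, goO, hr, hact]
      · simp
      · simp
      · exact upd_same hO
      · simp; omega
      · simp; omega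
    obtain ⟨B, _, g⟩ := find_end F q t f i hlab hfi
    refine Halts.of_reaches r0 (g.halts (fun _ => halt1 ?_))
    have hE := F.HE
    simp only [act, hE, goER]
    unfold lab at hlab
    cases hq : C.prog q with
    | clr j q' =>
      simp only [hq] at hlab
      simp only [Option.some.injEq] at hlab
      subst hlab
      exact absurd hq (hnc q')
    | inc j q' => rfl
    | dec j q' q'' => rfl
    | read j q' q'' => rfl
    | fin => rfl
    | rej => rfl
  unfold astep at hs
  simp only at hs
  cases hq : C.prog q with
  | inc i q1 =>
    have hlab : lab C q = some i := by simp [lab, hq]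
    simp only [hq] at hs
    cases hfi : f i with
    | none =>
      have hnmem : i ∉ marks S f x := by
        rw [mem_marks hSx, hfi]; simp
      exact key i hlab hfi (by simp [hq]) (by intro h; simp [retAct, hq, hnmem])
    | some z =>
      simp only [hfi] at hs
      split_ifs at hs
  | dec i q1 q2 =>
    have hlab : lab C q = some i := by simp [lab, hq]
    simp only [hq] at hs
    cases hfi : f i with
    | none =>
      have hnmem : i ∉ marks S f x := by
        rw [mem_marks hSx, hfi]; simp
      exact key i hlab hfi (by simp [hq]) (by intro h; simp [retAct, hq, hnmem])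
    | some z =>
      simp only [hfi] at hs
      split_ifs at hs
  | read i q1 q2 =>
    have hlab : lab C q = some i := by simp [lab, hq]
    simp only [hq] at hs
    cases hfi : f i with
    | none =>
      have hnmem : i ∉ marks S f x := by
        rw [mem_marks hSx, hfi]; simp
      exact key i hlab hfi (by simp [hq]) (by intro h; simp [retAct, hq, hnmem])
    | some z => simp [hfi] at hs
  | clr i q1 => simp [hq] at hs
  | fin => exact absurd hq hq0
  | rej =>
    apply halt1
    simp [act, hO, goO, hr, retAct, hq]

end

end H74
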