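import Pool.Agent.H74.Cross

set_option linter.unusedSectionVars false
set_option linter.unusedVariables false

namespace H74

def A (w : ℤ → Bool) (x : ℤ) : ℕ → ℤ
  | 0 => 0
  | n+1 => A w x n + bi (w (x+n))

theorem bi_nonneg (b : Bool) : 0 ≤ bi b ∧ bi b ≤ 1 := by
  cases b <;> simp [bi]

theorem A_add (w : ℤ → Bool) (x : ℤ) (n m : ℕ) : A w x (n+m) = A w x n + A w (x+n) m := by
  induction m with
  | zero => simp [A]
  | succ m ih =>
    rw [← Nat.add_assoc]
    simp only [A]
    rw [ih]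
    push_cast
    rw [add_assoc, add_assoc x]

theorem A_cons (w : ℤ → Bool) (x : ℤ) (n : ℕ) : A w x (n+1) = bi (w x) + A w (x+1) n := by
  rw [Nat.add_comm, A_add]
  simp [A]

theorem A_bd (w : ℤ → Bool) (x : ℤ) (n : ℕ) : 0 ≤ A w x n ∧ A w x n ≤ n := by
  induction n with
  | zero => simp [A]
  | succ n ih =>
    have := bi_nonneg (w (x+n))
    simp only [A]; push_cast; omega

theorem D_spec (w : ℤ → Bool) : ∀ (n : ℕ) (x : ℤ),
    D w (2*n) x = A w (x+n) n - A w x n ∧ D w (2*n+1) x = A w (x+n+1) n - A w x n := by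
  intro n
  induction n with
  | zero => intro x; simp [D, A]
  | succ n ih =>
    intro x
    obtain ⟨h1, h2⟩ := ih (x+1)
    constructor
    · have e : 2 * (n+1) = 2*n + 2 := by ring
      rw [e]
      simp only [D]
      rw [h1, A_cons w x n]
      simp only [A]
      push_cast
      have e1 : x + 1 + (n:ℤ) = x + (n+1) := by ring
      have e2 : x + 2 * (n:ℤ) + 1 = x + (n+1) + n := by ring
      rw [e1, e2]; ring
    · have e : 2 * (n+1) + 1 = (2*n+1) + 2 := by ring
      rw [e]
      simp only [D]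
      rw [h2, A_cons w x n]
      simp only [A]
      push_cast
      have e1 : x + 1 + (n:ℤ) + 1 = x + (n+1) + 1 := by ring
      have e2 : x + (2 * (n:ℤ) + 1) + 1 = x + (n+1) + 1 + n := by ring
      rw [e1, e2]; ring

theorem A_shift (w : ℤ → Bool) (x : ℤ) (n : ℕ) : |A w (x+1) n - A w x n| ≤ 1 := by
  have h1 := A_cons w x n
  have h2 : A w x (n+1) = A w x n + bi (w (x+n)) := rfl
  have h3 := bi_nonneg (w x)
  have h4 := bi_nonneg (w (x+n))
  rw [abs_le]; constructor <;> omega

theorem A_shifts (w : ℤ → Bool) (x : ℤ) (k n : ℕ) : |A w (x+k) n - A w x n| ≤ k := by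
  induction k with
  | zero => simp
  | succ k ih =>
    have h := A_shift w (x+k) n
    rw [abs_le] at *
    push_cast
    rw [← add_assoc]
    constructor <;> omega

noncomputable section
open Filter Topology

/-- the right half-line lemma -/
theorem slope_right (w : ℤ → Bool) (G : ℤ → Prop) (hup : ∀ x y, G x → x ≤ y → G y)
    (hne : ∃ x, G x) (hD : ∀ x, G x → ∀ n : ℕ, |A w (x+n) n - A w x n| ≤ 2) :
    ∃ α : ℝ, ∀ x, G x → ∀ n : ℕ, |(A w x n : ℝ) - α * n| ≤ 2 := by
  let f : ℤ → ℕ → ℕ → ℝ := fun x n k => (A w x (2^k * n) : ℝ) / 2^k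
  have hf : ∀ x, G x → ∀ n k, dist (f x n k) (f x n (k+1)) ≤ 2 / 2 / 2^k := by
    intro x hx n k
    have h1 : A w x (2^(k+1) * n) = A w x (2^k*n) + A w (x+(2^k*n : ℕ)) (2^k*n) := by
      rw [← A_add]; congr 1; ring
    have h2 := hD x hx (2^k*n)
    have h3 : |((A w (x+(2^k*n : ℕ)) (2^k*n) : ℤ) : ℝ) - (A w x (2^k*n) : ℤ)| ≤ 2 := by
      exact_mod_cast h2
    simp only [f, Real.dist_eq, h1]
    push_cast at h3 ⊢
    have hp : (0:ℝ) < 2^k := by positivity
    have e : (A w x (2^k*n) : ℝ) / 2^k - ((A w x (2^k*n) : ℝ) + (A w (x+2^k*n) (2^k*n) : ℝ)) / 2^(k+1)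
        = -(((A w (x+2^k*n) (2^k*n) : ℝ) - (A w x (2^k*n) : ℝ)) / 2^(k+1)) := by
      rw [pow_succ]; field_simp; ring
    rw [e, abs_neg, abs_div, abs_of_pos (by positivity : (0:ℝ) < 2^(k+1)), pow_succ]
    rw [div_le_div_iff₀ (by positivity) (by positivity)]
    nlinarith [h3, hp]
  have hL : ∀ x, G x → ∀ n, ∃ L : ℝ, Tendsto (f x n) atTop (𝓝 L) := by
    intro x hx n
    exact cauchySeq_tendsto_of_complete (cauchySeq_of_le_geometric_two (hf x hx n))
  obtain ⟨x0, hx0⟩ := hne
  obtain ⟨α, hα⟩ := hL x0 hx0 1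
  have hind : ∀ x, G x → Tendsto (f x 1) atTop (𝓝 α) := by
    have key : ∀ (x : ℤ) (j : ℕ), Tendsto (fun k => f (x+j) 1 k - f x 1 k) atTop (𝓝 0) := by
      intro x j
      have hz : Tendsto (fun k : ℕ => (j:ℝ) / 2^k) atTop (𝓝 0) := by
        have := (tendsto_pow_atTop_nhds_zero_of_lt_one (r := (1/2:ℝ)) (by norm_num) (by norm_num)).const_mul (j:ℝ)
        simp only [mul_zero] at this
        refine this.congr (fun k => ?_)
        rw [one_div, inv_pow]; rfl
      apply squeeze_zero_norm _ hz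
      intro k
      simp only [f, Real.norm_eq_abs]
      rw [← sub_div, abs_div, abs_of_pos (by positivity : (0:ℝ) < 2^k)]
      apply div_le_div_of_nonneg_right _ (by positivity)
      have := A_shifts w x j (2^k*1)
      exact_mod_cast this
    intro x hx
    rcases le_total x x0 with h | h
    · have h1 := key x (x0-x).toNat
      have e : x + ((x0-x).toNat : ℤ) = x0 := by omega
      rw [e] at h1
      have := hα.sub h1
      simp only [sub_zero] at this
      refine this.congr (fun k => ?_)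
      ring
    · have h1 := key x0 (x-x0).toNat
      have e : x0 + ((x-x0).toNat : ℤ) = x := by omega
      rw [e] at h1
      have := hα.add h1
      simp only [add_zero] at this
      refine this.congr (fun k => ?_)
      ring
  refine ⟨α, ?_⟩
  -- accuracy at powers of two
  have hacc : ∀ x, G x → ∀ k : ℕ, |f x 1 k - α| ≤ 2 / 2^k := by
    intro x hx k
    have := dist_le_of_le_geometric_two_of_tendsto (hf x hx 1) (hind x hx) k
    rwa [Real.dist_eq] at this
  -- additivity
  have hmul : ∀ x, G x → ∀ n k : ℕ, |f x n k - n * α| ≤ n * (2 / 2^k) := by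
    intro x hx n k
    induction n with
    | zero => simp [f, A]
    | succ n ih =>
      have h1 : A w x (2^k*(n+1)) = A w x (2^k*n) + A w (x+(2^k*n : ℕ)) (2^k*1) := by
        rw [← A_add]; congr 1; ring
      have h2 := hacc (x+(2^k*n:ℕ)) (hup _ _ hx (by have h0 : (0:ℤ) ≤ ((2^k*n : ℕ) : ℤ) := Int.natCast_nonneg _; linarith)) k
      have e : f x (n+1) k - ((n+1:ℕ):ℝ) * α = (f x n k - n * α) + (f (x+(2^k*n:ℕ)) 1 k - α) := by
        simp only [f, h1]
        push_cast
        ring
      rw [e]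
      refine (abs_add_le _ _).trans ?_
      rw [Nat.cast_succ]
      linarith
  intro x hx n
  obtain ⟨L, hL'⟩ := hL x hx n
  have h1 := dist_le_of_le_geometric_two_of_tendsto₀ (hf x hx n) hL'
  have h2 : L = n * α := by
    have hz : Tendsto (fun k : ℕ => (n:ℝ) * (2 / 2^k)) atTop (𝓝 0) := by
      have := (tendsto_pow_atTop_nhds_zero_of_lt_one (r := (1/2:ℝ)) (by norm_num) (by norm_num)).const_mul (n*2:ℝ)
      simp only [mul_zero] at this
      refine this.congr (fun k => ?_)
      rw [one_div, inv_pow]; ring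
    have h3 : Tendsto (fun k => f x n k - n * α) atTop (𝓝 0) := by
      apply squeeze_zero_norm _ hz
      intro k
      rw [Real.norm_eq_abs]
      exact hmul x hx n k
    have h4 := hL'.sub_const (n * α)
    have := tendsto_nhds_unique h4 h3
    linarith
  rw [Real.dist_eq, h2] at h1
  simp only [f, pow_zero, one_mul, div_one] at h1
  rw [mul_comm α]; exact h1


/-- reflection -/
theorem A_refl (w : ℤ → Bool) (x : ℤ) (n : ℕ) :
    A (fun z => w (-z)) x n = A w (-x-n+1) n := by
  induction n with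
  | zero => simp [A]
  | succ n ih =>
    simp only [A]
    rw [ih]
    have h := A_cons w (-x-(n+1:ℕ)+1) n
    simp only [A] at h
    have e1 : -x-((n+1:ℕ):ℤ)+1 = -(x+n) := by push_cast; ring
    have e2 : -x-((n+1:ℕ):ℤ)+1+1 = -x-n+1 := by push_cast; ring
    rw [e2] at h
    rw [h, e1]
    ring

theorem slope_left (w : ℤ → Bool) (G : ℤ → Prop) (hdn : ∀ x y, G x → y ≤ x → G y)
    (hne : ∃ x, G x) (hD : ∀ x (n : ℕ), G (x+2*n-1) → |A w (x+n) n - A w x n| ≤ 2) :
    ∃ α : ℝ, ∀ x (n : ℕ), G (x+n-1) → |(A w x n : ℝ) - α * n| ≤ 2 := by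
  obtain ⟨α, h⟩ := slope_right (fun z => w (-z)) (fun z => G (-z))
    (fun x y hx hxy => hdn _ _ hx (by omega)) (by
      obtain ⟨x, hx⟩ := hne
      exact ⟨-x, by simpa using hx⟩) (by
      intro x hx n
      rw [A_refl, A_refl]
      have e1 : -(x+n) - (n:ℤ) + 1 = -x-2*n+1 := by ring
      have e2 : -x - (n:ℤ) + 1 = (-x-2*n+1) + n := by ring
      rw [e1, e2, abs_sub_comm]
      apply hD
      have : -x - 2*(n:ℤ) + 1 + 2 * n - 1 = -x := by ring
      rw [this]; exact hx)
  refine ⟨α, ?_⟩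
  intro x n hx
  have := h (-x-n+1) (by
    have : -(-x-(n:ℤ)+1) = x+n-1 := by ring
    simp only [this]; exact hx) n
  rw [A_refl] at this
  have e : -(-x-(n:ℤ)+1) - n + 1 = x := by ring
  rw [e] at this
  exact this

end

end H74
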