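import Pool.Agent.H74.Cross2

set_option linter.unusedSectionVars false
set_option linter.unusedVariables false

namespace H74

noncomputable section
variable {ι Q : Type} [DecidableEq ι] [Fintype ι] [DecidableEq Q]

variable {C : Code ι Q} {w : ℤ → Bool}

def Wd (C : Code ι Q) (w : ℤ → Bool) (lo hi : ℤ) : Prop :=
  ∃ S : ℤ → Finset ι, cond C w S (lo+2) (hi-lo-3).toNat

theorem Wd_small {lo hi : ℤ} (h : hi - lo ≤ 3) : Wd C w lo hi := by
  refine ⟨fun _ => ∅, ?_⟩
  have : (hi-lo-3).toNat = 0 := by omega
  rw [this]; exact cond_zero _ _ _ _

theorem Wd_of_cond {S : ℤ → Finset ι} {x : ℤ} {n : ℕ} (h : cond C w S x n) {lo hi : ℤ}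
    (h1 : x ≤ lo + 2) (h2 : hi - 2 < x + n) : Wd C w lo hi := by
  refine ⟨S, cond_mono h ?_⟩
  intro z hz hz'
  omega

theorem Wd_mono {lo hi lo' hi' : ℤ} (h : Wd C w lo hi) (h1 : lo ≤ lo') (h2 : hi' ≤ hi) :
    Wd C w lo' hi' := by
  obtain ⟨S, hS⟩ := h
  refine ⟨S, cond_mono hS ?_⟩
  intro z hz hz'
  omega

def CLp (C : Code ι Q) (w : ℤ → Bool) (r : Info ι Q) (p : ℤ) (S : ℤ → Finset ι)
    (H : ℤ → Hd ι Q) (lo hi : ℤ) : Prop :=
  dirR r = false ∧ lo ≤ p ∧ p ≤ hi ∧ (∀ z, lo < z → z < hi → H z = .B) ∧
  (p = hi → lo < hi → H hi = .B) ∧
  (hi - 1 ≤ p ∨ (H lo ≠ .B ∧ ∃ q t, r = .ret q t)) ∧ Wd C w lo hi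

def CRp (C : Code ι Q) (w : ℤ → Bool) (r : Info ι Q) (S : ℤ → Finset ι)
    (H : ℤ → Hd ι Q) (lo hi : ℤ) : Prop :=
  dirR r = true ∧ lo < hi ∧ (∀ z, lo < z → z < hi → H z = .B) ∧
  (H lo ≠ .B ∨ ∀ z, lo < z → z < hi → ¬ tin (target C r) (S z)) ∧ Wd C w lo hi

def chk (C : Code ι Q) (w : ℤ → Bool) (c : Conf ι Q) : Prop :=
  (∃ r, c.st = .go r ∧ CLp C w r c.pos c.S c.H c.lo c.hi) ∨
  (∃ r, c.st = .go r ∧ c.pos = c.lo + 1 ∧ CRp C w r c.S c.H c.lo c.hi)

def Inf (C : Code ι Q) (w : ℤ → Bool) (c : Conf ι Q) : Prop :=
  ∀ N : ℕ, ∃ c', Reaches C w c c' ∧ (N : ℤ) ≤ c'.hi - c'.lo ∧ Wd C w c'.lo c'.hi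

theorem Inf.of_reaches {c c' : Conf ι Q} (h : Reaches C w c c') (hI : Inf C w c') :
    Inf C w c := by
  intro N
  obtain ⟨d, h1, h2⟩ := hI N
  exact ⟨d, h.trans h1, h2⟩

theorem infR {τ : ι} {ρ : Q → ℕ} (PO : ProgOK C τ ρ) {r : Info ι Q} (hr : dirR r = true)
    {S : ℤ → Finset ι} {H : ℤ → Hd ι Q} {lo hi : ℤ} (hh : lo < hi)
    (hB : ∀ z, lo + 1 ≤ z → H z = .B ∧ ¬ tin (target C r) (S z))
    (hnh : ¬ Halts C w ⟨.go r, lo+1, S, H, lo, hi⟩) :
    Inf C w ⟨.go r, lo+1, S, H, lo, hi⟩ := by
  intro N
  have r1 := launchR (C := C) (w := w) hr (S := S) (H := H) (hi := hi) (lo := lo) (x := lo+1)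
    (by omega) (hB _ le_rfl).1 (hB _ le_rfl).2
  set n : ℕ := N + (hi - lo).toNat + 1 with hn
  have g2 := frameR_grow (x := lo+1) (S := S) (H := H) (hi := hi) (lo := lo) PO (N := n)
      (fun m hm => cross PO w m) hr (target C r) (by omega) n le_rfl
      (fun z h1 h2 => hB z (by omega))
  obtain ⟨hc, hre⟩ := g2.cond_of_not_halts (fun h => hnh (Halts.of_reaches r1 h))
  refine ⟨_, r1.trans hre, ?_, ?_⟩
  · simp only; push_cast; omega
  · simp only
    have h1 := (hc n (by omega) le_rfl).1
    exact Wd_of_cond h1 (by omega) (by push_cast; omega)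

theorem infL {τ : ι} {ρ : Q → ℕ} (PO : ProgOK C τ ρ) {r : Info ι Q} (hr : dirR r = false)
    {S : ℤ → Finset ι} {H : ℤ → Hd ι Q} {p lo hi : ℤ} (h1 : lo ≤ p) (h2 : p ≤ hi) (h3 : hi - 1 ≤ p)
    (hB : ∀ z, z ≤ p → H z = .B)
    (hnh : ¬ Halts C w ⟨.go r, p, S, H, lo, hi⟩) :
    Inf C w ⟨.go r, p, S, H, lo, hi⟩ := by
  intro N
  by_cases hb : bad r (S p)
  · exact absurd (launchL_bad hr (hB p le_rfl) hb) hnh
  have r1 := launchL (C := C) (w := w) hr (S := S) (H := H) (hi := hi) (lo := lo) (p := p)
    h2 (hB _ le_rfl) hb
  set n : ℕ := N + (hi - lo).toNat + 1 with hn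
  have g2 := frameL_grow (p := p) (S := S) (H := H) (hi := hi) (lo := lo) (C := C) (w := w) (N := n)
      (fun m hm => cross PO w m) hr h2 n le_rfl
      (fun z h1 h2 => hB z (by omega))
  obtain ⟨hc, hre⟩ := g2.cond_of_not_halts (fun h => hnh (Halts.of_reaches r1 h))
  refine ⟨_, r1.trans hre, ?_, ?_⟩
  · simp only; push_cast; omega
  · simp only
    have h1 := (hc n (by omega) le_rfl)
    exact Wd_of_cond h1 (by push_cast; omega) (by push_cast; omega)

/-! ### measures on the timer mark -/

open Classical in
def mS (τ : ι) (lo hi : ℤ) (S : ℤ → Finset ι) : ℕ :=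
  ((Finset.Icc lo hi).filter (fun z => ∃ z', lo ≤ z' ∧ z' ≤ z ∧ τ ∈ S z')).card

open Classical in
theorem mS_le {τ : ι} {lo hi : ℤ} {S S' : ℤ → Finset ι}
    (h : ∀ z, lo ≤ z → z ≤ hi → τ ∈ S' z → ∃ z', lo ≤ z' ∧ z' ≤ z ∧ τ ∈ S z') :
    mS τ lo hi S' ≤ mS τ lo hi S := by
  unfold mS
  apply Finset.card_le_card
  intro z hz
  rw [Finset.mem_filter, Finset.mem_Icc] at hz ⊢
  refine ⟨hz.1, ?_⟩
  obtain ⟨z', h1, h2, h3⟩ := hz.2
  obtain ⟨z'', h4, h5, h6⟩ := h z' h1 (by omega) h3
  exact ⟨z'', h4, by omega, h6⟩

open Classical in
theorem mS_lt {τ : ι} {lo hi : ℤ} {S S' : ℤ → Finset ι}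
    (h : ∀ z, lo ≤ z → z ≤ hi → τ ∈ S' z → ∃ z', lo ≤ z' ∧ z' ≤ z ∧ τ ∈ S z')
    {y : ℤ} (hy1 : lo ≤ y) (hy2 : y ≤ hi) (hy : τ ∈ S y) (hn : ∀ z, lo ≤ z → z ≤ y → τ ∉ S' z) :
    mS τ lo hi S' < mS τ lo hi S := by
  unfold mS
  apply Finset.card_lt_card
  constructor
  · intro z hz
    rw [Finset.mem_filter, Finset.mem_Icc] at hz ⊢
    refine ⟨hz.1, ?_⟩
    obtain ⟨z', h1, h2, h3⟩ := hz.2
    obtain ⟨z'', h4, h5, h6⟩ := h z' h1 (by omega) h3
    exact ⟨z'', h4, by omega, h6⟩
  · intro hsub
    have h1 : y ∈ (Finset.Icc lo hi).filter (fun z => ∃ z', lo ≤ z' ∧ z' ≤ z ∧ τ ∈ S z') := by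
      rw [Finset.mem_filter, Finset.mem_Icc]
      exact ⟨⟨hy1, hy2⟩, y, hy1, le_rfl, hy⟩
    have h2 := hsub h1
    rw [Finset.mem_filter] at h2
    obtain ⟨_, z', h3, h4, h5⟩ := h2
    exact hn z' h3 h4 h5

def mlt (τ : ι) (ρ : Q → ℕ) (lo hi : ℤ) (S' : ℤ → Finset ι) (q' : Q) (S : ℤ → Finset ι) (q : Q) :
    Prop :=
  mS τ lo hi S' < mS τ lo hi S ∨ (mS τ lo hi S' ≤ mS τ lo hi S ∧ ρ q' < ρ q)

/-- erasing label `i` at `y` does not increase the measure -/
theorem mS_erase {τ i : ι} {lo hi : ℤ} {S : ℤ → Finset ι} {y : ℤ} :
    mS τ lo hi (Function.update S y ((S y).erase i)) ≤ mS τ lo hi S := by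
  apply mS_le
  intro z h1 h2 h3
  refine ⟨z, h1, le_rfl, ?_⟩
  by_cases e : z = y
  · subst e; simp at h3; exact h3.2
  · simpa [e] using h3

/-- moving a non-timer label does not change the measure -/
theorem mS_move_ne {τ i : ι} (hi' : i ≠ τ) {lo hi : ℤ} {S : ℤ → Finset ι} {y y' : ℤ} :
    mS τ lo hi (Function.update (Function.update S y ((S y).erase i)) y'
      (insert i (Function.update S y ((S y).erase i) y'))) ≤ mS τ lo hi S := by
  apply mS_le
  intro z h1 h2 h3
  refine ⟨z, h1, le_rfl, ?_⟩
  by_cases e : z = y'
  · subst e
    simp only [Function.update_self, Finset.mem_insert] at h3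
    rcases h3 with h3 | h3
    · exact absurd h3.symm hi'
    · by_cases e' : z = y
      · subst e'; simp at h3; exact h3.2
      · simpa [e'] using h3
  · rw [Function.update_of_ne e] at h3
    by_cases e' : z = y
    · subst e'; simp at h3; exact h3.2
    · simpa [e'] using h3

/-- moving the first timer mark to the right decreases the measure -/
theorem mS_move_tau {τ : ι} {lo hi : ℤ} {S : ℤ → Finset ι} {y : ℤ} (h1 : lo ≤ y) (h2 : y ≤ hi)
    (hy : τ ∈ S y) (hf : ∀ z, lo ≤ z → z < y → τ ∉ S z) :
    mS τ lo hi (Function.update (Function.update S y ((S y).erase τ)) (y+1)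
      (insert τ (Function.update S y ((S y).erase τ) (y+1)))) < mS τ lo hi S := by
  apply mS_lt (y := y)
  · intro z hz1 hz2 hz3
    by_cases e : z = y + 1
    · exact ⟨y, h1, by omega, hy⟩
    · rw [Function.update_of_ne e] at hz3
      refine ⟨z, hz1, le_rfl, ?_⟩
      by_cases e' : z = y
      · subst e'; simp at hz3
      · simpa [e'] using hz3
  · exact h1
  · exact h2
  · exact hy
  · intro z hz1 hz2
    rw [Function.update_of_ne (by omega)]
    by_cases e' : z = y
    · subst e'; simp
    · rw [Function.update_of_ne e']
      exact hf z hz1 (by omega)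

/-! ### arrival of a right search at its stop -/

def extR (τ : ι) (ρ : Q → ℕ) (C : Code ι Q) (lo hi : ℤ) (r : Info ι Q) (S : ℤ → Finset ι)
    (r1 : Info ι Q) (S1 : ℤ → Finset ι) : Prop :=
  match r with
  | .rtoY _ _ _ _ => False
  | .find q t => ∃ q', r1 = .ret q' t ∧ (¬ tin (target C r) (S lo) → mlt τ ρ lo hi S1 q' S q)
  | _ => True

theorem arriveR {τ : ι} {ρ : Q → ℕ} (PO : ProgOK C τ ρ) {r : Info ι Q} (hr : dirR r = true)
    {S : ℤ → Finset ι} {H : ℤ → Hd ι Q} {y lo hi : ℤ} (h1 : lo ≤ y) (h2 : y ≤ hi)
    (hB : ∀ z, lo < z → z < hi → H z = .B)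
    (hns : ∀ z, lo < z → z < y → ¬ tin (target C r) (S z))
    (hstop : H y ≠ .B ∨ tin (target C r) (S y))
    (hsoft : y < hi → H y = .B ∧ H lo ≠ .B ∧ lo < y)
    (hW : Wd C w lo hi) (hW2 : y = hi → cond C w S (lo+1) (hi-lo-1).toNat)
    (hnh : ¬ Halts C w ⟨.go r, y, S, H, lo, hi⟩) :
    ∃ r1 p1 S1 H1 lo1 hi1, Reaches C w ⟨.go r, y, S, H, lo, hi⟩ ⟨.go r1, p1, S1, H1, lo1, hi1⟩ ∧
      CLp C w r1 p1 S1 H1 lo1 hi1 ∧ lo1 ≤ lo ∧ hi ≤ hi1 ∧
      (lo < y → lo1 = lo ∧ H1 lo = H lo ∧ (hi1 = hi → extR τ ρ C lo hi r S r1 S1)) := by
  have hWy : y = hi → Wd C w (min lo (y-1)) hi := by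
    intro e
    by_cases hl : lo < y
    · rw [min_eq_left (by omega)]; exact hW
    · apply Wd_small; omega
  have hWy1 : y = hi → Wd C w lo (hi+1) := by
    intro e
    exact Wd_of_cond (hW2 e) (by omega) (by omega)
  -- hard stops happen only at `y = hi`
  have hhard : H y ≠ .B → y = hi := by
    intro h
    by_contra hne
    exact h (hsoft (by omega)).1
  cases hH : H y with
  | B =>
    have htin : tin (target C r) (S y) := by
      rcases hstop with h | h
      · exact absurd hH h
      · exact h
    cases r with
    | find q t =>
      simp only [target] at htin hns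
      -- the label
      cases hq : C.prog q with
      | inc i q' =>
        have hlab : lab C q = some i := by simp [lab, hq]
        rw [hlab] at htin hns
        simp only [tin] at htin hns
        have e1 : Reaches C w ⟨.go (.find q t), y, S, H, lo, hi⟩
            ⟨.incM i q' t, y+1, Function.update S y ((S y).erase i), H, lo, max hi (y+1)⟩ := by
          apply reach1 (S' := (S y).erase i) (h' := .B) (d := .R)
          · simp [act, hH, target, hlab, tin, htin, goSoft, softAct, hq]
          · simp
          · rfl
          · exact upd_same hH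
          · simp; omega
          · simp
        by_cases hy1 : H (y+1) = .B
        · have e2 : Reaches C w ⟨.incM i q' t, y+1, Function.update S y ((S y).erase i), H, lo, max hi (y+1)⟩
            ⟨.go (.ret q' t), y+1, Function.update (Function.update S y ((S y).erase i)) (y+1)
              (insert i (Function.update S y ((S y).erase i) (y+1))), H, lo, max hi (y+1)⟩ := by
            apply reach1 (S' := insert i (Function.update S y ((S y).erase i) (y+1))) (h' := .B) (d := .N)
            · simp [act, hy1]
            · simp
            · rfl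
            · exact upd_same hy1
            · simp; omega
            · simp
          refine ⟨_, _, _, _, _, _, e1.trans e2, ?_, le_rfl, le_max_left _ _, ?_⟩
          · refine ⟨rfl, by omega, by omega, ?_, ?_, ?_, ?_⟩
            · intro z hz1 hz2
              by_cases e : z = y
              · rw [e]; exact hH
              · by_cases e' : y = hi
                · exact hB z hz1 (by omega)
                · exact hB z hz1 (by omega)
            · intro he _
              rw [← he]; exact hy1
            · by_cases e' : y < hi
              · right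
                exact ⟨(hsoft e').2.1, _, _, rfl⟩
              · left; omega
            · by_cases e' : y = hi
              · rw [max_eq_right (by omega), e']; exact hWy1 e'
              · rw [max_eq_left (by omega)]; exact hW
          · intro hly
            refine ⟨rfl, rfl, ?_⟩
            intro heq
            refine ⟨q', rfl, ?_⟩
            simp only [target, hlab, tin]
            intro hlo'
            by_cases e : i = τ
            · left
              subst e
              apply mS_move_tau h1 h2 htin
              intro z hz1 hz2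
              by_cases e' : z = lo
              · rw [e']; exact hlo'
              · exact hns z (by omega) hz2
            · right
              exact ⟨mS_move_ne e, PO.inc_lt _ _ _ hq e⟩
        · have e2 : Reaches C w ⟨.incM i q' t, y+1, Function.update S y ((S y).erase i), H, lo, max hi (y+1)⟩
            ⟨.go (.ret C.qov t), y, Function.update S y ((S y).erase i), H, lo, max hi (y+1)⟩ := by
            apply reach1 (S' := (Function.update S y ((S y).erase i) (y+1))) (h' := H (y+1)) (d := .L)
            · simp [act, hy1]
            · simp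
            · simp
            · simp
            · simp; omega
            · simp
          refine ⟨_, _, _, _, _, _, e1.trans e2, ?_, le_rfl, le_max_left _ _, ?_⟩
          · refine ⟨rfl, by omega, by omega, ?_, ?_, ?_, ?_⟩
            · intro z hz1 hz2
              by_cases e : z = y
              · rw [e]; exact hH
              · by_cases e' : y = hi
                · exact hB z hz1 (by omega)
                · exact hB z hz1 (by omega)
            · intro he _
              omega
            · by_cases e' : y < hi
              · right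
                exact ⟨(hsoft e').2.1, _, _, rfl⟩
              · left; omega
            · by_cases e' : y = hi
              · rw [max_eq_right (by omega), e']; exact hWy1 e'
              · rw [max_eq_left (by omega)]; exact hW
          · intro hly
            refine ⟨rfl, rfl, ?_⟩
            intro heq
            refine ⟨C.qov, rfl, ?_⟩
            intro hlo'
            right
            exact ⟨mS_erase, PO.inc_ov _ _ _ hq⟩
      | dec i q' q'' =>
        have hlab : lab C q = some i := by simp [lab, hq]
        rw [hlab] at htin hns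
        simp only [tin] at htin hns
        have e1 : Reaches C w ⟨.go (.find q t), y, S, H, lo, hi⟩
            ⟨.decM i q' t, y-1, Function.update S y ((S y).erase i), H, min lo (y-1), hi⟩ := by
          apply reach1 (S' := (S y).erase i) (h' := .B) (d := .L)
          · simp [act, hH, target, hlab, tin, htin, goSoft, softAct, hq]
          · simp; omega
          · rfl
          · exact upd_same hH
          · simp; omega
          · simp; omega
        have e2 : Reaches C w ⟨.decM i q' t, y-1, Function.update S y ((S y).erase i), H, min lo (y-1), hi⟩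
            ⟨.go (.ret q' t), y-1, Function.update (Function.update S y ((S y).erase i)) (y-1)
              (insert i (Function.update S y ((S y).erase i) (y-1))), H, min lo (y-1), hi⟩ := by
          apply reach1 (S' := insert i (Function.update S y ((S y).erase i) (y-1))) (h' := H (y-1)) (d := .N)
          · simp [act]
          · simp
          · rfl
          · simp
          · simp
          · simp; omega
        refine ⟨_, _, _, _, _, _, e1.trans e2, ?_, min_le_left _ _, le_rfl, ?_⟩
        · refine ⟨rfl, by omega, by omega, ?_, ?_, ?_, ?_⟩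
          · intro z hz1 hz2
            by_cases hl : lo < y
            · rw [min_eq_left (by omega)] at hz1
              exact hB z hz1 hz2
            · by_cases e' : y = hi
              · omega
              · have := (hsoft (by omega)).2.2; omega
          · intro he _; omega
          · by_cases e' : y < hi
            · right
              have := hsoft e'
              rw [min_eq_left (by omega)]
              exact ⟨this.2.1, _, _, rfl⟩
            · left; omega
          · by_cases e' : y = hi
            · exact hWy e'
            · have := (hsoft (by omega)).2.2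
              rw [min_eq_left (by omega)]; exact hW
        · intro hly
          refine ⟨min_eq_left (by omega), rfl, ?_⟩
          intro heq
          refine ⟨q', rfl, ?_⟩
          intro hlo'
          right
          exact ⟨mS_move_ne (PO.dec_ne _ _ _ _ hq), (PO.dec_lt _ _ _ _ hq).1⟩
      | read i q' q'' =>
        have hlab : lab C q = some i := by simp [lab, hq]
        rw [hlab] at htin hns
        simp only [tin] at htin hns
        have e1 : Reaches C w ⟨.go (.find q t), y, S, H, lo, hi⟩
            ⟨.go (.ret (if w y then q' else q'') t), y, S, H, lo, hi⟩ := by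
          apply reach1 (S' := S y) (h' := .B) (d := .N)
          · simp [act, hH, target, hlab, tin, htin, goSoft, softAct, hq]
          · simp
          · simp
          · exact upd_same hH
          · simp; omega
          · simp; omega
        refine ⟨_, _, _, _, _, _, e1, ?_, le_rfl, le_rfl, ?_⟩
        · refine ⟨rfl, by omega, by omega, hB, ?_, ?_, hW⟩
          · intro he _
            rw [← he]; exact hH
          · by_cases e' : y < hi
            · right
              exact ⟨(hsoft e').2.1, _, _, rfl⟩
            · left; omega
        · intro hly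
          refine ⟨rfl, rfl, ?_⟩
          intro heq
          refine ⟨_, rfl, ?_⟩
          intro hlo'
          right
          refine ⟨le_rfl, ?_⟩
          have := PO.read_lt _ _ _ _ hq
          split_ifs
          · exact this.1
          · exact this.2
      | clr i q' =>
        have hlab : lab C q = some i := by simp [lab, hq]
        rw [hlab] at htin hns
        simp only [tin] at htin hns
        have e1 : Reaches C w ⟨.go (.find q t), y, S, H, lo, hi⟩
            ⟨.go (.ret q' t), y, Function.update S y ((S y).erase i), H, lo, hi⟩ := by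
          apply reach1 (S' := (S y).erase i) (h' := .B) (d := .N)
          · simp [act, hH, target, hlab, tin, htin, goSoft, softAct, hq]
          · simp
          · rfl
          · exact upd_same hH
          · simp; omega
          · simp; omega
        refine ⟨_, _, _, _, _, _, e1, ?_, le_rfl, le_rfl, ?_⟩
        · refine ⟨rfl, by omega, by omega, hB, ?_, ?_, hW⟩
          · intro he _
            rw [← he]; exact hH
          · by_cases e' : y < hi
            · right
              exact ⟨(hsoft e').2.1, _, _, rfl⟩
            · left; omega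
        · intro hly
          refine ⟨rfl, rfl, ?_⟩
          intro heq
          refine ⟨_, rfl, ?_⟩
          intro hlo'
          right
          exact ⟨mS_erase, PO.clr_lt _ _ _ hq⟩
      | fin => simp [lab, hq, tin] at htin
      | rej => simp [lab, hq, tin] at htin
    | _ => simp [target, tin] at htin
  | O r' =>
    have hyhi := hhard (by simp [hH])
    subst hyhi
    cases r with
    | lback =>
      by_cases hr' : dirR r' = true
      · exact absurd (halt1 (by simp [act, hH, goO, hr'])) hnh
      have e1 : Reaches C w ⟨.go .lback, y, S, H, lo, y⟩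
          ⟨.go .ltoY, y-1, S, H, min lo (y-1), y⟩ := by
        apply reach1 (S' := S y) (h' := .O r') (d := .L)
        · simp [act, hH, goO, hr']
        · simp; omega
        · simp
        · exact upd_same hH
        · simp; omega
        · simp
      refine ⟨_, _, _, _, _, _, e1, ?_, min_le_left _ _, le_rfl, ?_⟩
      · refine ⟨rfl, by omega, by omega, ?_, ?_, Or.inl le_rfl, hWy rfl⟩
        · intro z hz1 hz2
          exact hB z (by omega) hz2
        · intro he _; omega
      · intro hly
        exact ⟨min_eq_left (by omega), rfl, fun _ => trivial⟩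
    | lclean =>
      by_cases hr' : dirR r' = true
      · exact absurd (halt1 (by simp [act, hH, goO, hr'])) hnh
      have e1 : Reaches C w ⟨.go .lclean, y, S, H, lo, y⟩
          ⟨.go r', y-1, S, Function.update H y .B, min lo (y-1), y⟩ := by
        apply reach1 (S' := S y) (h' := .B) (d := .L)
        · simp [act, hH, goO, hr']
        · simp; omega
        · simp
        · rfl
        · simp; omega
        · simp
      refine ⟨_, _, _, _, _, _, e1, ?_, min_le_left _ _, le_rfl, ?_⟩
      · refine ⟨by simpa using hr', by omega, by omega, ?_, ?_, Or.inl le_rfl, hWy rfl⟩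
        · intro z hz1 hz2
          rw [Function.update_of_ne (by omega)]
          exact hB z (by omega) hz2
        · intro he _; omega
      · intro hly
        refine ⟨min_eq_left (by omega), ?_, fun _ => trivial⟩
        rw [Function.update_of_ne (by omega)]
    | rtoY w0 S0 t val => exact absurd (halt1 (by simp [act, hH, goO])) hnh
    | find q t => exact absurd (halt1 (by simp [act, hH, goO])) hnh
    | _ => simp [dirR] at hr
  | ER =>
    have hyhi := hhard (by simp [hH])
    subst hyhi
    cases r with
    | lback => exact absurd (halt1 (by simp [act, hH, goER])) hnh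
    | lclean => exact absurd (halt1 (by simp [act, hH, goER])) hnh
    | rtoY w0 S0 t val =>
      cases hc : comb w0 S0 val (w y) (S y) with
      | none => exact absurd (halt1 (by simp [act, hH, goER, hc])) hnh
      | some v =>
        have e1 : Reaches C w ⟨.go (.rtoY w0 S0 t val), y, S, H, lo, y⟩
            ⟨.incR v t, y+1, S, Function.update H y .B, lo, y+1⟩ := by
          apply reach1 (S' := S y) (h' := .B) (d := .R)
          · simp [act, hH, goER, hc]
          · simp
          · simp
          · rfl
          · simp; omega
          · simp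
        have hne : y + 1 ≠ y := by omega
        have hB1 : ∀ z, lo < z → z < y + 1 → (Function.update H y .B) z = .B := by
          intro z hz1 hz2
          by_cases e : z = y
          · rw [e]; simp
          · rw [Function.update_of_ne e]; exact hB z hz1 (by omega)
        by_cases hcc : (Function.update H y .B) (y+1) = .B ∧ ¬ tin t (S (y+1))
        · have e2 : Reaches C w ⟨.incR v t, y+1, S, Function.update H y .B, lo, y+1⟩
              ⟨.go (if v.F = ∅ ∧ S (y+1) = ∅ then .rinit t else .ret C.qfin t), y, S,
                Function.update (Function.update H y .B) (y+1) .ER, lo, y+1⟩ := by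
            apply reach1 (S' := S (y+1)) (h' := .ER) (d := .L)
            · simp only [act]
              rw [if_pos hcc]
            · simp
            · simp
            · rfl
            · simp; omega
            · simp
          refine ⟨_, _, _, _, _, _, e1.trans e2, ?_, le_rfl, by omega, ?_⟩
          · refine ⟨?_, by omega, by omega, ?_, ?_, Or.inl (by omega), hWy1 rfl⟩
            · split_ifs <;> rfl
            · intro z hz1 hz2
              rw [Function.update_of_ne (by omega)]
              exact hB1 z hz1 hz2
            · intro he _; omega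
          · intro hly
            refine ⟨rfl, ?_, fun h => by omega⟩
            rw [Function.update_of_ne (by omega), Function.update_of_ne (by omega)]
        · have e2 : Reaches C w ⟨.incR v t, y+1, S, Function.update H y .B, lo, y+1⟩
              ⟨.go (.rclean v t), y, S, Function.update H y .B, lo, y+1⟩ := by
            apply reach1 (S' := S (y+1)) (h' := (Function.update H y .B) (y+1)) (d := .L)
            · simp only [act]
              rw [if_neg hcc]
            · simp
            · simp
            · simp
            · simp; omega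
            · simp
          refine ⟨_, _, _, _, _, _, e1.trans e2, ?_, le_rfl, by omega, ?_⟩
          · refine ⟨rfl, by omega, by omega, hB1, ?_, Or.inl (by omega), hWy1 rfl⟩
            intro he _; omega
          · intro hly
            refine ⟨rfl, ?_, fun h => by omega⟩
            rw [Function.update_of_ne (by omega)]
    | find q t =>
      cases hq : C.prog q with
      | clr i q' =>
        have e1 : Reaches C w ⟨.go (.find q t), y, S, H, lo, y⟩
            ⟨.go (.ret q' t), y-1, S, H, min lo (y-1), y⟩ := by
          apply reach1 (S' := S y) (h' := .ER) (d := .L)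
          · simp [act, hH, goER, hq]
          · simp; omega
          · simp
          · exact upd_same hH
          · simp; omega
          · simp
        refine ⟨_, _, _, _, _, _, e1, ?_, min_le_left _ _, le_rfl, ?_⟩
        · refine ⟨rfl, by omega, by omega, ?_, ?_, Or.inl le_rfl, hWy rfl⟩
          · intro z hz1 hz2
            exact hB z (by omega) hz2
          · intro he _; omega
        · intro hly
          refine ⟨min_eq_left (by omega), rfl, fun _ => ⟨q', rfl, fun _ => ?_⟩⟩
          right
          exact ⟨le_rfl, PO.clr_lt _ _ _ hq⟩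
      | _ => exact absurd (halt1 (by simp [act, hH, goER, hq])) hnh
    | _ => simp [dirR] at hr
  | EL =>
    cases r with
    | lback => exact absurd (halt1 (by simp [act, hH, goEL])) hnh
    | lclean => exact absurd (halt1 (by simp [act, hH, goEL])) hnh
    | rtoY w0 S0 t val => exact absurd (halt1 (by simp [act, hH, goEL])) hnh
    | find q t => exact absurd (halt1 (by simp [act, hH, goEL])) hnh
    | _ => simp [dirR] at hr

end

end H74
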