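import Pool.Agent.H74.Top

set_option linter.unusedSectionVars false
set_option linter.unusedVariables false

namespace H74

noncomputable section
variable {ι Q : Type} [DecidableEq ι] [Fintype ι] [DecidableEq Q]

variable {C : Code ι Q} {w : ℤ → Bool}

theorem first_stopR (P : ℤ → Prop) (x : ℤ) :
    (∀ z, x ≤ z → ¬ P z) ∨ ∃ n : ℕ, P (x+n) ∧ ∀ z, x ≤ z → z < x + n → ¬ P z := by
  classical
  by_cases h : ∃ n : ℕ, P (x+n)
  · right
    refine ⟨Nat.find h, Nat.find_spec h, ?_⟩
    intro z hz hz' hP
    have h1 := Nat.find_min h (m := (z-x).toNat) (by omega)
    apply h1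
    have : x + ((z-x).toNat : ℤ) = z := by omega
    rw [this]; exact hP
  · left
    intro z hz hP
    apply h
    refine ⟨(z-x).toNat, ?_⟩
    have : x + ((z-x).toNat : ℤ) = z := by omega
    rw [this]; exact hP

theorem first_stopL (P : ℤ → Prop) (x : ℤ) :
    (∀ z, z ≤ x → ¬ P z) ∨ ∃ n : ℕ, P (x-n) ∧ ∀ z, x - n < z → z ≤ x → ¬ P z := by
  classical
  by_cases h : ∃ n : ℕ, P (x-n)
  · right
    refine ⟨Nat.find h, Nat.find_spec h, ?_⟩
    intro z hz hz' hP
    have h1 := Nat.find_min h (m := (x-z).toNat) (by omega)
    apply h1
    have : x - ((x-z).toNat : ℤ) = z := by omega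
    rw [this]; exact hP
  · left
    intro z hz hP
    apply h
    refine ⟨(x-z).toNat, ?_⟩
    have : x - ((x-z).toNat : ℤ) = z := by omega
    rw [this]; exact hP

theorem dirR_updn (r : Info ι Q) (w : ℤ → Bool) (S : ℤ → Finset ι) (x : ℤ) (n : ℕ) :
    dirR (updn r w S x n) = dirR r := by
  unfold updn; split_ifs
  · rfl
  · exact dirR_upd _ _

theorem target_updn (r : Info ι Q) (w : ℤ → Bool) (S : ℤ → Finset ι) (x : ℤ) (n : ℕ) :
    target C (updn r w S x n) = target C r := by
  unfold updn; split_ifs
  · rfl
  · exact target_upd _ _

theorem extR_updn {τ : ι} {ρ : Q → ℕ} {lo hi : ℤ} {r r1 : Info ι Q} {S S1 : ℤ → Finset ι}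
    {x : ℤ} {n : ℕ} (h : extR τ ρ C lo hi (updn r w S x n) S r1 S1) :
    extR τ ρ C lo hi r S r1 S1 := by
  cases r with
  | rtoY w0 S0 t val =>
    unfold updn at h
    split_ifs at h
    · exact h
    · cases val <;> simp [upd, extR] at h
  | find q t => rw [updn_find] at h; exact h
  | _ => trivial

theorem stepR {τ : ι} {ρ : Q → ℕ} (PO : ProgOK C τ ρ) {r : Info ι Q}
    {S : ℤ → Finset ι} {H : ℤ → Hd ι Q} {lo hi : ℤ} (h : CRp C w r S H lo hi)
    (hnh : ¬ Halts C w ⟨.go r, lo+1, S, H, lo, hi⟩) :
    Inf C w ⟨.go r, lo+1, S, H, lo, hi⟩ ∨
    ∃ r1 p1 S1 H1 hi1, Reaches C w ⟨.go r, lo+1, S, H, lo, hi⟩ ⟨.go r1, p1, S1, H1, lo, hi1⟩ ∧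
      CLp C w r1 p1 S1 H1 lo hi1 ∧ hi ≤ hi1 ∧ H1 lo = H lo ∧
      (hi1 = hi → extR τ ρ C lo hi r S r1 S1) := by
  obtain ⟨hr, hlh, hB, hs, hW⟩ := h
  rcases first_stopR (fun z => H z ≠ .B ∨ tin (target C r) (S z)) (lo+1) with hno | ⟨n, hy, hny⟩
  · left
    apply infR PO hr hlh _ hnh
    intro z hz
    have := hno z hz
    simp only [not_or, not_not] at this
    exact this
  · right
    set y : ℤ := lo + 1 + n with hydef
    have hny' : ∀ z, lo + 1 ≤ z → z < y → H z = .B ∧ ¬ tin (target C r) (S z) := by
      intro z hz hz'
      have := hny z hz hz'
      simp only [not_or, not_not] at this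
      exact this
    obtain ⟨hc, hre⟩ := ((cross PO w n).1 r (lo+1) y S H lo hi rfl hr hny' hy (by omega)
      (by omega)).cond_of_not_halts hnh
    have hnh' := fun h => hnh (Halts.of_reaches hre h)
    have k1 : ∀ z, lo < z → z < max hi y → H z = .B := by
      intro z h1 h2
      by_cases e : z < hi
      · exact hB z h1 e
      · exact (hny' z (by omega) (by omega)).1
    have k2 : ∀ z, lo < z → z < y → ¬ tin (target C (updn r w S (lo+1) n)) (S z) := by
      intro z h1 h2
      rw [target_updn]
      exact (hny' z (by omega) (by omega)).2
    have k3 : H y ≠ .B ∨ tin (target C (updn r w S (lo+1) n)) (S y) := by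
      rw [target_updn]; exact hy
    have k4 : y < max hi y → H y = .B ∧ H lo ≠ .B ∧ lo < y := by
      intro hlt
      have hyhi : y < hi := by omega
      have hHy : H y = .B := hB y (by omega) hyhi
      refine ⟨hHy, ?_, by omega⟩
      rcases hs with hs | hs
      · exact hs
      · rcases hy with hy | hy
        · exact absurd hHy hy
        · exact absurd hy (hs y (by omega) hyhi)
    have k5 : Wd C w lo (max hi y) := by
      by_cases e : y ≤ hi
      · rw [max_eq_left e]; exact hW
      · rw [max_eq_right (by omega)]
        exact Wd_of_cond hc (by omega) (by omega)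
    have k6 : y = max hi y → cond C w S (lo+1) (max hi y - lo - 1).toNat := by
      intro e
      have : (max hi y - lo - 1).toNat = n := by omega
      rw [this]; exact hc
    obtain ⟨r1, p1, S1, H1, lo1, hi1, a1, a2, a3, a4, a5⟩ := arriveR (τ := τ) (ρ := ρ) PO
      (r := updn r w S (lo+1) n)
      (by rw [dirR_updn]; exact hr) (by omega) (le_max_right hi y) k1 k2 k3 k4 k5 k6 hnh'
    obtain ⟨b1, b2, b3⟩ := a5 (by omega)
    subst b1
    refine ⟨r1, p1, S1, H1, hi1, hre.trans a1, a2, le_trans (le_max_left _ _) a4, b2, ?_⟩
    intro heq
    have e : max hi y = hi := by omega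
    have := b3 (by omega)
    rw [e] at this
    exact extR_updn this

def Enl (C : Code ι Q) (w : ℤ → Bool) (c : Conf ι Q) (lo hi : ℤ) : Prop :=
  ∃ c', Reaches C w c c' ∧ chk C w c' ∧ c'.lo ≤ lo ∧ hi ≤ c'.hi ∧ (c'.lo < lo ∨ hi < c'.hi)

theorem Enl.of_reaches {c c' : Conf ι Q} {lo hi : ℤ} (h : Reaches C w c c')
    (hE : Enl C w c' lo hi) : Enl C w c lo hi := by
  obtain ⟨d, h1, h2⟩ := hE
  exact ⟨d, h.trans h1, h2⟩

theorem Enl.mkL {c : Conf ι Q} {lo hi : ℤ} {r : Info ι Q} {p : ℤ} {S : ℤ → Finset ι}
    {H : ℤ → Hd ι Q} {lo1 hi1 : ℤ} (h : Reaches C w c ⟨.go r, p, S, H, lo1, hi1⟩)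
    (h1 : CLp C w r p S H lo1 hi1) (h2 : lo1 ≤ lo) (h3 : hi ≤ hi1) (h4 : lo1 < lo ∨ hi < hi1) :
    Enl C w c lo hi :=
  ⟨_, h, Or.inl ⟨r, rfl, h1⟩, h2, h3, h4⟩

theorem Enl.mkR {c : Conf ι Q} {lo hi : ℤ} {r : Info ι Q} {p : ℤ} {S : ℤ → Finset ι}
    {H : ℤ → Hd ι Q} {lo1 hi1 : ℤ} (h : Reaches C w c ⟨.go r, p, S, H, lo1, hi1⟩)
    (hp : p = lo1 + 1)
    (h1 : CRp C w r S H lo1 hi1) (h2 : lo1 ≤ lo) (h3 : hi ≤ hi1) (h4 : lo1 < lo ∨ hi < hi1) :
    Enl C w c lo hi :=
  ⟨_, h, Or.inr ⟨r, rfl, hp, h1⟩, h2, h3, h4⟩

/-- the same-interval outcomes of a left step -/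
def SameL (τ : ι) (ρ : Q → ℕ) (C : Code ι Q) (w : ℤ → Bool) (r : Info ι Q) (p : ℤ)
    (S : ℤ → Finset ι) (H : ℤ → Hd ι Q) (lo hi : ℤ) : Prop :=
  H lo ≠ .B ∧
  ((∃ v t r1 H1, r = .rclean v t ∧
      Reaches C w ⟨.go r, p, S, H, lo, hi⟩ ⟨.go r1, lo+1, S, H1, lo, hi⟩ ∧
      CRp C w r1 S H1 lo hi ∧ H1 lo = .B) ∨
   (∃ t S1, r = .rinit t ∧
      Reaches C w ⟨.go r, p, S, H, lo, hi⟩ ⟨.go (.ret C.q0 t), lo, S1, H, lo, hi⟩ ∧
      CLp C w (.ret C.q0 t) lo S1 H lo hi) ∨
   (∃ q t, r = .ret q t ∧
      ((∃ q1 p1 S1, Reaches C w ⟨.go r, p, S, H, lo, hi⟩ ⟨.go (.ret q1 t), p1, S1, H, lo, hi⟩ ∧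
          CLp C w (.ret q1 t) p1 S1 H lo hi ∧ mlt τ ρ lo hi S1 q1 S q) ∨
       (Reaches C w ⟨.go r, p, S, H, lo, hi⟩ ⟨.go (.find q t), lo+1, S, H, lo, hi⟩ ∧
          CRp C w (.find q t) S H lo hi ∧ ¬ tin (lab C q) (S lo)) ∨
       (∃ w0 S0, Reaches C w ⟨.go r, p, S, H, lo, hi⟩ ⟨.go (.rtoY w0 S0 t none), lo+1, S, H, lo, hi⟩ ∧
          CRp C w (.rtoY w0 S0 t none) S H lo hi))))

theorem stepL {τ : ι} {ρ : Q → ℕ} (PO : ProgOK C τ ρ) {r : Info ι Q} {p : ℤ}
    {S : ℤ → Finset ι} {H : ℤ → Hd ι Q} {lo hi : ℤ} (h : CLp C w r p S H lo hi)
    (hnh : ¬ Halts C w ⟨.go r, p, S, H, lo, hi⟩) :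
    Inf C w ⟨.go r, p, S, H, lo, hi⟩ ∨ Enl C w ⟨.go r, p, S, H, lo, hi⟩ lo hi ∨
      SameL τ ρ C w r p S H lo hi := by
  obtain ⟨hr, hlp, hph, hB, hpu, hor, hW⟩ := h
  rcases first_stopL (fun z => H z ≠ .B) p with hno | ⟨n, hy, hny⟩
  · left
    have hno' : ∀ z, z ≤ p → H z = .B := fun z hz => not_not.1 (hno z hz)
    refine infL PO hr hlp hph ?_ hno' hnh
    rcases hor with h | h
    · exact h
    · exact absurd (hno' lo hlp) h.1
  · right
    set y : ℤ := p - n with hydef
    have hny' : ∀ z, y < z → z ≤ p → H z = .B := fun z h1 h2 => not_not.1 (hny z h1 h2)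
    have hyl : y ≤ lo := by
      by_contra hcon
      push Not at hcon
      apply hy
      by_cases e : y < hi
      · exact hB y hcon e
      · have e1 : y = hi := by omega
        have e2 : p = hi := by omega
        rw [e1]; exact hpu e2 (by omega)
    obtain ⟨⟨hc, hbad⟩, hre⟩ := ((cross PO w n).2 r p y S H lo hi (by omega) hr hny' hy hlp
      hph).cond_of_not_halts hnh
    rw [min_eq_right hyl] at hre
    have hnh' := fun h => hnh (Halts.of_reaches hre h)
    have hBy : ∀ z, y < z → z < hi → H z = .B := by
      intro z h1 h2
      by_cases e : z ≤ p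
      · exact hny' z h1 e
      · exact hB z (by omega) h2
    have hloB : y < lo → H lo = .B := fun h => hny' lo h hlp
    have hW1 : hi - 1 ≤ p → Wd C w (y-1) hi := by
      intro h
      apply Wd_of_cond hc (by omega)
      omega
    have hWy : Wd C w y hi := by
      by_cases e : y = lo
      · rw [e]; exact hW
      · have h1 : H lo = .B := hloB (by omega)
        rcases hor with h | h
        · exact Wd_mono (hW1 h) (by omega) le_rfl
        · exact absurd h1 h.1
    have hWm : Wd C w y (max hi (y+1)) := by
      by_cases e : y < hi
      · rw [max_eq_left (by omega)]; exact hWy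
      · apply Wd_small; omega
    cases r with
    | ltoY =>
      have hpp : hi - 1 ≤ p := by
        rcases hor with h | ⟨_, q, t, h⟩
        · exact h
        · simp at h
      cases hH : H y with
      | B => exact absurd hH hy
      | O r' => exact absurd (halt1 (by simp [act, hH, goO])) hnh'
      | ER => exact absurd (halt1 (by simp [act, hH, goER])) hnh'
      | EL =>
        have e1 : Reaches C w ⟨.go .ltoY, y, S, H, y, hi⟩
            ⟨.incL, y-1, S, Function.update H y .B, y-1, hi⟩ := by
          apply reach1 (S' := S y) (h' := .B) (d := .L)
          · simp [act, hH, goEL]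
          · simp; omega
          · simp
          · rfl
          · simp; omega
          · simp; omega
        have hB1 : ∀ z, y - 1 < z → z < hi → (Function.update H y .B) z = .B := by
          intro z h1 h2
          by_cases e : z = y
          · rw [e]; simp
          · rw [Function.update_of_ne e]; exact hBy z (by omega) h2
        left
        by_cases hc1 : (Function.update H y .B) (y-1) = .B
        · have e2 : Reaches C w ⟨.incL, y-1, S, Function.update H y .B, y-1, hi⟩
              ⟨.go .lback, y, S, Function.update (Function.update H y .B) (y-1) .EL, y-1, hi⟩ := by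
            apply reach1 (S' := S (y-1)) (h' := .EL) (d := .R)
            · simp only [act]
              rw [if_pos hc1]
            · simp
            · simp
            · rfl
            · simp
            · simp; omega
          refine Enl.mkR (hre.trans (e1.trans e2)) (by ring) ?_ (by omega) le_rfl (by omega)
          refine ⟨rfl, by omega, ?_, Or.inr (fun z _ _ => by simp [target, tin]), hW1 hpp⟩
          intro z h1 h2
          rw [Function.update_of_ne (by omega)]
          exact hB1 z h1 h2
        · have e2 : Reaches C w ⟨.incL, y-1, S, Function.update H y .B, y-1, hi⟩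
              ⟨.go .lclean, y, S, Function.update H y .B, y-1, hi⟩ := by
            apply reach1 (S' := S (y-1)) (h' := (Function.update H y .B) (y-1)) (d := .R)
            · simp only [act]
              rw [if_neg hc1]
            · simp
            · simp
            · simp
            · simp
            · simp; omega
          refine Enl.mkR (hre.trans (e1.trans e2)) (by ring) ?_ (by omega) le_rfl (by omega)
          exact ⟨rfl, by omega, hB1, Or.inr (fun z _ _ => by simp [target, tin]), hW1 hpp⟩
    | rclean v t =>
      have hpp : hi - 1 ≤ p := by
        rcases hor with h | ⟨_, q, t, h⟩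
        · exact h
        · simp at h
      cases hH : H y with
      | B => exact absurd hH hy
      | ER => exact absurd (halt1 (by simp [act, hH, goER])) hnh'
      | EL => exact absurd (halt1 (by simp [act, hH, goEL])) hnh'
      | O r' =>
        by_cases hcc : dirR r' = true ∧ target C r' = t
        · have e1 : Reaches C w ⟨.go (.rclean v t), y, S, H, y, hi⟩
              ⟨.go (upd r' v), y+1, S, Function.update H y .B, y, max hi (y+1)⟩ := by
            apply reach1 (S' := S y) (h' := .B) (d := .R)
            · simp only [act, hH, goO]
              rw [if_pos hcc]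
            · simp
            · simp
            · rfl
            · simp
            · simp
          have hCR : CRp C w (upd r' v) S (Function.update H y .B) y (max hi (y+1)) := by
            refine ⟨by rw [dirR_upd]; exact hcc.1, by omega, ?_, Or.inr ?_, hWm⟩
            · intro z h1 h2
              rw [Function.update_of_ne (by omega)]
              exact hBy z h1 (by omega)
            · intro z h1 h2
              rw [target_upd, hcc.2]
              have := hbad z h1 (by omega)
              simpa [bad] using this
          by_cases hE : y < lo ∨ hi < max hi (y+1)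
          · left
            exact Enl.mkR (hre.trans e1) rfl hCR hyl (le_max_left _ _) hE
          · right
            have ey : y = lo := by omega
            have eh : max hi (y+1) = hi := by omega
            rw [eh] at e1 hCR
            rw [← ey]
            rw [← ey] at hre
            exact ⟨hy, Or.inl ⟨v, t, _, _, rfl, hre.trans e1, hCR, by simp⟩⟩
        · exact absurd (halt1 (by simp [act, hH, goO, hcc])) hnh'
    | rinit t =>
      have hpp : hi - 1 ≤ p := by
        rcases hor with h | ⟨_, q, t, h⟩
        · exact h
        · simp at h
      cases hH : H y with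
      | B => exact absurd hH hy
      | ER => exact absurd (halt1 (by simp [act, hH, goER])) hnh'
      | EL => exact absurd (halt1 (by simp [act, hH, goEL])) hnh'
      | O r' =>
        by_cases hcc : dirR r' = true
        · have e1 : Reaches C w ⟨.go (.rinit t), y, S, H, y, hi⟩
              ⟨.go (.ret C.q0 t), y, Function.update S y Finset.univ, H, y, hi⟩ := by
            apply reach1 (S' := Finset.univ) (h' := .O r') (d := .N)
            · simp only [act, hH, goO]
              rw [if_pos hcc]
            · simp
            · rfl
            · exact upd_same hH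
            · simp
            · simp; omega
          have hCL : CLp C w (.ret C.q0 t) y (Function.update S y Finset.univ) H y hi := by
            refine ⟨rfl, le_rfl, by omega, hBy, by omega, Or.inr ⟨hy, _, _, rfl⟩, hWy⟩
          by_cases hE : y < lo
          · left
            exact Enl.mkL (hre.trans e1) hCL hyl le_rfl (Or.inl hE)
          · right
            have ey : y = lo := by omega
            rw [← ey]
            rw [← ey] at hre
            exact ⟨hy, Or.inr (Or.inl ⟨t, _, rfl, hre.trans e1, hCL⟩)⟩
        · exact absurd (halt1 (by simp [act, hH, goO, hcc])) hnh'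
    | ret q t =>
      cases hH : H y with
      | B => exact absurd hH hy
      | ER => exact absurd (halt1 (by simp [act, hH, goER])) hnh'
      | EL => exact absurd (halt1 (by simp [act, hH, goEL])) hnh'
      | O r' =>
        by_cases hcc : dirR r' = true
        · -- generic closing for `find`
          have hfind : ¬ tin (lab C q) (S y) → (retAct C q t (w y) (S y) (.O r') =
              some (.go (.find q t), S y, .O r', .R)) →
              Enl C w ⟨.go (.ret q t), p, S, H, lo, hi⟩ lo hi ∨
              SameL τ ρ C w (.ret q t) p S H lo hi := by
            intro hnt hact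
            have e1 : Reaches C w ⟨.go (.ret q t), y, S, H, y, hi⟩
                ⟨.go (.find q t), y+1, S, H, y, max hi (y+1)⟩ := by
              apply reach1 (S' := S y) (h' := .O r') (d := .R)
              · simp only [act, hH, goO]
                rw [if_pos hcc, hact]
              · simp
              · simp
              · exact upd_same hH
              · simp
              · simp
            have hCR : CRp C w (.find q t) S H y (max hi (y+1)) := by
              refine ⟨rfl, by omega, ?_, Or.inl hy, hWm⟩
              intro z h1 h2
              exact hBy z h1 (by omega)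
            by_cases hE : y < lo ∨ hi < max hi (y+1)
            · left
              exact Enl.mkR (hre.trans e1) rfl hCR hyl (le_max_left _ _) hE
            · right
              have ey : y = lo := by omega
              have eh : max hi (y+1) = hi := by omega
              rw [eh] at e1 hCR
              rw [← ey]
              rw [← ey] at hre
              exact ⟨hy, Or.inr (Or.inr ⟨q, t, rfl, Or.inr (Or.inl ⟨hre.trans e1, hCR, hnt⟩)⟩)⟩
          -- generic closing for staying at the origin
          have hstay : ∀ (q1 : Q) (S' : Finset ι), (retAct C q t (w y) (S y) (.O r') =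
              some (.go (.ret q1 t), S', .O r', .N)) →
              (mlt τ ρ lo hi (Function.update S y S') q1 S q) →
              Enl C w ⟨.go (.ret q t), p, S, H, lo, hi⟩ lo hi ∨
              SameL τ ρ C w (.ret q t) p S H lo hi := by
            intro q1 S' hact hm
            have e1 : Reaches C w ⟨.go (.ret q t), y, S, H, y, hi⟩
                ⟨.go (.ret q1 t), y, Function.update S y S', H, y, hi⟩ := by
              apply reach1 (S' := S') (h' := .O r') (d := .N)
              · simp only [act, hH, goO]
                rw [if_pos hcc, hact]
              · simp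
              · simp
              · exact upd_same hH
              · simp
              · simp; omega
            have hCL : CLp C w (.ret q1 t) y (Function.update S y S') H y hi := by
              refine ⟨rfl, le_rfl, by omega, hBy, by omega, Or.inr ⟨hy, _, _, rfl⟩, hWy⟩
            by_cases hE : y < lo
            · left
              exact Enl.mkL (hre.trans e1) hCL hyl le_rfl (Or.inl hE)
            · right
              have ey : y = lo := by omega
              rw [← ey]
              rw [← ey] at hre hm
              exact ⟨hy, Or.inr (Or.inr ⟨q, t, rfl, Or.inl ⟨_, _, _, hre.trans e1, hCL, hm⟩⟩)⟩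
          cases hq : C.prog q with
          | inc i q' =>
            by_cases hmem : i ∈ S y
            · have e1 : Reaches C w ⟨.go (.ret q t), y, S, H, y, hi⟩
                  ⟨.incM i q' t, y+1, Function.update S y ((S y).erase i), H, y, max hi (y+1)⟩ := by
                apply reach1 (S' := (S y).erase i) (h' := .O r') (d := .R)
                · simp [act, hH, goO, hcc, retAct, hq, hmem]
                · simp
                · rfl
                · exact upd_same hH
                · simp
                · simp
              by_cases hy1 : H (y+1) = .B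
              · have e2 : Reaches C w ⟨.incM i q' t, y+1, Function.update S y ((S y).erase i), H, y, max hi (y+1)⟩
                    ⟨.go (.ret q' t), y+1, Function.update (Function.update S y ((S y).erase i)) (y+1)
                      (insert i (Function.update S y ((S y).erase i) (y+1))), H, y, max hi (y+1)⟩ := by
                  apply reach1 (S' := insert i (Function.update S y ((S y).erase i) (y+1))) (h' := .B) (d := .N)
                  · simp [act, hy1]
                  · simp
                  · rfl
                  · exact upd_same hy1
                  · simp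
                  · simp
                have hCL : CLp C w (.ret q' t) (y+1)
                    (Function.update (Function.update S y ((S y).erase i)) (y+1)
                      (insert i (Function.update S y ((S y).erase i) (y+1)))) H y (max hi (y+1)) := by
                  refine ⟨rfl, by omega, by omega, ?_, ?_, Or.inr ⟨hy, _, _, rfl⟩, hWm⟩
                  · intro z h1 h2
                    exact hBy z h1 (by omega)
                  · intro he _
                    rw [← he]; exact hy1
                by_cases hE : y < lo ∨ hi < max hi (y+1)
                · left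
                  exact Enl.mkL (hre.trans (e1.trans e2)) hCL hyl (le_max_left _ _) hE
                · right
                  have ey : y = lo := by omega
                  have eh : max hi (y+1) = hi := by omega
                  rw [eh] at e1 e2 hCL
                  rw [← ey]
                  rw [← ey] at hre
                  refine ⟨hy, Or.inr (Or.inr ⟨q, t, rfl, Or.inl ⟨_, _, _, hre.trans (e1.trans e2), hCL, ?_⟩⟩)⟩
                  by_cases e : i = τ
                  · left
                    subst e
                    apply mS_move_tau le_rfl (by omega) hmem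
                    intro z hz1 hz2; omega
                  · right
                    exact ⟨mS_move_ne e, PO.inc_lt _ _ _ hq e⟩
              · have e2 : Reaches C w ⟨.incM i q' t, y+1, Function.update S y ((S y).erase i), H, y, max hi (y+1)⟩
                    ⟨.go (.ret C.qov t), y, Function.update S y ((S y).erase i), H, y, max hi (y+1)⟩ := by
                  apply reach1 (S' := (Function.update S y ((S y).erase i) (y+1))) (h' := H (y+1)) (d := .L)
                  · simp [act, hy1]
                  · simp
                  · simp
                  · simp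
                  · simp
                  · simp
                have hCL : CLp C w (.ret C.qov t) y
                    (Function.update S y ((S y).erase i)) H y (max hi (y+1)) := by
                  refine ⟨rfl, by omega, by omega, ?_, ?_, Or.inr ⟨hy, _, _, rfl⟩, hWm⟩
                  · intro z h1 h2
                    exact hBy z h1 (by omega)
                  · intro he _
                    omega
                by_cases hE : y < lo ∨ hi < max hi (y+1)
                · left
                  exact Enl.mkL (hre.trans (e1.trans e2)) hCL hyl (le_max_left _ _) hE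
                · right
                  have ey : y = lo := by omega
                  have eh : max hi (y+1) = hi := by omega
                  rw [eh] at e1 e2 hCL
                  rw [← ey]
                  rw [← ey] at hre
                  exact ⟨hy, Or.inr (Or.inr ⟨q, t, rfl, Or.inl ⟨_, _, _, hre.trans (e1.trans e2), hCL,
                    Or.inr ⟨mS_erase, PO.inc_ov _ _ _ hq⟩⟩⟩)⟩
            · exact hfind (by simp [lab, hq, tin, hmem]) (by simp [retAct, hq, hmem])
          | dec i q' q'' =>
            by_cases hmem : i ∈ S y
            · exact hstay q'' (S y) (by simp [retAct, hq, hmem])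
                (Or.inr ⟨by simp, (PO.dec_lt _ _ _ _ hq).2⟩)
            · exact hfind (by simp [lab, hq, tin, hmem]) (by simp [retAct, hq, hmem])
          | read i q' q'' =>
            by_cases hmem : i ∈ S y
            · refine hstay (if w y then q' else q'') (S y) (by simp [retAct, hq, hmem])
                (Or.inr ⟨by simp, ?_⟩)
              have := PO.read_lt _ _ _ _ hq
              split_ifs
              · exact this.1
              · exact this.2
            · exact hfind (by simp [lab, hq, tin, hmem]) (by simp [retAct, hq, hmem])
          | clr i q' =>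
            by_cases hmem : i ∈ S y
            · exact hstay q' ((S y).erase i) (by simp [retAct, hq, hmem])
                (Or.inr ⟨mS_erase, PO.clr_lt _ _ _ hq⟩)
            · exact hfind (by simp [lab, hq, tin, hmem]) (by simp [retAct, hq, hmem])
          | fin =>
            have e1 : Reaches C w ⟨.go (.ret q t), y, S, H, y, hi⟩
                ⟨.go (.rtoY (w y) (S y) t none), y+1, S, H, y, max hi (y+1)⟩ := by
              apply reach1 (S' := S y) (h' := .O r') (d := .R)
              · simp [act, hH, goO, hcc, retAct, hq]
              · simp
              · simp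
              · exact upd_same hH
              · simp
              · simp
            have hCR : CRp C w (.rtoY (w y) (S y) t none) S H y (max hi (y+1)) := by
              refine ⟨rfl, by omega, ?_, Or.inl hy, hWm⟩
              intro z h1 h2
              exact hBy z h1 (by omega)
            by_cases hE : y < lo ∨ hi < max hi (y+1)
            · left
              exact Enl.mkR (hre.trans e1) rfl hCR hyl (le_max_left _ _) hE
            · right
              have ey : y = lo := by omega
              have eh : max hi (y+1) = hi := by omega
              rw [eh] at e1 hCR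
              rw [← ey]
              rw [← ey] at hre
              exact ⟨hy, Or.inr (Or.inr ⟨q, t, rfl, Or.inr (Or.inr ⟨_, _, hre.trans e1, hCR⟩)⟩)⟩
          | rej => exact absurd (halt1 (by simp [act, hH, goO, hcc, retAct, hq])) hnh'
        · exact absurd (halt1 (by simp [act, hH, goO, hcc])) hnh'
    | _ => simp [dirR] at hr

end

end H74
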