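import Pool.Agent.H74.Top2

set_option linter.unusedSectionVars false
set_option linter.unusedVariables false

namespace H74

noncomputable section
variable {ι Q : Type} [DecidableEq ι] [Fintype ι] [DecidableEq Q]

variable {C : Code ι Q} {w : ℤ → Bool}

theorem growL_blank {τ : ι} {ρ : Q → ℕ} (PO : ProgOK C τ ρ) {r : Info ι Q} {p : ℤ}
    {S : ℤ → Finset ι} {H : ℤ → Hd ι Q} {lo hi : ℤ} (h : CLp C w r p S H lo hi)
    (hb : H lo = .B) (hnh : ¬ Halts C w ⟨.go r, p, S, H, lo, hi⟩) :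
    Inf C w ⟨.go r, p, S, H, lo, hi⟩ ∨ Enl C w ⟨.go r, p, S, H, lo, hi⟩ lo hi := by
  rcases stepL PO h hnh with h1 | h1 | h1
  · exact Or.inl h1
  · exact Or.inr h1
  · exact absurd hb h1.1

theorem growR_blank {τ : ι} {ρ : Q → ℕ} (PO : ProgOK C τ ρ) {r : Info ι Q}
    {S : ℤ → Finset ι} {H : ℤ → Hd ι Q} {lo hi : ℤ} (h : CRp C w r S H lo hi)
    (hb : H lo = .B) (hnh : ¬ Halts C w ⟨.go r, lo+1, S, H, lo, hi⟩) :
    Inf C w ⟨.go r, lo+1, S, H, lo, hi⟩ ∨ Enl C w ⟨.go r, lo+1, S, H, lo, hi⟩ lo hi := by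
  rcases stepR PO h hnh with h1 | ⟨r1, p1, S1, H1, hi1, a1, a2, a3, a4, a5⟩
  · exact Or.inl h1
  · by_cases e : hi < hi1
    · exact Or.inr (Enl.mkL a1 a2 le_rfl a3 (Or.inr e))
    · have e' : hi1 = hi := by omega
      subst e'
      rcases growL_blank PO a2 (by rw [a4]; exact hb) (fun h => hnh (Halts.of_reaches a1 h)) with h | h
      · exact Or.inl (h.of_reaches a1)
      · exact Or.inr (h.of_reaches a1)

theorem grow_ret {τ : ι} {ρ : Q → ℕ} (PO : ProgOK C τ ρ) {lo hi : ℤ} :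
    ∀ a : (ℤ → Finset ι) × Q, ∀ (t : Option ι) (p : ℤ) (H : ℤ → Hd ι Q),
      CLp C w (.ret a.2 t) p a.1 H lo hi → ¬ Halts C w ⟨.go (.ret a.2 t), p, a.1, H, lo, hi⟩ →
      Inf C w ⟨.go (.ret a.2 t), p, a.1, H, lo, hi⟩ ∨
        Enl C w ⟨.go (.ret a.2 t), p, a.1, H, lo, hi⟩ lo hi := by
  apply lexInd (fun a => mS τ lo hi a.1) (fun a => ρ a.2)
  rintro ⟨S, q⟩ ih t p H hC hnh
  simp only at ih hC hnh ⊢
  rcases stepL PO hC hnh with h1 | h1 | ⟨hb, h1⟩
  · exact Or.inl h1
  · exact Or.inr h1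
  · rcases h1 with ⟨v, t', r1, H1, e, _⟩ | ⟨t', S1, e, _⟩ | ⟨q', t', e, h2⟩
    · simp at e
    · simp at e
    · simp only [Info.ret.injEq] at e
      obtain ⟨rfl, rfl⟩ := e
      rcases h2 with ⟨q1, p1, S1, a1, a2, a3⟩ | ⟨a1, a2, a3⟩ | ⟨w0, S0, a1, a2⟩
      · rcases ih (S1, q1) a3 t p1 H a2 (fun h => hnh (Halts.of_reaches a1 h)) with h | h
        · exact Or.inl (h.of_reaches a1)
        · exact Or.inr (h.of_reaches a1)
      · rcases stepR PO a2 (fun h => hnh (Halts.of_reaches a1 h)) with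
          h3 | ⟨r1, p1, S1, H1, hi1, b1, b2, b3, b4, b5⟩
        · exact Or.inl (h3.of_reaches a1)
        · by_cases e : hi < hi1
          · exact Or.inr (Enl.mkL (a1.trans b1) b2 le_rfl b3 (Or.inr e))
          · have e' : hi1 = hi := by omega
            subst e'
            obtain ⟨q1, e1, e2⟩ := b5 rfl
            subst e1
            rcases ih (S1, q1) (e2 a3) t p1 H1 b2
              (fun h => hnh (Halts.of_reaches (a1.trans b1) h)) with h | h
            · exact Or.inl (h.of_reaches (a1.trans b1))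
            · exact Or.inr (h.of_reaches (a1.trans b1))
      · rcases stepR PO a2 (fun h => hnh (Halts.of_reaches a1 h)) with
          h3 | ⟨r1, p1, S1, H1, hi1, b1, b2, b3, b4, b5⟩
        · exact Or.inl (h3.of_reaches a1)
        · by_cases e : hi < hi1
          · exact Or.inr (Enl.mkL (a1.trans b1) b2 le_rfl b3 (Or.inr e))
          · have e' : hi1 = hi := by omega
            exact (b5 e').elim

theorem growL {τ : ι} {ρ : Q → ℕ} (PO : ProgOK C τ ρ) {r : Info ι Q} {p : ℤ}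
    {S : ℤ → Finset ι} {H : ℤ → Hd ι Q} {lo hi : ℤ} (h : CLp C w r p S H lo hi)
    (hnh : ¬ Halts C w ⟨.go r, p, S, H, lo, hi⟩) :
    Inf C w ⟨.go r, p, S, H, lo, hi⟩ ∨ Enl C w ⟨.go r, p, S, H, lo, hi⟩ lo hi := by
  rcases stepL PO h hnh with h1 | h1 | ⟨hb, h1⟩
  · exact Or.inl h1
  · exact Or.inr h1
  · rcases h1 with ⟨v, t', r1, H1, e, a1, a2, a3⟩ | ⟨t', S1, e, a1, a2⟩ | ⟨q', t', e, h2⟩
    · rcases growR_blank PO a2 a3 (fun h => hnh (Halts.of_reaches a1 h)) with h | h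
      · exact Or.inl (h.of_reaches a1)
      · exact Or.inr (h.of_reaches a1)
    · rcases grow_ret PO (S1, C.q0) t' lo H a2 (fun h => hnh (Halts.of_reaches a1 h)) with h | h
      · exact Or.inl (h.of_reaches a1)
      · exact Or.inr (h.of_reaches a1)
    · subst e
      exact grow_ret PO (S, q') t' p H h hnh

theorem growR {τ : ι} {ρ : Q → ℕ} (PO : ProgOK C τ ρ) {r : Info ι Q}
    {S : ℤ → Finset ι} {H : ℤ → Hd ι Q} {lo hi : ℤ} (h : CRp C w r S H lo hi)
    (hnh : ¬ Halts C w ⟨.go r, lo+1, S, H, lo, hi⟩) :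
    Inf C w ⟨.go r, lo+1, S, H, lo, hi⟩ ∨ Enl C w ⟨.go r, lo+1, S, H, lo, hi⟩ lo hi := by
  rcases stepR PO h hnh with h1 | ⟨r1, p1, S1, H1, hi1, a1, a2, a3, a4, a5⟩
  · exact Or.inl h1
  · by_cases e : hi < hi1
    · exact Or.inr (Enl.mkL a1 a2 le_rfl a3 (Or.inr e))
    · have e' : hi1 = hi := by omega
      subst e'
      rcases growL PO a2 (fun h => hnh (Halts.of_reaches a1 h)) with h | h
      · exact Or.inl (h.of_reaches a1)
      · exact Or.inr (h.of_reaches a1)

theorem grow {τ : ι} {ρ : Q → ℕ} (PO : ProgOK C τ ρ) {c : Conf ι Q} (h : chk C w c)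
    (hnh : ¬ Halts C w c) : Inf C w c ∨ Enl C w c c.lo c.hi := by
  obtain ⟨st, p, S, H, lo, hi⟩ := c
  rcases h with ⟨r, h1, h2⟩ | ⟨r, h1, h2, h3⟩
  · simp only at h1 h2
    subst h1
    exact growL PO h2 hnh
  · simp only at h1 h2 h3
    subst h1 h2
    exact growR PO h3 hnh

theorem chk_lohi {c : Conf ι Q} (h : chk C w c) : c.lo ≤ c.hi ∧ Wd C w c.lo c.hi := by
  rcases h with ⟨r, h1, h2⟩ | ⟨r, h1, h2, h3⟩
  · exact ⟨le_trans h2.2.1 h2.2.2.1, h2.2.2.2.2.2.2⟩
  · exact ⟨le_of_lt h3.2.1, h3.2.2.2.2⟩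

theorem chk_inf {τ : ι} {ρ : Q → ℕ} (PO : ProgOK C τ ρ) {c : Conf ι Q} (h : chk C w c)
    (hnh : ¬ Halts C w c) : Inf C w c := by
  intro N
  have key : ∀ k : ℕ, ∀ c : Conf ι Q, chk C w c → ¬ Halts C w c → (N : ℤ) - k ≤ c.hi - c.lo →
      ∃ c', Reaches C w c c' ∧ (N : ℤ) ≤ c'.hi - c'.lo ∧ Wd C w c'.lo c'.hi := by
    intro k
    induction k with
    | zero =>
      intro c h hnh hk
      exact ⟨c, Reaches.refl _, by simpa using hk, (chk_lohi h).2⟩
    | succ k ih =>
      intro c h hnh hk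
      rcases grow PO h hnh with h1 | ⟨c', a1, a2, a3, a4, a5⟩
      · exact h1 N
      · obtain ⟨d, b1, b2⟩ := ih c' a2 (fun h => hnh (Halts.of_reaches a1 h)) (by
          push_cast at hk; omega)
        exact ⟨d, a1.trans b1, b2⟩
  exact key N c h hnh (by have := (chk_lohi h).1; omega)

theorem CLp_triv {r : Info ι Q} (hr : dirR r = false) {p : ℤ} {S : ℤ → Finset ι}
    {H : ℤ → Hd ι Q} {lo hi : ℤ} (h1 : lo ≤ p) (h2 : p ≤ hi) (h3 : hi ≤ lo + 1)
    (h4 : p = hi → lo < hi → H hi = .B) : CLp C w r p S H lo hi :=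
  ⟨hr, h1, h2, fun z _ _ => by omega, h4, Or.inl (by omega), Wd_small (by omega)⟩

theorem CRp_triv {r : Info ι Q} (hr : dirR r = true) {S : ℤ → Finset ι}
    {H : ℤ → Hd ι Q} {lo : ℤ} : CRp C w r S H lo (lo+1) :=
  ⟨hr, by omega, fun z _ _ => by omega, Or.inr (fun z _ _ => by omega), Wd_small (by omega)⟩

theorem incR_chk (v : Val ι) (t : Option ι) (x : ℤ) (S : ℤ → Finset ι) (H : ℤ → Hd ι Q)
    (lo hi : ℤ) (h1 : x - 1 ≤ lo) (h2 : lo ≤ x) (h3 : hi = x) :
    ∃ c', Reaches C w ⟨.incR v t, x, S, H, lo, hi⟩ c' ∧ chk C w c' := by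
  subst h3
  by_cases hcc : H hi = .B ∧ ¬ tin t (S hi)
  · have e2 : Reaches C w ⟨.incR v t, hi, S, H, lo, hi⟩
        ⟨.go (if v.F = ∅ ∧ S hi = ∅ then .rinit t else .ret C.qfin t), hi-1, S,
          Function.update H hi .ER, hi-1, hi⟩ := by
      apply reach1 (S' := S hi) (h' := .ER) (d := .L)
      · simp only [act]
        rw [if_pos hcc]
      · simp; omega
      · simp
      · rfl
      · simp; omega
      · simp
    refine ⟨_, e2, Or.inl ⟨_, rfl, ?_⟩⟩
    apply CLp_triv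
    · split_ifs <;> rfl
    · exact le_rfl
    · simp
    · simp
    · simp
  · have e2 : Reaches C w ⟨.incR v t, hi, S, H, lo, hi⟩
        ⟨.go (.rclean v t), hi-1, S, H, hi-1, hi⟩ := by
      apply reach1 (S' := S hi) (h' := H hi) (d := .L)
      · simp only [act]
        rw [if_neg hcc]
      · simp; omega
      · simp
      · simp
      · simp; omega
      · simp
    refine ⟨_, e2, Or.inl ⟨_, rfl, ?_⟩⟩
    exact CLp_triv rfl le_rfl (by simp) (by simp) (by simp)

theorem init_chk {τ : ι} {ρ : Q → ℕ} (PO : ProgOK C τ ρ) (st : State ι Q) (x : ℤ)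
    (S : ℤ → Finset ι) (H : ℤ → Hd ι Q) (hnh : ¬ Halts C w ⟨st, x, S, H, x, x⟩) :
    ∃ c', Reaches C w ⟨st, x, S, H, x, x⟩ c' ∧ chk C w c' := by
  cases st with
  | go r =>
    by_cases hr : dirR r = true
    · by_cases hstop : H x ≠ .B ∨ tin (target C r) (S x)
      · obtain ⟨r1, p1, S1, H1, lo1, hi1, a1, a2, _⟩ := arriveR (τ := τ) (ρ := ρ) PO hr
          (y := x) (lo := x) (hi := x) le_rfl le_rfl (fun z _ _ => by omega)
          (fun z _ _ => by omega) hstop (fun h => by omega) (Wd_small (by omega))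
          (fun _ => by
            have : (x - x - 1).toNat = 0 := by omega
            rw [this]; exact cond_zero _ _ _ _) hnh
        exact ⟨_, a1, Or.inl ⟨_, rfl, a2⟩⟩
      · simp only [not_or, not_not] at hstop
        have e1 := launchR (C := C) (w := w) hr (S := S) (H := H) (hi := x) (lo := x) (x := x)
          le_rfl hstop.1 hstop.2
        obtain ⟨c', h1, h2⟩ := incR_chk (C := C) (w := w) (Vl w S x 1) (target C r) (x+(1:ℕ)) S
          (Function.update H x (.O r)) x (max x (x+(1:ℕ))) (by simp) (by simp) (by simp)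
        exact ⟨c', e1.trans h1, h2⟩
    · have hr' : dirR r = false := by simpa using hr
      exact ⟨_, Reaches.refl _, Or.inl ⟨r, rfl, CLp_triv hr' le_rfl le_rfl (by simp) (by simp)⟩⟩
  | incR v t => exact incR_chk v t x S H x x (by simp) le_rfl rfl
  | incL =>
    by_cases hcc : H x = .B
    · have e2 : Reaches C w ⟨.incL, x, S, H, x, x⟩
          ⟨.go .lback, x+1, S, Function.update H x .EL, x, x+1⟩ := by
        apply reach1 (S' := S x) (h' := .EL) (d := .R)
        · simp only [act]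
          rw [if_pos hcc]
        · simp
        · simp
        · rfl
        · simp
        · simp
      exact ⟨_, e2, Or.inr ⟨_, rfl, rfl, CRp_triv rfl⟩⟩
    · have e2 : Reaches C w ⟨.incL, x, S, H, x, x⟩
          ⟨.go .lclean, x+1, S, H, x, x+1⟩ := by
        apply reach1 (S' := S x) (h' := H x) (d := .R)
        · simp only [act]
          rw [if_neg hcc]
        · simp
        · simp
        · simp
        · simp
        · simp
      exact ⟨_, e2, Or.inr ⟨_, rfl, rfl, CRp_triv rfl⟩⟩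
  | incM i q' t =>
    by_cases hcc : H x = .B
    · have e2 : Reaches C w ⟨.incM i q' t, x, S, H, x, x⟩
          ⟨.go (.ret q' t), x, Function.update S x (insert i (S x)), H, x, x⟩ := by
        apply reach1 (S' := insert i (S x)) (h' := .B) (d := .N)
        · simp [act, hcc]
        · simp
        · rfl
        · exact upd_same hcc
        · simp
        · simp
      exact ⟨_, e2, Or.inl ⟨_, rfl, CLp_triv rfl le_rfl le_rfl (by simp) (by simp)⟩⟩
    · have e2 : Reaches C w ⟨.incM i q' t, x, S, H, x, x⟩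
          ⟨.go (.ret C.qov t), x-1, S, H, x-1, x⟩ := by
        apply reach1 (S' := S x) (h' := H x) (d := .L)
        · simp [act, hcc]
        · simp; omega
        · simp
        · simp
        · simp; omega
        · simp
      exact ⟨_, e2, Or.inl ⟨_, rfl, CLp_triv rfl le_rfl (by simp) (by simp) (by simp)⟩⟩
  | decM i q' t =>
    have e2 : Reaches C w ⟨.decM i q' t, x, S, H, x, x⟩
        ⟨.go (.ret q' t), x, Function.update S x (insert i (S x)), H, x, x⟩ := by
      apply reach1 (S' := insert i (S x)) (h' := H x) (d := .N)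
      · simp [act]
      · simp
      · rfl
      · simp
      · simp
      · simp
    exact ⟨_, e2, Or.inl ⟨_, rfl, CLp_triv rfl le_rfl le_rfl (by simp) (by simp)⟩⟩

theorem top_inf {τ : ι} {ρ : Q → ℕ} (PO : ProgOK C τ ρ) (st : State ι Q) (x : ℤ)
    (S : ℤ → Finset ι) (H : ℤ → Hd ι Q) (hnh : ¬ Halts C w ⟨st, x, S, H, x, x⟩) :
    Inf C w ⟨st, x, S, H, x, x⟩ := by
  obtain ⟨c', h1, h2⟩ := init_chk PO st x S H hnh
  exact (chk_inf PO h2 (fun h => hnh (Halts.of_reaches h1 h))).of_reaches h1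

end

end H74
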